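import Pool.Agent.H66.SP.Bas
import Pool.Agent.H18.LA.Gc
import Pool.Agent.H56.UD.DD
import Pool.Agent.H66.SP.UD_DD

/-!
# LA_Gc: port of H18.LA.Gc to the setting PG, FG (H66/SP/Defs)
-/

set_option autoImplicit false

open Filter Topology Metric Set MeasureTheory

namespace Pool.Agent.H66.SP

open Pool.Agent.H18.LA

open Pool.Agent.H56.UD

variable {f : ℂ → ℂ} {U J P Cr E : Set ℂ} {δ b0 : ℝ} {η : ℂ → ℂ → ℂ} {ρ : ℝ} {X hh μ : ℂ → ℂ}

/-- the identity at a fixed stage -/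
private theorem gc_one (h : PG f U J P Cr δ η ρ) (hX : FG f U J E δ X hh μ b0) {z : ℂ} {k k' : ℕ} {σ σ' : ℝ}
    (hσ : 0 < σ) (hσ' : 0 < σ') {w : ℂ} {r M ε : ℝ} (hM : 0 < M) {T T' : ℂ → ℂ}
    (hT : DifferentiableOn ℂ T (ball z (2 * M * σ)))
    (hT2 : ∀ v ∈ ball z (2 * M * σ), ‖X v - μ z * (starRingEnd ℂ) (v - z) - T v‖ ≤ ε * (2 * M * σ))
    (hT' : DifferentiableOn ℂ T' (ball z (2 * M * σ')))
    (hT2' : ∀ v ∈ ball z (2 * M * σ'), ‖X v - μ z * (starRingEnd ℂ) (v - z) - T' v‖ ≤ ε * (2 * M * σ'))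
    {G G' : ℂ → ℂ} (hG : Cp f U J δ z k k' σ σ' w r M G G') :
    ∃ H : ℂ → ℂ, DifferentiableOn ℂ H (ball w r) ∧ ∀ u ∈ ball w r,
      ‖μ z * ((starRingEnd ℂ) (G u) * deriv G' u - (starRingEnd ℂ) (G' u) * deriv G u) - H u‖ ≤
        ε * (2 * M) * (‖deriv G u‖ + ‖deriv G' u‖) := by
  obtain ⟨H1, h11, h12⟩ := X_it h hX k
  obtain ⟨H2, h21, h22⟩ := X_it h hX k'
  have hin : ∀ (s : ℝ), 0 < s → ∀ g : ℂ → ℂ, (∀ u ∈ ball w r, ‖g u‖ ≤ M) → ∀ u ∈ ball w r,
      z + s * g u ∈ ball z (2 * M * s) := by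
    intro s hs g hg u hu
    rw [mem_ball, dist_eq_norm, add_sub_cancel_left, norm_mul, Complex.norm_real, Real.norm_eq_abs, abs_of_pos hs]
    have := hg u hu
    nlinarith
  have hb1 := hin σ hσ G fun u hu => (hG.mG u hu).2
  have hb2 := hin σ' hσ' G' fun u hu => (hG.mG' u hu).2
  have hc : (σ : ℂ) ≠ 0 := Complex.ofReal_ne_zero.2 hσ.ne'
  have hc' : (σ' : ℂ) ≠ 0 := Complex.ofReal_ne_zero.2 hσ'.ne'
  have d1 : DifferentiableOn ℂ (fun u => z + σ * G u) (ball w r) := (hG.dG.const_mul _).const_add z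
  have d2 : DifferentiableOn ℂ (fun u => z + σ' * G' u) (ball w r) := (hG.dG'.const_mul _).const_add z
  have e1 : DifferentiableOn ℂ (deriv G) (ball w r) := hG.dG.deriv isOpen_ball
  have e2 : DifferentiableOn ℂ (deriv G') (ball w r) := hG.dG'.deriv isOpen_ball
  have t1 : DifferentiableOn ℂ (fun u => T (z + σ * G u)) (ball w r) := hT.comp d1 hb1
  have t2 : DifferentiableOn ℂ (fun u => T' (z + σ' * G' u)) (ball w r) := hT'.comp d2 hb2
  have k1 : DifferentiableOn ℂ (fun u => H1 (z + σ * G u)) (ball w r) :=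
    h11.comp d1 fun u hu => (hG.mG u hu).1
  have k2 : DifferentiableOn ℂ (fun u => H2 (z + σ' * G' u)) (ball w r) :=
    h21.comp d2 fun u hu => (hG.mG' u hu).1
  have k3 : DifferentiableOn ℂ (fun u => deriv (f^[k']) (z + σ' * G' u)) (ball w r) :=
    ((dm_diff h k').deriv (dm_open h k')).comp d2 fun u hu => (hG.mG' u hu).1
  refine ⟨fun u => (σ * deriv G u * (H2 (z + σ' * G' u) - H1 (z + σ * G u)) / deriv (f^[k']) (z + σ' * G' u) -
    σ' * deriv G' u * T (z + σ * G u) + σ * deriv G u * T' (z + σ' * G' u)) / (σ * σ'), ?_, ?_⟩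
  · refine DifferentiableOn.div_const ?_ _
    refine ((((e1.const_mul _).mul (k2.sub k1)).div k3 hG.ne).sub ((e2.const_mul _).mul t1)).add ((e1.const_mul _).mul t2)
  · intro u hu
    have hne := hG.ne u hu
    have a1 := (hG.mG u hu).1
    have b1 := (hG.mG' u hu).1
    have x1 := h12 _ a1
    have x2 := h22 _ b1
    have g1 : deriv (fun u => z + σ * G u) u = σ * deriv G u := by
      rw [deriv_const_add, deriv_const_mul _ (hG.dG.differentiableAt (isOpen_ball.mem_nhds hu))]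
    have g2 : deriv (fun u => z + σ' * G' u) u = σ' * deriv G' u := by
      rw [deriv_const_add, deriv_const_mul _ (hG.dG'.differentiableAt (isOpen_ball.mem_nhds hu))]
    have a3 := der_lift h isOpen_ball (H := fun u => f^[k'] (z + σ' * G' u)) d1
      (fun u hu => ⟨(hG.mG u hu).1, hG.eq u hu⟩) hu
    have b3 := der_lift h isOpen_ball (H := fun u => f^[k'] (z + σ' * G' u)) d2
      (fun u hu => ⟨(hG.mG' u hu).1, rfl⟩) hu
    rw [g1] at a3
    rw [g2, ← a3] at b3
    rw [hG.eq u hu] at x1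
    rw [x2] at x1
    have f1 := hT2 _ (hb1 u hu)
    have f2 := hT2' _ (hb2 u hu)
    rw [add_sub_cancel_left, map_mul, Complex.conj_ofReal] at f1 f2
    obtain ⟨p1, hp1⟩ : ∃ p, p = X (z + σ * G u) - μ z * (σ * (starRingEnd ℂ) (G u)) -
      T (z + σ * G u) := ⟨_, rfl⟩
    obtain ⟨p2, hp2⟩ : ∃ p, p = X (z + σ' * G' u) - μ z * (σ' * (starRingEnd ℂ) (G' u)) -
      T' (z + σ' * G' u) := ⟨_, rfl⟩
    rw [← hp1] at f1
    rw [← hp2] at f2
    -- x1 : D' X2 + H2 = D X1 + H1; b3 : D' (σ' G'˙) = D (σ G˙)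
    have y : σ' * deriv G' u * X (z + σ * G u) - σ * deriv G u * X (z + σ' * G' u) =
        σ * deriv G u * (H2 (z + σ' * G' u) - H1 (z + σ * G u)) / deriv (f^[k']) (z + σ' * G' u) := by
      rw [eq_div_iff hne]
      linear_combination X (z + σ * G u) * b3 - σ * deriv G u * x1
    have key : μ z * ((starRingEnd ℂ) (G u) * deriv G' u - (starRingEnd ℂ) (G' u) * deriv G u) -
        (σ * deriv G u * (H2 (z + σ' * G' u) - H1 (z + σ * G u)) / deriv (f^[k']) (z + σ' * G' u) -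
          σ' * deriv G' u * T (z + σ * G u) + σ * deriv G u * T' (z + σ' * G' u)) / (σ * σ') =
        deriv G u * p2 / σ' - deriv G' u * p1 / σ := by
      rw [← y, hp1, hp2]
      field_simp
      ring
    rw [key]
    have q1 : ‖deriv G' u * p1 / σ‖ ≤ ε * (2 * M) * ‖deriv G' u‖ := by
      rw [norm_div, norm_mul, Complex.norm_real, Real.norm_eq_abs, abs_of_pos hσ, div_le_iff₀ hσ]
      calc _ ≤ ‖deriv G' u‖ * (ε * (2 * M * σ)) := mul_le_mul_of_nonneg_left f1 (norm_nonneg _)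
        _ = _ := by ring
    have q2 : ‖deriv G u * p2 / σ'‖ ≤ ε * (2 * M) * ‖deriv G u‖ := by
      rw [norm_div, norm_mul, Complex.norm_real, Real.norm_eq_abs, abs_of_pos hσ', div_le_iff₀ hσ']
      calc _ ≤ ‖deriv G u‖ * (ε * (2 * M * σ')) := mul_le_mul_of_nonneg_left f2 (norm_nonneg _)
        _ = _ := by ring
    calc _ ≤ ‖deriv G u * p2 / σ'‖ + ‖deriv G' u * p1 / σ‖ := norm_sub_le _ _
      _ ≤ _ := by linarith

/-- the antiholomorphic derivative of a combination -/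
private theorem gal_bar {g g' p p' : ℂ → ℂ} {u : ℂ} (hg : DifferentiableAt ℂ g u) (hg' : DifferentiableAt ℂ g' u)
    (hp : DifferentiableAt ℂ p u) (hp' : DifferentiableAt ℂ p' u)
    (hA : DifferentiableAt ℂ (fun v => (starRingEnd ℂ) (g v) * p v - (starRingEnd ℂ) (g' v) * p' v) u) :
    (starRingEnd ℂ) (deriv g u) * p u = (starRingEnd ℂ) (deriv g' u) * p' u := by
  have hdir : ∀ F : ℂ → ℂ, DifferentiableAt ℂ F u → ∀ v : ℂ,
      HasDerivAt (fun t : ℝ => F (u + t * v)) (deriv F u * v) 0 := by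
    intro F hF v
    have h1 : HasDerivAt (fun ζ : ℂ => u + ζ * v) v ((0 : ℝ) : ℂ) := by
      have := ((hasDerivAt_id ((0 : ℝ) : ℂ)).mul_const v).const_add u
      simpa using this
    have h2 : HasDerivAt F (deriv F u) ((fun ζ : ℂ => u + ζ * v) ((0 : ℝ) : ℂ)) := by
      have h3 : (fun ζ : ℂ => u + ζ * v) ((0 : ℝ) : ℂ) = u := by simp
      rw [h3]
      exact hF.hasDerivAt
    have h4 : HasDerivAt (F ∘ fun ζ : ℂ => u + ζ * v) (deriv F u * v) ((0 : ℝ) : ℂ) := HasDerivAt.comp _ h2 h1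
    exact h4.comp_ofReal
  have hv : ∀ v : ℂ, deriv (fun v => (starRingEnd ℂ) (g v) * p v - (starRingEnd ℂ) (g' v) * p' v) u * v =
      (star (deriv g u * v) * p u + (starRingEnd ℂ) (g u) * (deriv p u * v)) -
        (star (deriv g' u * v) * p' u + (starRingEnd ℂ) (g' u) * (deriv p' u * v)) := by
    intro v
    have h1 := hdir _ hA v
    have h2 := (((hdir g hg v).star).mul (hdir p hp v)).sub (((hdir g' hg' v).star).mul (hdir p' hp' v))
    have h3 := h1.unique h2
    rw [h3]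
    simp
  have h1 := hv 1
  have hi := hv Complex.I
  simp only [mul_one, star_mul', Complex.star_def, Complex.conj_I] at h1 hi
  have h2 : (2 * Complex.I) * ((starRingEnd ℂ) (deriv g u) * p u - (starRingEnd ℂ) (deriv g' u) * p' u) = 0 := by
    linear_combination hi - Complex.I * h1
  have h3 : (2 : ℂ) * Complex.I ≠ 0 := mul_ne_zero two_ne_zero Complex.I_ne_zero
  exact sub_eq_zero.1 ((mul_eq_zero.1 h2).resolve_left h3)

/-- uniformly approximable functions are holomorphic -/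
private theorem gal_app {A : ℂ → ℂ} {w : ℂ} {r : ℝ}
    (h : ∀ r' < r, ∀ ε : ℝ, 0 < ε → ∃ H : ℂ → ℂ, DifferentiableOn ℂ H (ball w r) ∧ ∀ u ∈ closedBall w r', ‖A u - H u‖ ≤ ε) :
    DifferentiableOn ℂ A (ball w r) := by
  intro u hu
  obtain ⟨r', h1, h2⟩ := exists_between (mem_ball.1 hu)
  choose H hH1 hH2 using fun n : ℕ => h r' h2 (1 / ((n : ℝ) + 1)) (by positivity)
  have h3 : TendstoUniformlyOn H A atTop (ball w r') := by
    rw [Metric.tendstoUniformlyOn_iff]
    intro ε hε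
    obtain ⟨N, hN⟩ := exists_nat_one_div_lt hε
    filter_upwards [eventually_ge_atTop N] with n hn v hv
    rw [dist_eq_norm]
    refine (hH2 n v (ball_subset_closedBall hv)).trans_lt (lt_of_le_of_lt ?_ hN)
    exact one_div_le_one_div_of_le (by positivity) (by exact_mod_cast Nat.add_le_add_right hn 1)
  have h4 : DifferentiableOn ℂ A (ball w r') :=
    h3.tendstoLocallyUniformlyOn.differentiableOn
      (Eventually.of_forall fun n => (hH1 n).mono (ball_subset_ball h2.le)) isOpen_ball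
  exact (h4.differentiableAt (isOpen_ball.mem_nhds (mem_ball.2 h1))).differentiableWithinAt

theorem gc (h : PG f U J P Cr δ η ρ) (hX : FG f U J E δ X hh μ b0) {𝒰 : Ultrafilter ℕ} {z : ℕ → ℂ} {k k' : ℕ → ℕ}
    {σ σ' : ℕ → ℝ} (hz : ∀ n, z n ∈ E) (hσ : ∀ᶠ n in (𝒰 : Filter ℕ), 0 < σ n) (hσ' : ∀ᶠ n in (𝒰 : Filter ℕ), 0 < σ' n)
    (ht : Tendsto σ (𝒰 : Filter ℕ) (𝓝 0)) (ht' : Tendsto σ' (𝒰 : Filter ℕ) (𝓝 0)) {w : ℂ} {r M : ℝ} {G G' : ℕ → ℂ → ℂ}
    (hr : 0 < r) (hM : 0 < M)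
    (hG : ∀ᶠ n in (𝒰 : Filter ℕ), Cp f U J δ (z n) (k n) (k' n) (σ n) (σ' n) w r M (G n) (G' n)) {g g' : ℂ → ℂ}
    (hg : TendstoLocallyUniformlyOn G g (𝒰 : Filter ℕ) (ball w r))
    (hg' : TendstoLocallyUniformlyOn G' g' (𝒰 : Filter ℕ) (ball w r)) :
    ∀ u ∈ ball w r, (starRingEnd ℂ) (deriv g u) * deriv g' u = (starRingEnd ℂ) (deriv g' u) * deriv g u := by
  have hw : w ∈ ball w r := mem_ball_self hr
  have hg1 : DifferentiableOn ℂ g (ball w r) := hg.differentiableOn (hG.mono fun n hn => hn.dG) isOpen_ball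
  have hg1' : DifferentiableOn ℂ g' (ball w r) := hg'.differentiableOn (hG.mono fun n hn => hn.dG') isOpen_ball
  have hd3 := ulim_deriv 𝒰 isOpen_ball (hG.mono fun n hn => hn.dG) hg
  have hd3' := ulim_deriv 𝒰 isOpen_ball (hG.mono fun n hn => hn.dG') hg'
  have hd1 : DifferentiableOn ℂ (deriv g) (ball w r) := hg1.deriv isOpen_ball
  have hd1' : DifferentiableOn ℂ (deriv g') (ball w r) := hg1'.deriv isOpen_ball
  -- the limit of the line field
  obtain ⟨b, -, hb⟩ : ∃ b ∈ closedBall (0 : ℂ) 1, Tendsto (fun n => μ (z n)) (𝒰 : Filter ℕ) (𝓝 b) := by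
    have h0 : closedBall (0 : ℂ) 1 ∈ 𝒰.map fun n => μ (z n) := by
      rw [Ultrafilter.mem_map]
      refine Filter.univ_mem' fun n => ?_
      show μ (z n) ∈ closedBall (0 : ℂ) 1
      rw [mem_closedBall_zero_iff]
      exact (hX.lb _ (hz n)).2
    exact (isCompact_closedBall (0 : ℂ) 1).ultrafilter_le_nhds' (𝒰.map fun n => μ (z n)) h0
  have hb0 : b ≠ 0 := by
    have h1 : b0 ≤ ‖b‖ := ge_of_tendsto hb.norm (Eventually.of_forall fun n => (hX.lb _ (hz n)).1)
    have h2 := hX.hb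
    intro h3
    rw [h3, norm_zero] at h1
    linarith
  -- the combination
  have hA : DifferentiableOn ℂ (fun u => b * ((starRingEnd ℂ) (g u) * deriv g' u - (starRingEnd ℂ) (g' u) * deriv g u))
      (ball w r) := by
    refine gal_app fun r' hr' ε hε => ?_
    have hK : IsCompact (closedBall w r') := isCompact_closedBall w r'
    have hKs : closedBall w r' ⊆ ball w r := closedBall_subset_ball hr'
    -- locally uniform convergence of the combinations
    have hcc : TendstoLocallyUniformlyOn (fun n u => μ (z n) * ((starRingEnd ℂ) (G n u) * deriv (G' n) u -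
        (starRingEnd ℂ) (G' n u) * deriv (G n) u))
        (fun u => b * ((starRingEnd ℂ) (g u) * deriv g' u - (starRingEnd ℂ) (g' u) * deriv g u))
        (𝒰 : Filter ℕ) (ball w r) := by
      have hcv : ∀ {F : ℕ → ℂ → ℂ} {F0 : ℂ → ℂ}, ContinuousOn F0 (ball w r) →
          TendstoLocallyUniformlyOn F F0 (𝒰 : Filter ℕ) (ball w r) → ∀ v ∈ ball w r,
          Tendsto (fun y : ℕ × ℂ => F y.1 y.2) ((𝒰 : Filter ℕ) ×ˢ 𝓝[ball w r] v) (𝓝 (F0 v)) := by
        intro F F0 hF0 hF v hv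
        have h1 := tendstoLocallyUniformlyOn_iff_forall_tendsto.1 hF v hv
        have h2 : Tendsto (fun y : ℕ × ℂ => F0 y.2) ((𝒰 : Filter ℕ) ×ˢ 𝓝[ball w r] v) (𝓝 (F0 v)) :=
          (hF0 v hv).tendsto.comp tendsto_snd
        exact h2.congr_uniformity h1
      rw [tendstoLocallyUniformlyOn_iff_forall_tendsto]
      intro v hv
      have c1 := hcv hg1.continuousOn hg v hv
      have c2 := hcv hg1'.continuousOn hg' v hv
      have c3 := hcv hd1.continuousOn hd3 v hv
      have c4 := hcv hd1'.continuousOn hd3' v hv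
      have c5 : Tendsto (fun y : ℕ × ℂ => μ (z y.1)) ((𝒰 : Filter ℕ) ×ˢ 𝓝[ball w r] v) (𝓝 b) :=
        hb.comp tendsto_fst
      have c6 := c5.mul ((((Complex.continuous_conj.tendsto _).comp c1).mul c4).sub
        (((Complex.continuous_conj.tendsto _).comp c2).mul c3))
      have hcont : ContinuousOn (fun u => b * ((starRingEnd ℂ) (g u) * deriv g' u -
          (starRingEnd ℂ) (g' u) * deriv g u)) (ball w r) :=
        continuousOn_const.mul (((Complex.continuous_conj.comp_continuousOn hg1.continuousOn).mul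
          hd1'.continuousOn).sub ((Complex.continuous_conj.comp_continuousOn hg1'.continuousOn).mul hd1.continuousOn))
      have c7 : Tendsto (fun y : ℕ × ℂ => b * ((starRingEnd ℂ) (g y.2) * deriv g' y.2 -
          (starRingEnd ℂ) (g' y.2) * deriv g y.2)) ((𝒰 : Filter ℕ) ×ˢ 𝓝[ball w r] v)
          (𝓝 (b * ((starRingEnd ℂ) (g v) * deriv g' v - (starRingEnd ℂ) (g' v) * deriv g v))) :=
        (hcont v hv).tendsto.comp tendsto_snd
      exact (c7.prodMk_nhds c6).mono_right (nhds_le_uniformity _)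
    have hU := (tendstoLocallyUniformlyOn_iff_forall_isCompact isOpen_ball).1 hcc _ hKs hK
    have hU1 := (tendstoLocallyUniformlyOn_iff_forall_isCompact isOpen_ball).1 hd3 _ hKs hK
    have hU1' := (tendstoLocallyUniformlyOn_iff_forall_isCompact isOpen_ball).1 hd3' _ hKs hK
    obtain ⟨C, hC⟩ := hK.exists_bound_of_continuousOn (hd1.continuousOn.mono hKs)
    obtain ⟨C', hC'⟩ := hK.exists_bound_of_continuousOn (hd1'.continuousOn.mono hKs)
    rw [Metric.tendstoUniformlyOn_iff] at hU hU1 hU1'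
    -- the size of the error
    obtain ⟨L, hL, hL1, hL2⟩ : ∃ L : ℝ, 0 < L ∧ C + 1 ≤ L ∧ C' + 1 ≤ L :=
      ⟨max 1 (max (C + 1) (C' + 1)), lt_of_lt_of_le one_pos (le_max_left _ _),
        (le_max_left _ _).trans (le_max_right _ _), (le_max_right _ _).trans (le_max_right _ _)⟩
    obtain ⟨ε', hε', hε2⟩ : ∃ ε' : ℝ, 0 < ε' ∧ ε' * (2 * M) * (L + L) ≤ ε / 2 := by
      refine ⟨ε / 2 / ((2 * M) * (L + L)), by positivity, le_of_eq ?_⟩
      field_simp
    obtain ⟨ρ0, hρ0, hT⟩ := hX.T ε' hε'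
    have hsm : ∀ᶠ n in (𝒰 : Filter ℕ), 2 * M * σ n < ρ0 := by
      have h1 : Tendsto (fun n => 2 * M * σ n) (𝒰 : Filter ℕ) (𝓝 (2 * M * 0)) := ht.const_mul (2 * M)
      rw [mul_zero] at h1
      exact h1.eventually_lt_const hρ0
    have hsm' : ∀ᶠ n in (𝒰 : Filter ℕ), 2 * M * σ' n < ρ0 := by
      have h1 : Tendsto (fun n => 2 * M * σ' n) (𝒰 : Filter ℕ) (𝓝 (2 * M * 0)) := ht'.const_mul (2 * M)
      rw [mul_zero] at h1
      exact h1.eventually_lt_const hρ0
    obtain ⟨n, hn, hn1, hn1', hns, hns', hnG, hσn, hσn'⟩ := (((hU (ε / 2) (by linarith)).and ((hU1 1 one_pos).and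
      ((hU1' 1 one_pos).and (hsm.and (hsm'.and (hG.and (hσ.and hσ')))))))).exists
    obtain ⟨T, hT1, hT2⟩ := hT (z n) (hz n) (2 * M * σ n) (mul_pos (by linarith) hσn) hns
    obtain ⟨T', hT1', hT2'⟩ := hT (z n) (hz n) (2 * M * σ' n) (mul_pos (by linarith) hσn') hns'
    obtain ⟨H, hH1, hH2⟩ := gc_one h hX hσn hσn' hM hT1 hT2 hT1' hT2' hnG
    refine ⟨H, hH1, fun u hu => ?_⟩
    have i1 := hn u hu
    have i2 := hH2 u (hKs hu)
    have i3 : ‖deriv (G n) u‖ ≤ L := by
      have j1 := hn1 u hu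
      have j2 := hC u hu
      rw [dist_eq_norm] at j1
      have j3 : ‖deriv (G n) u‖ ≤ ‖deriv g u‖ + ‖deriv g u - deriv (G n) u‖ := by
        have := norm_sub_le (deriv g u) (deriv g u - deriv (G n) u)
        rwa [sub_sub_cancel] at this
      linarith
    have i4 : ‖deriv (G' n) u‖ ≤ L := by
      have j1 := hn1' u hu
      have j2 := hC' u hu
      rw [dist_eq_norm] at j1
      have j3 : ‖deriv (G' n) u‖ ≤ ‖deriv g' u‖ + ‖deriv g' u - deriv (G' n) u‖ := by
        have := norm_sub_le (deriv g' u) (deriv g' u - deriv (G' n) u)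
        rwa [sub_sub_cancel] at this
      linarith
    rw [dist_eq_norm] at i1
    have i5 : ε' * (2 * M) * (‖deriv (G n) u‖ + ‖deriv (G' n) u‖) ≤ ε' * (2 * M) * (L + L) :=
      mul_le_mul_of_nonneg_left (add_le_add i3 i4) (by positivity)
    calc _ = ‖(b * ((starRingEnd ℂ) (g u) * deriv g' u - (starRingEnd ℂ) (g' u) * deriv g u) -
          μ (z n) * ((starRingEnd ℂ) (G n u) * deriv (G' n) u - (starRingEnd ℂ) (G' n u) * deriv (G n) u)) +
          (μ (z n) * ((starRingEnd ℂ) (G n u) * deriv (G' n) u - (starRingEnd ℂ) (G' n u) * deriv (G n) u) -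
            H u)‖ := by
          congr 1
          ring
      _ ≤ _ := norm_add_le _ _
      _ ≤ ε := by linarith
  intro u hu
  have hn := isOpen_ball.mem_nhds hu
  refine gal_bar (hg1.differentiableAt hn) (hg1'.differentiableAt hn) (hd1'.differentiableAt hn)
    (hd1.differentiableAt hn) ?_
  have h1 := (hA.differentiableAt hn).const_mul b⁻¹
  refine h1.congr_of_eventuallyEq (Eventually.of_forall fun v => ?_)
  show _ = b⁻¹ * (b * _)
  rw [inv_mul_cancel_left₀ hb0]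

end Pool.Agent.H66.SP
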