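import Pool.Agent.H56.UD.DN
import Pool.Agent.H78.UX.DB
import Pool.Agent.H56.WP.Defs
import Pool.Agent.H44.TY.Stq

/-!
# ROB => DIM, all Julia sets: the common planar setting

`PG`: the planar setting `PS` (H56/UD) without backward invariance of `J`; `J` is any compact set with `f J ⊆ J` and `P ⊆ J ⊆ U`;
exactness (`leo`) for the points of the domains, `leb`: also at the preimages of `J`, `Jd`: the images of `J` are not small; `stp`: a window which does not meet `P` is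
pulled back univalently. `FG`: the field without the condition off `J`, with `nc` (no cones) as a field.
`pg_ps`, `fg_ps`: `PS` and `FX` give them. (Julia set = sphere: from `SS`, H78/UX, in `H66/SP/Sph`.)
-/

set_option autoImplicit false

open Filter Topology Metric Set MeasureTheory

namespace Pool.Agent.H66.SP

open Pool.Agent.H56.UD (dm GD)
open Pool.Agent.H56.WP (Wd)

/-- the planar setting, all Julia sets -/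
structure PG (f : ℂ → ℂ) (U J P Cr : Set ℂ) (δ : ℝ) (η : ℂ → ℂ → ℂ) (ρ : ℝ) : Prop where
  hδ : 0 < δ
  Uo : IsOpen U
  fd : DifferentiableOn ℂ f U
  Jc : IsCompact J
  Jt : J.Nontrivial
  JU : J ⊆ U
  Jf : ∀ z ∈ J, f z ∈ J
  Pc : IsClosed P
  Pn : P.Nonempty
  PJ : P ⊆ J
  Pf : ∀ z ∈ P, f z ∈ P
  lift : ∀ (k : ℕ) (S : Set ℂ) (H : ℂ → ℂ) (q z : ℂ), Convex ℝ S → IsOpen S → DifferentiableOn ℂ H S →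
    (∀ u ∈ S, H u ∈ thickening δ J ∧ H u ∉ P) → q ∈ S → z ∈ dm f U J δ k → f^[k] z = H q →
    ∃ G : ℂ → ℂ, DifferentiableOn ℂ G S ∧ G q = z ∧ ∀ u ∈ S, G u ∈ dm f U J δ k ∧ f^[k] (G u) = H u
  leo : ∀ O : Set ℂ, IsOpen O → (O ∩ J).Nonempty → ∃ N : ℕ, ∀ n ≥ N, J ⊆ f^[n] '' (O ∩ dm f U J δ n)
  leb : ∀ O : Set ℂ, IsOpen O → (∃ q ∈ O, ∃ k : ℕ, (∀ j < k, f^[j] q ∈ U) ∧ f^[k] q ∈ J) →
    ∃ N : ℕ, ∀ n ≥ N, J ⊆ f^[n] '' (O ∩ dm f U J δ n)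
  Jd : ∃ D : ℝ, 0 < D ∧ ∀ k : ℕ, ∃ a ∈ J, ∃ b ∈ J, D ≤ ‖f^[k] a - f^[k] b‖
  Cf : Cr.Finite
  CJ : Cr ⊆ J
  CP : ∀ c ∈ Cr, f c ∈ P
  hρ : 0 < ρ
  nf : ∀ c ∈ Cr, DifferentiableOn ℂ (η c) (ball 0 ρ) ∧ InjOn (η c) (ball 0 ρ) ∧ η c 0 = c ∧
    ∀ v ∈ ball (0 : ℂ) ρ, η c v ∈ U ∧ f (η c v) = f c + v ^ 2
  loc : ∃ δ1 : ℝ, 0 < δ1 ∧ δ1 ≤ δ ∧ ∀ y ∈ J, ∀ z ∈ U, f z ∈ ball y δ1 →
    (∃ g : ℂ → ℂ, DifferentiableOn ℂ g (ball y δ1) ∧ g (f z) = z ∧ ∀ u ∈ ball y δ1, g u ∈ U ∧ f (g u) = u) ∨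
    (∃ c ∈ Cr, ball y δ1 ⊆ ball (f c) (ρ ^ 2 / 4) ∧ z ∈ η c '' ball 0 ρ)

  stp : ∀ θ ρ0 : ℝ, 0 < θ → θ < 1 → 0 < ρ0 → ρ0 < 1 → ∃ ε0 : ℝ, 0 < ε0 ∧ ∀ (K : ℕ) (y : ℂ) (ε : ℝ) (g : ℂ → ℂ) (u0 z' uJ : ℂ),
    y ∈ J → ε ≤ ε0 → Wd f U J P δ K θ y ε g → (∀ v ∈ ball (0 : ℂ) 1, g v ∉ P) → z' ∈ U → ‖u0‖ ≤ ρ0 → f z' = g u0 →
    ‖uJ‖ ≤ ρ0 → f^[K] (g uJ) ∈ J →
    ∃ g' : ℂ → ℂ, Wd f U J P δ (K + 1) θ y ε g' ∧ (∀ v ∈ ball (0 : ℂ) 1, g' v ∈ U ∧ f (g' v) = g v) ∧ g' u0 = z'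

/-- the field, all Julia sets -/
structure FG (f : ℂ → ℂ) (U J E : Set ℂ) (δ : ℝ) (X h μ : ℂ → ℂ) (b0 : ℝ) : Prop where
  hb : 0 < b0
  Xc : Continuous X
  hd : DifferentiableOn ℂ h U
  eq : ∀ z ∈ U, X (f z) = deriv f z * X z + h z
  Ec : IsCompact E
  EJ : E ⊆ J
  Ep : 0 < volume E
  lb : ∀ z ∈ E, b0 ≤ ‖μ z‖ ∧ ‖μ z‖ ≤ 1
  T : ∀ ε : ℝ, 0 < ε → ∃ ρ : ℝ, 0 < ρ ∧ ∀ z ∈ E, ∀ r : ℝ, 0 < r → r < ρ →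
    ∃ H : ℂ → ℂ, DifferentiableOn ℂ H (ball z r) ∧
      ∀ w ∈ ball z r, ‖X w - μ z * (starRingEnd ℂ) (w - z) - H w‖ ≤ ε * r
  nc : ∀ δ' M : ℝ, 0 < δ' → ∃ ε : ℝ, 0 < ε ∧ ∀ z ∈ E, ∀ (k : ℕ) (y : ℂ) (σ : ℝ) (G : ℂ → ℂ), y ∈ J →
    ball y δ' ⊆ thickening δ J → 0 < σ → DifferentiableOn ℂ G (ball y δ') →
    (∀ u ∈ ball y δ', G u ∈ dm f U J δ k ∧ f^[k] (G u) = u ∧ ‖G u - z‖ ≤ M * σ) → σ ≤ M * ‖deriv G y‖ → ε ≤ σ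

variable {f : ℂ → ℂ} {U J P Cr E : Set ℂ} {δ : ℝ} {η : ℂ → ℂ → ℂ} {ρ : ℝ} {X hh μ : ℂ → ℂ} {b0 : ℝ}

theorem pg_ps (h : Pool.Agent.H56.UD.PS f U J P Cr δ η ρ) : PG f U J P Cr δ η ρ where
  hδ := h.hδ
  Uo := h.Uo
  fd := h.fd
  Jc := h.Jc
  Jt := h.Jt
  JU := h.JU
  Jf := h.Jf
  Pc := h.Pc
  Pn := h.Pn
  PJ := h.PJ
  Pf := h.Pf
  lift := h.lift
  leo := by
    intro O hO hn
    obtain ⟨N, hN⟩ := h.leo O hO hn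
    exact ⟨N, fun n hn => (hN n hn).trans (image_mono (inter_subset_inter_right O (Pool.Agent.H56.UD.J_dm h n)))⟩
  leb := by
    rintro O hO ⟨q, hq, k, hk, hqJ⟩
    obtain ⟨N, hN⟩ := h.leo O hO ⟨q, hq, Pool.Agent.H56.UD.J_back h ⟨hk, self_subset_thickening h.hδ J hqJ⟩ hqJ⟩
    exact ⟨N, fun n hn => (hN n hn).trans (image_mono (inter_subset_inter_right O (Pool.Agent.H56.UD.J_dm h n)))⟩
  Jd := by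
    obtain ⟨a, ha, b, hb, hab⟩ := h.Jt
    refine ⟨‖a - b‖, norm_pos_iff.2 (sub_ne_zero.2 hab), fun k => ?_⟩
    obtain ⟨N, hN⟩ := h.leo univ isOpen_univ ⟨a, mem_univ _, ha⟩
    obtain ⟨x, hx, hxa⟩ := hN (k + N) (Nat.le_add_left _ _) ha
    obtain ⟨x', hx', hxb⟩ := hN (k + N) (Nat.le_add_left _ _) hb
    refine ⟨f^[N] x, Pool.Agent.H56.UD.J_it h N hx.2, f^[N] x', Pool.Agent.H56.UD.J_it h N hx'.2, ?_⟩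
    rw [← Function.iterate_add_apply, ← Function.iterate_add_apply, hxa, hxb]
  Cf := h.Cf
  CJ := h.CJ
  CP := h.CP
  hρ := h.hρ
  nf := h.nf
  loc := h.loc
  stp := by
    intro θ ρ0 hθ hθ1 h0 h1
    obtain ⟨ε0, hε0, -, hst⟩ := Pool.Agent.H44.TY.stq h hθ hθ1 h0 h1
    refine ⟨ε0, hε0, fun K y ε g u0 z' uJ hy hε hW hP hz' hu0 hfz huJ hJ => ?_⟩
    have huJ1 : uJ ∈ ball (0 : ℂ) 1 := mem_ball_zero_iff.2 (huJ.trans_lt h1)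
    have hgJ : g uJ ∈ J := Pool.Agent.H56.UD.J_back h (hW.val uJ huJ1).1 hJ
    rcases hst K y ε g u0 z' uJ hy hε hW hz' hu0 hfz huJ hgJ with h2 | ⟨c, hc, a, v, Φ', hCv, -⟩
    · exact h2
    · exfalso
      refine hP a (mem_ball_zero_iff.2 (hCv.ca.trans_lt hθ1)) ?_
      rw [hCv.va]
      exact h.CP c hc

theorem fg_ps (h : Pool.Agent.H56.UD.PS f U J P Cr δ η ρ) (hX : Pool.Agent.H56.UD.FX f U J E δ X hh μ b0) :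
    FG f U J E δ X hh μ b0 where
  hb := hX.hb
  Xc := hX.Xc
  hd := hX.hd
  eq := hX.eq
  Ec := hX.Ec
  EJ := hX.EJ
  Ep := hX.Ep
  lb := hX.lb
  T := hX.T
  nc := fun _ _ hδ => Pool.Agent.H56.UD.nc h hX hδ

end Pool.Agent.H66.SP
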