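import Pool.Agent.H66.SP.Defs
import Pool.Agent.H56.UD.DA
import Pool.Agent.H80.AJ.Cover
import Pool.Agent.H80.AJ.Distort

/-!
# Base lemmas in the setting PG, FG (H66/SP/Defs): H56/UD/DA, `sh` of H56/UD/DB (proof of H78/UX/DB), `nc`
-/

set_option autoImplicit false

open Filter Topology Metric Set MeasureTheory

namespace Pool.Agent.H66.SP

open Pool.Agent.H56.UD

variable {f : ℂ → ℂ} {U J P Cr : Set ℂ} {δ : ℝ} {η : ℂ → ℂ → ℂ} {ρ : ℝ}

theorem dm_open (h : PG f U J P Cr δ η ρ) (k : ℕ) : IsOpen (dm f U J δ k) := by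
  induction k with
  | zero =>
    rw [dm_zero]
    exact isOpen_thickening
  | succ k ih =>
    have he : dm f U J δ (k + 1) = U ∩ f ⁻¹' (dm f U J δ k) := by
      ext z
      exact dm_succ k z
    rw [he]
    exact h.fd.continuousOn.isOpen_inter_preimage h.Uo ih

theorem dm_diff (h : PG f U J P Cr δ η ρ) (k : ℕ) : DifferentiableOn ℂ (f^[k]) (dm f U J δ k) := by
  induction k with
  | zero => simpa using differentiableOn_id
  | succ k ih =>
    rw [Function.iterate_succ]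
    exact ih.comp (h.fd.mono fun z hz => ((dm_succ k z).1 hz).1) fun z hz => ((dm_succ k z).1 hz).2

theorem J_it (h : PG f U J P Cr δ η ρ) (k : ℕ) {z : ℂ} (hz : z ∈ J) : f^[k] z ∈ J := by
  induction k with
  | zero => simpa using hz
  | succ k ih =>
    rw [Function.iterate_succ_apply']
    exact h.Jf _ ih

theorem P_it (h : PG f U J P Cr δ η ρ) (k : ℕ) {z : ℂ} (hz : z ∈ P) : f^[k] z ∈ P := by
  induction k with
  | zero => simpa using hz
  | succ k ih =>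
    rw [Function.iterate_succ_apply']
    exact h.Pf _ ih

theorem J_dm (h : PG f U J P Cr δ η ρ) (k : ℕ) : J ⊆ dm f U J δ k := by
  intro z hz
  exact ⟨fun j _ => h.JU (J_it h j hz), self_subset_thickening h.hδ J (J_it h k hz)⟩

/-- inverse branches on discs -/
theorem br_ball (h : PG f U J P Cr δ η ρ) {k : ℕ} {w z : ℂ} {r : ℝ} (hJ : ball w r ⊆ thickening δ J)
    (hP : ∀ u ∈ ball w r, u ∉ P) (hz : z ∈ dm f U J δ k) (hw : f^[k] z ∈ ball w r) :
    ∃ G : ℂ → ℂ, DifferentiableOn ℂ G (ball w r) ∧ G (f^[k] z) = z ∧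
      ∀ u ∈ ball w r, G u ∈ dm f U J δ k ∧ f^[k] (G u) = u := by
  obtain ⟨G, hG1, hG2, hG3⟩ := h.lift k (ball w r) id (f^[k] z) z (convex_ball w r) isOpen_ball differentiableOn_id
    (fun u hu => ⟨hJ hu, hP u hu⟩) hw hz rfl
  exact ⟨G, hG1, hG2, hG3⟩

/-- lifts are unique -/
theorem lift_unique (h : PG f U J P Cr δ η ρ) {k : ℕ} {S : Set ℂ} (hS : IsPreconnected S) {G G' : ℂ → ℂ}
    (hG : ContinuousOn G S) (hG' : ContinuousOn G' S) (h1 : ∀ u ∈ S, G u ∈ dm f U J δ k)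
    (h1' : ∀ u ∈ S, G' u ∈ dm f U J δ k) (he : ∀ u ∈ S, f^[k] (G u) = f^[k] (G' u))
    (hd : ∀ u ∈ S, deriv (f^[k]) (G u) ≠ 0) {q : ℂ} (hq : q ∈ S) (hqq : G q = G' q) : EqOn G G' S := by
  have : PreconnectedSpace S := isPreconnected_iff_preconnectedSpace.1 hS
  have hGc : Continuous (fun u : S => G u) := continuousOn_iff_continuous_domRestrict.1 hG
  have hGc' : Continuous (fun u : S => G' u) := continuousOn_iff_continuous_domRestrict.1 hG'
  have hcl : IsClosed {u : S | G u = G' u} := isClosed_eq hGc hGc'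
  have hop : IsOpen {u : S | G u = G' u} := by
    rw [isOpen_iff_mem_nhds]
    rintro ⟨u, hu⟩ (hue : G u = G' u)
    have hdA : DifferentiableOn ℂ (f^[k]) (dm f U J δ k) := dm_diff h k
    have hAn : AnalyticAt ℂ (f^[k]) (G u) := hdA.analyticAt ((dm_open h k).mem_nhds (h1 u hu))
    have hsd : HasStrictDerivAt (f^[k]) (deriv (f^[k]) (G u)) (G u) := hAn.hasStrictDerivAt
    have hev := (hsd.hasStrictFDerivAt_equiv (hd u hu)).eventually_left_inverse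
    have e1 : ∀ᶠ v : S in 𝓝 ⟨u, hu⟩, HasStrictFDerivAt.localInverse (f^[k]) _ (G u)
        (hsd.hasStrictFDerivAt_equiv (hd u hu)) (f^[k] (G v)) = G v :=
      (hGc.tendsto ⟨u, hu⟩).eventually hev
    have e2 : ∀ᶠ v : S in 𝓝 ⟨u, hu⟩, HasStrictFDerivAt.localInverse (f^[k]) _ (G u)
        (hsd.hasStrictFDerivAt_equiv (hd u hu)) (f^[k] (G' v)) = G' v := by
      have ht : Tendsto (fun v : S => G' v) (𝓝 ⟨u, hu⟩) (𝓝 (G u)) := by
        have h5 : Tendsto (fun v : S => G' v) (𝓝 ⟨u, hu⟩) (𝓝 (G' u)) := hGc'.tendsto ⟨u, hu⟩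
        rwa [← hue] at h5
      exact ht.eventually hev
    filter_upwards [e1, e2] with v hv1 hv2
    show G v = G' v
    rw [← hv1, ← hv2, he v v.2]
  have huniv : {u : S | G u = G' u} = Set.univ := IsClopen.eq_univ ⟨hcl, hop⟩ ⟨⟨q, hq⟩, hqq⟩
  intro u hu
  have : (⟨u, hu⟩ : S) ∈ {u : S | G u = G' u} := by
    rw [huniv]
    trivial
  exact this

/-- the derivative of the iterate along a lift -/
theorem der_lift (h : PG f U J P Cr δ η ρ) {k : ℕ} {S : Set ℂ} (hS : IsOpen S) {G H : ℂ → ℂ}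
    (hG : DifferentiableOn ℂ G S) (h1 : ∀ u ∈ S, G u ∈ dm f U J δ k ∧ f^[k] (G u) = H u) {u : ℂ} (hu : u ∈ S) :
    deriv (f^[k]) (G u) * deriv G u = deriv H u := by
  have hGu : DifferentiableAt ℂ G u := hG.differentiableAt (hS.mem_nhds hu)
  have hfu : DifferentiableAt ℂ (f^[k]) (G u) := (dm_diff h k).differentiableAt ((dm_open h k).mem_nhds (h1 u hu).1)
  have he : H =ᶠ[𝓝 u] (f^[k]) ∘ G := by
    filter_upwards [hS.mem_nhds hu] with v hv
    exact (h1 v hv).2.symm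
  rw [he.deriv_eq, deriv_comp u hfu hGu]

/-- the cocycle of the field `X` along the iterates: `X (f^k z) = (f^k)' (z) X(z) + h_k(z)` with `h_k` holomorphic -/
theorem X_it (h : PG f U J P Cr δ η ρ) {E : Set ℂ} {X hh μ : ℂ → ℂ} {b0 : ℝ} (hX : FG f U J E δ X hh μ b0) (k : ℕ) :
    ∃ H : ℂ → ℂ, DifferentiableOn ℂ H (dm f U J δ k) ∧
      ∀ z ∈ dm f U J δ k, X (f^[k] z) = deriv (f^[k]) z * X z + H z := by
  induction k with
  | zero =>
    refine ⟨fun _ => 0, differentiableOn_const 0, fun z _ => ?_⟩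
    simp
  | succ k ih =>
    obtain ⟨H, hH1, hH2⟩ := ih
    have hsub : ∀ z ∈ dm f U J δ (k + 1), z ∈ U := fun z hz => ((dm_succ k z).1 hz).1
    have hmap : MapsTo f (dm f U J δ (k + 1)) (dm f U J δ k) := fun z hz => ((dm_succ k z).1 hz).2
    have hfd : DifferentiableOn ℂ f (dm f U J δ (k + 1)) := h.fd.mono hsub
    have hdd : DifferentiableOn ℂ (deriv (f^[k])) (dm f U J δ k) := (dm_diff h k).deriv (dm_open h k)
    refine ⟨fun z => deriv (f^[k]) (f z) * hh z + H (f z), ?_, fun z hz => ?_⟩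
    · exact ((hdd.comp hfd hmap).mul (hX.hd.mono hsub)).add (hH1.comp hfd hmap)
    · have hzU := hsub z hz
      have hfz := hmap hz
      have e1 := hH2 (f z) hfz
      have e2 := hX.eq z hzU
      have e3 : deriv (f^[k + 1]) z = deriv (f^[k]) (f z) * deriv f z := by
        rw [Function.iterate_succ]
        exact deriv_comp z ((dm_diff h k).differentiableAt ((dm_open h k).mem_nhds hfz))
          (h.fd.differentiableAt (h.Uo.mem_nhds hzU))
      rw [Function.iterate_succ_apply, e1, e2, e3]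
      ring

/-- the iterates do not map discs of a fixed size, centred at `J`, to small discs -/
theorem not_small (h : PG f U J P Cr δ η ρ) {r : ℝ} (hr : 0 < r) :
    ∃ δ2 : ℝ, 0 < δ2 ∧ ∀ a ∈ J, ∀ (k : ℕ) (y : ℂ), ∃ s ∈ ball a r ∩ {s | ∀ j < k, f^[j] s ∈ U}, f^[k] s ∉ ball y δ2 := by
  obtain ⟨a1, ha1, b1, hb1, hab⟩ := h.Jt
  have hD : 0 < dist a1 b1 := dist_pos.2 hab
  have key : ∀ a ∈ J, ∃ (ε : ℝ), 0 < ε ∧ ∀ b ∈ ball a (r / 2), ∀ (k : ℕ) (y : ℂ),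
      ∃ s ∈ ball b r ∩ {s | ∀ j < k, f^[j] s ∈ U}, f^[k] s ∉ ball y ε := by
    intro a ha
    obtain ⟨N, hN⟩ := h.leo (ball a (r / 2)) isOpen_ball ⟨a, mem_ball_self (by linarith), ha⟩
    obtain ⟨s, hs, hs0⟩ := hN N le_rfl ha1
    obtain ⟨t, ht, ht0⟩ := hN N le_rfl hb1
    have hne : ∀ j ∈ Finset.range (N + 1), 0 < dist (f^[j] s) (f^[j] t) := by
      intro j hj
      rw [Finset.mem_range] at hj
      rw [dist_pos]
      intro he
      have h2 : f^[N] s = f^[N] t := by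
        rw [show N = (N - j) + j by omega, Function.iterate_add_apply, Function.iterate_add_apply, he]
      rw [hs0, ht0] at h2
      exact hab h2
    obtain ⟨j0, hj0, hmin⟩ := Finset.exists_min_image (Finset.range (N + 1)) (fun j => dist (f^[j] s) (f^[j] t))
      ⟨0, Finset.mem_range.2 (by omega)⟩
    have hm := hne j0 hj0
    refine ⟨min (dist (f^[j0] s) (f^[j0] t) / 2) (dist a1 b1 / 2), lt_min (by linarith) (by linarith), fun b hb k y => ?_⟩
    have hsub : ball a (r / 2) ⊆ ball b r := by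
      intro w hw
      rw [mem_ball] at hb hw ⊢
      have := dist_triangle_right w b a
      linarith
    by_contra hcon
    push Not at hcon
    rcases le_total N k with hk | hk
    · obtain ⟨s', hs', hs0'⟩ := hN k hk ha1
      obtain ⟨t', ht', ht0'⟩ := hN k hk hb1
      have e1 := hcon s' ⟨hsub hs'.1, hs'.2.1⟩
      have e2 := hcon t' ⟨hsub ht'.1, ht'.2.1⟩
      rw [hs0', mem_ball] at e1
      rw [ht0', mem_ball] at e2
      have e3 := dist_triangle_right a1 b1 y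
      have e5 : min (dist (f^[j0] s) (f^[j0] t) / 2) (dist a1 b1 / 2) ≤ dist a1 b1 / 2 := min_le_right _ _
      linarith
    · have e1 := hcon s ⟨hsub hs.1, fun j hj => hs.2.1 j (by omega)⟩
      have e2 := hcon t ⟨hsub ht.1, fun j hj => ht.2.1 j (by omega)⟩
      rw [mem_ball] at e1 e2
      have e3 := dist_triangle_right (f^[k] s) (f^[k] t) y
      have e4 := hmin k (Finset.mem_range.2 (by omega))
      have e5 : min (dist (f^[j0] s) (f^[j0] t) / 2) (dist a1 b1 / 2) ≤ dist (f^[j0] s) (f^[j0] t) / 2 := min_le_left _ _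
      linarith
  choose! ε hε hk using key
  obtain ⟨t, ht, hc⟩ := h.Jc.elim_nhds_subcover (fun y => ball y (r / 2)) fun y _ => ball_mem_nhds y (by linarith)
  have hmin : ∃ ε0 : ℝ, 0 < ε0 ∧ ∀ a ∈ t, ε0 ≤ ε a := by
    obtain ⟨a0, ha0, hle⟩ := Finset.exists_min_image t ε (by
      obtain ⟨x, hx, -⟩ := mem_iUnion₂.1 (hc ha1)
      exact ⟨x, hx⟩)
    exact ⟨ε a0, hε a0 (ht a0 ha0), hle⟩
  obtain ⟨ε0, hε0, hle⟩ := hmin
  refine ⟨ε0, hε0, fun b hb k y => ?_⟩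
  obtain ⟨a, ha, hba⟩ := mem_iUnion₂.1 (hc hb)
  obtain ⟨s, hs, hs2⟩ := hk a (ht a ha) b hba k y
  exact ⟨s, hs, fun h5 => hs2 (ball_subset_ball (hle a ha) h5)⟩

/-- small pull backs -/
theorem sh (h : PG f U J P Cr δ η ρ) {ρ0 ε : ℝ} (h0 : 0 < ρ0) (h1 : ρ0 < 1) (hε : 0 < ε) :
    ∃ δ2 : ℝ, 0 < δ2 ∧ ∀ (k : ℕ) (φ : ℂ → ℂ) (y : ℂ), y ∈ J → DifferentiableOn ℂ φ (ball 0 1) → InjOn φ (ball 0 1) →
      (∀ v ∈ ball (0 : ℂ) 1, φ v ∈ dm f U J δ k ∧ f^[k] (φ v) ∈ ball y δ2) → (∃ v ∈ closedBall (0 : ℂ) ρ0, φ v ∈ J) →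
      ∀ v ∈ closedBall (0 : ℂ) ρ0, ∀ v' ∈ closedBall (0 : ℂ) ρ0, ‖φ v - φ v'‖ < ε := by
  obtain ⟨r, hr, hu⟩ := Pool.Agent.H78.UX.uni_ball h0 h1 hε
  obtain ⟨δ2, hδ2, hn⟩ := not_small h hr
  refine ⟨δ2, hδ2, fun k φ y _ hd hi hv ⟨v0, hv0, hv0J⟩ v hv1 v' hv2 => ?_⟩
  by_contra hcon
  push Not at hcon
  have h2 := hu φ hd hi v0 hv0 ⟨v, hv1, v', hv2, hcon⟩
  obtain ⟨s, hs, hs2⟩ := hn (φ v0) hv0J k y
  obtain ⟨w, hw, rfl⟩ := h2 hs.1
  exact hs2 (hv w hw).2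

/-- no cones -/
theorem nc (_h : PG f U J P Cr δ η ρ) {E : Set ℂ} {X hh μ : ℂ → ℂ} {b0 : ℝ} (hX : FG f U J E δ X hh μ b0) {δ' M : ℝ}
    (hδ : 0 < δ') :
    ∃ ε : ℝ, 0 < ε ∧ ∀ z ∈ E, ∀ (k : ℕ) (y : ℂ) (σ : ℝ) (G : ℂ → ℂ), y ∈ J → ball y δ' ⊆ thickening δ J → 0 < σ →
      DifferentiableOn ℂ G (ball y δ') →
      (∀ u ∈ ball y δ', G u ∈ dm f U J δ k ∧ f^[k] (G u) = u ∧ ‖G u - z‖ ≤ M * σ) → σ ≤ M * ‖deriv G y‖ → ε ≤ σ :=
  hX.nc δ' M hδ

end Pool.Agent.H66.SP
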