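import Pool.Agent.H66.SP.Bas
import Pool.Agent.H64.XG.Nvg
import Pool.Agent.H64.XL.Defs
import Pool.Agent.H66.DIM.If
import Pool.Agent.H66.SP.UD_DD

/-!
# XG_Nvg: port of H64.XG.Nvg to the setting PG, FG (H66/SP/Defs)
-/

set_option autoImplicit false

open Filter Topology Metric Set MeasureTheory

namespace Pool.Agent.H66.SP

open Pool.Agent.H64.XG

open Pool.Agent.H56.UD Pool.Agent.H64.XL
open Pool.Agent.H66.DIM (Mn Tz Rg Clu)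

/-- (NV*): the end statement of chapter LW* -/
def NVP : Prop := ∀ {f : ℂ → ℂ} {U J P Cr M : Set ℂ} {δ : ℝ} {η : ℂ → ℂ → ℂ} {r₀ : ℝ}, PG f U J P Cr δ η r₀ → Mn f P M →
  (M ∩ Cr).Nonempty → IsTotallyDisconnected P → Cr ⊆ P → (∀ x ∈ P, x ∉ M → f x ∉ M) →
  (∀ c ∈ Cr, ∀ ε : ℝ, 0 < ε → ∃ n : ℕ, 1 ≤ n ∧ ‖f^[n] c - c‖ < ε) → Rg M → Clu M →
  ∃ c ∈ Cr, c ∈ M ∧ ∃ θ θ₁ C : ℝ, 0 < θ ∧ θ < θ₁ ∧ θ₁ < 1 ∧ 1 ≤ C ∧
    ∀ z ∈ J, Tz f Cr M z → ∀ κ : ℝ, 0 < κ → Nk f U J P c δ η r₀ θ θ₁ C z κ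

theorem nvs_of {f : ℂ → ℂ} {U J P Cr : Set ℂ} {c : ℂ} {δ : ℝ} {η : ℂ → ℂ → ℂ} {r₀ : ℝ} (h : PG f U J P Cr δ η r₀)
    (hc : c ∈ Cr) {θ θ₁ C : ℝ} (h0 : 0 < θ) (h1 : θ < θ₁) (h2 : θ₁ < 1) (hC : 1 ≤ C) {z : ℂ}
    (hn : ∀ κ : ℝ, 0 < κ → Nk f U J P c δ η r₀ θ θ₁ C z κ) :
    ∃ (ε : ℕ → ℝ) (m : ℕ → ℕ) (y : ℕ → ℂ) (χ g : ℕ → ℂ → ℂ), Nvs f U J P δ c z θ θ₁ (C ^ 2) ε m y χ g ∧
      ∀ n, ‖y n‖ = θ₁ := by
  have hC0 : 0 < C := one_pos.trans_le hC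
  have hcJ : c ∈ J := h.CJ hc
  obtain ⟨ρ, hρ, hρU⟩ := Metric.isOpen_iff.1 h.Uo c (h.JU hcJ)
  have hκ : ∀ n : ℕ, 0 < min (1 / ((n : ℝ) + 1)) (min ρ δ / C) := fun n =>
    lt_min (by positivity) (div_pos (lt_min hρ h.hδ) hC0)
  choose φ ψ s hs hsκ hψ hφ m y g hy hm hP hgd hgv hgz hgt using fun n : ℕ => hn _ (hκ n)
  have hs1 : ∀ n : ℕ, s n < 1 / ((n : ℝ) + 1) := fun n => (hsκ n).trans_le (min_le_left _ _)
  have hs2 : ∀ n : ℕ, C * s n ≤ ρ ∧ C * s n ≤ δ := by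
    intro n
    have k1 : s n < min ρ δ / C := (hsκ n).trans_le (min_le_right _ _)
    rw [lt_div_iff₀ hC0, mul_comm] at k1
    exact ⟨k1.le.trans (min_le_left _ _), k1.le.trans (min_le_right _ _)⟩
  have hin : ∀ n, ∀ v ∈ ball (0 : ℂ) 1, φ n v ∈ ball c (C * s n) := fun n v hv => ((hφ n).2.2.2.1 v hv).2.2.1
  have hdle : ∀ n, ‖deriv (φ n) 0‖ ≤ C * s n := by
    intro n
    have k1 : MapsTo (φ n) (ball 0 1) (ball (φ n 0) (C * s n)) := by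
      rw [(hφ n).2.2.1]
      exact hin n
    have k2 := Complex.norm_deriv_le_div_of_mapsTo_ball (hφ n).1 (k1.mono_right ball_subset_closedBall) one_pos
    rwa [div_one] at k2
  have hdge : ∀ n, s n ≤ C * ‖deriv (φ n) 0‖ := fun n => (hφ n).2.2.2.2
  have hrad : ∀ n, ‖deriv (φ n) 0‖ / C ^ 2 ≤ s n / C := by
    intro n
    rw [div_le_div_iff₀ (by positivity) hC0]
    nlinarith [hdle n, hs n]
  have htend : Tendsto (fun n : ℕ => C * s n) atTop (𝓝 0) := by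
    have k1 : Tendsto (fun n : ℕ => C * (1 / ((n : ℝ) + 1))) atTop (𝓝 0) := by
      simpa using (tendsto_one_div_add_atTop_nhds_zero_nat (𝕜 := ℝ)).const_mul C
    exact squeeze_zero (fun n => (mul_pos hC0 (hs n)).le) (fun n => mul_le_mul_of_nonneg_left (hs1 n).le hC0.le) k1
  refine ⟨fun n => C * s n, m, y, φ, g, ⟨h0, h1, h2, by nlinarith, htend, fun n => ?_, fun n => ?_, fun n => ?_,
    fun n w hw => ?_, fun n => ?_, ?_⟩, hy⟩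
  · refine ⟨(hφ n).1, (hφ n).2.1, (hφ n).2.2.1, fun v hv => ?_, hin n, fun v hv => ?_, fun v hv hv1 hvP => ?_, fun v hv => ?_⟩
    · have k1 := mem_ball_iff_norm.1 (hin n v hv)
      refine ⟨mem_thickening_iff.2 ⟨c, hcJ, ?_⟩, hρU ?_⟩
      · rw [dist_eq_norm]
        exact k1.trans_le (hs2 n).2
      · exact mem_ball_iff_norm.2 (k1.trans_le (hs2 n).1)
    · have hv' : -v ∈ ball (0 : ℂ) 1 := by
        rw [mem_ball_zero_iff, norm_neg]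
        exact mem_ball_zero_iff.1 hv
      rw [((hφ n).2.2.2.1 v hv).2.1, ((hφ n).2.2.2.1 (-v) hv').2.1, neg_sq]
    · exact absurd (((hφ n).2.2.2.1 v (mem_ball_zero_iff.2 hv1)).2.2.2 hvP) (not_le.2 hv)
    · have k1 := (mem_ball_iff_norm.1 (hin n v hv)).le
      have k2 : C * s n ≤ C ^ 2 * ‖deriv (φ n) 0‖ := by
        rw [sq, mul_assoc]
        exact mul_le_mul_of_nonneg_left (hdge n) hC0.le
      exact k1.trans k2
  · rw [hy n]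
    exact ⟨h1, le_rfl⟩
  · exact (hgd n).mono (ball_subset_ball (hrad n))
  · exact hgv n w (ball_subset_ball (hrad n) hw)
  · refine (hgz n).trans ?_
    have k2 : C * s n ≤ C ^ 2 * ‖deriv (φ n) 0‖ := by
      rw [sq, mul_assoc]
      exact mul_le_mul_of_nonneg_left (hdge n) hC0.le
    calc C * (s n * ‖deriv (g n) (φ n (y n))‖) = C * s n * ‖deriv (g n) (φ n (y n))‖ := by ring
      _ ≤ C ^ 2 * ‖deriv (φ n) 0‖ * ‖deriv (g n) (φ n (y n))‖ := mul_le_mul_of_nonneg_right k2 (norm_nonneg _)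
  · have k1 : Tendsto (fun n : ℕ => C * (1 / ((n : ℝ) + 1))) atTop (𝓝 0) := by
      simpa using (tendsto_one_div_add_atTop_nhds_zero_nat (𝕜 := ℝ)).const_mul C
    refine squeeze_zero (fun n => by positivity) (fun n => ?_) k1
    calc ‖deriv (φ n) 0‖ * ‖deriv (g n) (φ n (y n))‖ ≤ C * s n * ‖deriv (g n) (φ n (y n))‖ :=
          mul_le_mul_of_nonneg_right (hdle n) (norm_nonneg _)
      _ = C * (s n * ‖deriv (g n) (φ n (y n))‖) := by ring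
      _ ≤ C * (1 / ((n : ℝ) + 1)) := mul_le_mul_of_nonneg_left ((hgt n).le.trans (min_le_left _ _)) hC0.le

end Pool.Agent.H66.SP
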