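import Pool.Agent.H66.SP.Bas
import Pool.Agent.H56.WP.Cr
import Pool.Agent.H56.WP.Gl
import Pool.Agent.H66.SP.WP_Gl

/-!
# WP_Cr: port of H56.WP.Cr to the setting PG, FG (H66/SP/Defs)
-/

set_option autoImplicit false

open Filter Topology Metric Set MeasureTheory

namespace Pool.Agent.H66.SP

open Pool.Agent.H56.WP

open Pool.Agent.H56.UD Pool.Agent.H55.PB

variable {f : ℂ → ℂ} {U J P Cr : Set ℂ} {δ : ℝ} {η : ℂ → ℂ → ℂ} {ρ : ℝ}

theorem crit (h : PG f U J P Cr δ η ρ) {K : ℕ} {y : ℂ} {ε θ ρ' ρ0 : ℝ} (hy : y ∈ J) (hε : ε ≤ δ) (hθ : 0 < θ)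
    (hθ1 : θ < 1) {Φ : ℂ → ℂ} (hW : Wd f U J P δ K θ y ε Φ) {c a : ℂ} (hc : c ∈ Cr) (ha : ‖a‖ ≤ θ) (hva : Φ a = f c)
    (h0 : ρ0 < ρ') (hρ' : dth θ < ρ') (hρ1 : ρ' < 1)
    (hsm : ∀ x ∈ ball (0 : ℂ) ρ', ‖Φ (bet a x) - f c‖ < ρ ^ 2 / 4) :
    ∃ v Φ' : ℂ → ℂ, Cv f U J P δ η ρ K θ y ε Φ ρ0 c a v Φ' := by
  have ha1 : ‖a‖ < 1 := ha.trans_lt hθ1
  have haB : a ∈ ball (0 : ℂ) 1 := mem_ball_zero_iff.2 ha1
  have hd0 := dth_pos hθ
  have hρp : 0 < ρ' := hd0.trans hρ'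
  obtain ⟨σ, hσd, hσ⟩ := ex_fac2 hW.diff hW.inj haB
  have hbm : ∀ x ∈ ball (0 : ℂ) 1, bet a x ∈ ball (0 : ℂ) 1 := fun x hx => bet_lt ha1 hx
  have hbd := bet_diff ha1
  set v : ℂ → ℂ := fun x => x * σ (bet a x) with hv
  have hvd : DifferentiableOn ℂ v (ball 0 1) := differentiableOn_id.mul (hσd.comp hbd hbm)
  have hvo : ∀ x, v (-x) = - v x := fun x => by
    simp only [hv]; rw [bet_neg]; ring
  have hvs : ∀ x ∈ ball (0 : ℂ) 1, v x ^ 2 = Φ (bet a x) - f c := by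
    intro x hx
    have h1 := sq_of_bet ha1 (mem_ball_zero_iff.1 hx) (mem_ball_zero_iff.1 (hbm x hx)) rfl
    have h2 := (hσ _ (hbm x hx)).2
    rw [← hva, h2, ← h1]
    simp only [hv]
    ring
  have hvn : ∀ x ∈ ball (0 : ℂ) 1, v x = 0 → x = 0 := by
    intro x hx h1
    simp only [hv] at h1
    rcases mul_eq_zero.1 h1 with h2 | h2
    · exact h2
    · exact absurd h2 (hσ _ (hbm x hx)).1
  obtain ⟨hηd, hηi, hη0, hηv⟩ := h.nf c hc
  have hsub : ball (0 : ℂ) ρ' ⊆ ball 0 1 := ball_subset_ball hρ1.le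
  have hvb : ∀ x ∈ ball (0 : ℂ) ρ', v x ∈ ball (0 : ℂ) ρ := by
    intro x hx
    have h1 := hsm x hx
    rw [← hvs x (hsub hx), norm_pow] at h1
    rw [mem_ball_zero_iff]
    have := norm_nonneg (v x)
    have := h.hρ
    nlinarith
  obtain ⟨Φ', hΦd, hΦv, hΦg⟩ := glue h (K := K) (y := y) (ε := ε) (θ' := dth θ) (ρ' := ρ') hy hε hd0 hρ' hρ1
    (Ψ := fun x => Φ (bet a x)) (g0 := fun x => η c (v x)) (hW.diff.comp hbd hbm)
    (fun x hx => hW.val _ (hbm x hx))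
    (fun x h1 h2 => hW.col _ (bet_col hθ hθ1 ha h2 h1) (mem_ball_zero_iff.1 (hbm x (mem_ball_zero_iff.2 h2))))
    (hηd.comp (hvd.mono hsub) hvb)
    (fun x hx => by
      have h1 := hηv (v x) (hvb x hx)
      refine ⟨h1.1, ?_⟩
      show f (η c (v x)) = Φ (bet a x)
      rw [h1.2, hvs x (hsub hx)]
      ring)
  have hdm : ∀ x ∈ ball (0 : ℂ) 1, Φ' x ∈ dm f U J δ (K + 1) ∧ f^[K + 1] (Φ' x) = f^[K] (Φ (bet a x)) := by
    intro x hx
    have h1 := hΦv x hx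
    refine ⟨(dm_succ K _).2 ⟨h1.1, ?_⟩, ?_⟩
    · rw [h1.2]; exact (hW.val _ (hbm x hx)).1
    · rw [Function.iterate_succ_apply, h1.2]
  have hcol : ∀ x : ℂ, dth θ < ‖x‖ → ‖x‖ < 1 → f^[K + 1] (Φ' x) ∉ P := by
    intro x h1 h2
    rw [(hdm x (mem_ball_zero_iff.2 h2)).2]
    exact hW.col _ (bet_col hθ hθ1 ha h2 h1) (mem_ball_zero_iff.1 (hbm x (mem_ball_zero_iff.2 h2)))
  -- no coincidence near the inner part
  have hin : ∀ x ∈ ball (0 : ℂ) ρ', Φ' x = Φ' (-x) → x = 0 := by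
    intro x hx he
    have hx' : -x ∈ ball (0 : ℂ) ρ' := by rw [mem_ball_zero_iff, norm_neg]; exact mem_ball_zero_iff.1 hx
    rw [hΦg x hx, hΦg _ hx'] at he
    have h1 := hηi (hvb x hx) (hvb _ hx') he
    rw [hvo] at h1
    have h2 : v x = 0 := by
      have : (2 : ℂ) * v x = 0 := by linear_combination h1
      rcases mul_eq_zero.1 this with h3 | h3
      · norm_num at h3
      · exact h3
    exact hvn x (hsub hx) h2
  have hout : ∀ x ∈ {x : ℂ | dth θ < ‖x‖ ∧ ‖x‖ < 1}, Φ' x ≠ Φ' (-x) := by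
    intro x hx he
    have hA : IsPreconnected {x : ℂ | dth θ < ‖x‖ ∧ ‖x‖ < 1} := annulus_conn hd0
    have hAs : {x : ℂ | dth θ < ‖x‖ ∧ ‖x‖ < 1} ⊆ ball (0 : ℂ) 1 := fun w hw => mem_ball_zero_iff.2 hw.2
    have hAn : ∀ w ∈ {x : ℂ | dth θ < ‖x‖ ∧ ‖x‖ < 1}, -w ∈ {x : ℂ | dth θ < ‖x‖ ∧ ‖x‖ < 1} := by
      intro w hw
      simpa using hw
    have h1 : EqOn Φ' (fun w => Φ' (-w)) {x : ℂ | dth θ < ‖x‖ ∧ ‖x‖ < 1} :=
      lift_unique h (k := K + 1) hA (hΦd.continuousOn.mono hAs)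
        ((hΦd.continuousOn.mono hAs).comp continuous_neg.continuousOn hAn)
        (fun w hw => (hdm w (hAs hw)).1) (fun w hw => (hdm _ (hAs (hAn w hw))).1)
        (fun w hw => by
          rw [(hdm w (hAs hw)).2, (hdm _ (hAs (hAn w hw))).2, bet_neg])
        (fun w hw => der_off h (hdm w (hAs hw)).1 (hcol w hw.1 hw.2)) hx he
    set t : ℂ := (((dth θ + ρ') / 2 : ℝ) : ℂ) with ht
    have htn : ‖t‖ = (dth θ + ρ') / 2 := by
      rw [ht, Complex.norm_real, Real.norm_of_nonneg (by linarith)]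
    have h2 := h1 (show t ∈ {x : ℂ | dth θ < ‖x‖ ∧ ‖x‖ < 1} by
      constructor <;> rw [htn] <;> linarith)
    have h3 := hin t (by rw [mem_ball_zero_iff, htn]; linarith) h2
    have h4 : ‖t‖ = 0 := by rw [h3, norm_zero]
    rw [htn] at h4
    linarith
  have hinj : InjOn Φ' (ball 0 1) := by
    intro x hx x' hx' he
    have h1 : Φ (bet a x) = Φ (bet a x') := by
      rw [← (hΦv x hx).2, ← (hΦv x' hx').2, he]
    have h2 := hW.inj (hbm x hx) (hbm x' hx') h1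
    rcases bet_eq ha1 (mem_ball_zero_iff.1 hx) (mem_ball_zero_iff.1 hx') h2 with h3 | h3
    · exact h3.symm
    · rw [h3] at he
      by_cases h4 : ‖x‖ < ρ'
      · have h5 := hin x (mem_ball_zero_iff.2 h4) he
        rw [h3, h5, neg_zero]
      · push Not at h4
        exact absurd he (hout x ⟨hρ'.trans_le h4, mem_ball_zero_iff.1 hx⟩)
  refine ⟨v, Φ', ha, hva, ⟨hΦd, hinj, fun x hx => ⟨(hdm x hx).1, ?_⟩, hcol⟩, hΦv, ?_, hvd, hvo, hvs, ?_⟩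
  · rw [(hdm x hx).2]; exact (hW.val _ (hbm x hx)).2
  · rw [hΦg 0 (mem_ball_self hρp)]
    show η c (v 0) = c
    have : v 0 = 0 := by simp [hv]
    rw [this, hη0]
  · intro x hx
    have h1 : x ∈ ball (0 : ℂ) ρ' := mem_ball_zero_iff.2 (hx.trans_lt h0)
    exact ⟨hvb x h1, hΦg x h1⟩

end Pool.Agent.H66.SP
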