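import Pool.Agent.H66.SP.Bas
import Pool.Agent.H64.XG.Defs
import Pool.Agent.H66.SP.LA_Sm

/-!
# ROB => DIM, all Julia sets: LEMMA A as a property of `z` (for small pull backs)
-/

set_option autoImplicit false

open Filter Topology Metric Set MeasureTheory

namespace Pool.Agent.H66.SP

open Pool.Agent.H56.UD (dm)

/-- LEMMA A for all critical points in `M`: no small window with a critical point of `M` in its core has a small univalent pull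
back with `z` at bounded distance -/
def LAs (f : ℂ → ℂ) (U J P M Cr : Set ℂ) (δ : ℝ) (z : ℂ) : Prop :=
  ∀ θ C : ℝ, 0 < θ → θ < 1 → ∀ b ∈ Cr, b ∈ M → ∃ ε0 : ℝ, 0 < ε0 ∧ ∀ (K m : ℕ) (y a : ℂ) (ε : ℝ) (Φ g : ℂ → ℂ), y ∈ J → ε ≤ ε0 →
    Pool.Agent.H56.WP.Wd f U J P δ K θ y ε Φ → ‖a‖ ≤ θ → Φ a = b → DifferentiableOn ℂ g (ball 0 1) →
    (∀ v ∈ ball (0 : ℂ) 1, g v ∈ dm f U J δ (m + K) ∧ f^[m] (g v) = Φ v) → ‖deriv g 0‖ ≤ ε0 → ¬ ‖g 0 - z‖ ≤ C * ‖deriv g 0‖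

end Pool.Agent.H66.SP
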