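import Pool.Agent.H66.SP.Bas
import Pool.Agent.H18.LA.Cmb
import Pool.Agent.H66.SP.LA_Cmp
import Pool.Agent.H66.SP.LA_Sm
import Pool.Agent.H66.SP.LA_Gc

/-!
# LA_Cmb: port of H18.LA.Cmb to the setting PG, FG (H66/SP/Defs)
-/

set_option autoImplicit false

open Filter Topology Metric Set MeasureTheory

namespace Pool.Agent.H66.SP

open Pool.Agent.H18.LA

open Pool.Agent.H56.UD

variable {f : ℂ → ℂ} {U J P Cr E : Set ℂ} {δ b0 : ℝ} {η : ℂ → ℂ → ℂ} {ρ : ℝ} {X hh μ : ℂ → ℂ}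

/-- the conclusion of `dis` -/
private def DC (ρ0 C : ℝ) : Prop := ∀ g : ℂ → ℂ, DifferentiableOn ℂ g (ball 0 1) →
    InjOn g (ball 0 1) → ∀ w ∈ closedBall (0 : ℂ) ρ0, ∀ w' ∈ closedBall (0 : ℂ) ρ0,
      0 < ‖deriv g w‖ ∧ ‖deriv g w‖ ≤ C * ‖deriv g w'‖ ∧ ‖g w - g w'‖ ≤ C * ‖deriv g 0‖ * ‖w - w'‖ ∧
      ‖deriv g 0‖ * ‖w - w'‖ ≤ C * ‖g w - g w'‖

private theorem frG {r s C1 : ℝ} (hr : 0 < r) (hs : 0 < s) (hsr : s < r) (hC1 : 1 ≤ C1) (h : DC (s / r) C1) {G : ℂ → ℂ}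
    (dG : DifferentiableOn ℂ G (ball 0 r)) (iG : InjOn G (ball 0 r)) :
    0 < ‖deriv G 0‖ ∧ ∀ x ∈ ball (0 : ℂ) s, ‖G x - G 0‖ ≤ C1 * s * ‖deriv G 0‖ := by
  have hrc : (r : ℂ) ≠ 0 := by exact_mod_cast hr.ne'
  have hm : ∀ x ∈ ball (0 : ℂ) 1, (r : ℂ) * x ∈ ball (0 : ℂ) r := by
    intro x hx
    rw [mem_ball_zero_iff] at hx ⊢
    rw [norm_mul, Complex.norm_real, Real.norm_of_nonneg hr.le]
    nlinarith
  have hd : DifferentiableOn ℂ (fun x : ℂ => G ((r : ℂ) * x)) (ball 0 1) :=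
    dG.comp (differentiableOn_id.const_mul _) hm
  have hi : InjOn (fun x : ℂ => G ((r : ℂ) * x)) (ball 0 1) := by
    intro x hx y hy he
    exact mul_left_cancel₀ hrc (iG (hm x hx) (hm y hy) he)
  have h0 : (0 : ℂ) ∈ closedBall (0 : ℂ) (s / r) := mem_closedBall_self (by positivity)
  have hder : deriv (fun x : ℂ => G ((r : ℂ) * x)) 0 = (r : ℂ) * deriv G 0 := by
    have hG0 : HasDerivAt G (deriv G 0) ((r : ℂ) * 0) := by
      rw [mul_zero]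
      exact (dG.differentiableAt (ball_mem_nhds 0 hr)).hasDerivAt
    have h1 : HasDerivAt (fun x : ℂ => (r : ℂ) * x) (r : ℂ) 0 := by
      simpa using (hasDerivAt_id (0 : ℂ)).const_mul (r : ℂ)
    have h2 := hG0.comp (0 : ℂ) h1
    have h3 : deriv (fun x : ℂ => G ((r : ℂ) * x)) 0 = deriv G 0 * (r : ℂ) := h2.deriv
    rw [h3, mul_comm]
  have hn : ‖deriv (fun x : ℂ => G ((r : ℂ) * x)) 0‖ = r * ‖deriv G 0‖ := by
    rw [hder, norm_mul, Complex.norm_real, Real.norm_of_nonneg hr.le]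
  refine ⟨?_, ?_⟩
  · have := (h _ hd hi 0 h0 0 h0).1
    rw [hn] at this
    exact pos_of_mul_pos_right (by simpa using this) hr.le
  · intro x hx
    have hx1 : x / (r : ℂ) ∈ closedBall (0 : ℂ) (s / r) := by
      rw [mem_closedBall_zero_iff, norm_div, Complex.norm_real, Real.norm_of_nonneg hr.le]
      exact div_le_div_of_nonneg_right (mem_ball_zero_iff.1 hx).le hr.le
    have h1 := (h _ hd hi _ hx1 0 h0).2.2.1
    simp only [mul_zero, sub_zero] at h1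
    rw [mul_div_cancel₀ _ hrc] at h1
    rw [hn, norm_div, Complex.norm_real, Real.norm_of_nonneg hr.le] at h1
    have h2 : C1 * (r * ‖deriv G 0‖) * (‖x‖ / r) = C1 * ‖x‖ * ‖deriv G 0‖ := by
      field_simp
    rw [h2] at h1
    refine h1.trans ?_
    refine mul_le_mul_of_nonneg_right (mul_le_mul_of_nonneg_left (mem_ball_zero_iff.1 hx).le (by linarith)) (norm_nonneg _)

theorem cmpB (h : PG f U J P Cr δ η ρ) (hX : FG f U J E δ X hh μ b0) {r r' ρ1 κ C : ℝ} (hr : 0 < r) (hr0 : 0 ≤ r')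
    (hr' : r' < r) (h0 : 0 < ρ1) (h1 : ρ1 < 1) (hκ : 0 < κ) :
    ∃ ε : ℝ, 0 < ε ∧ ∀ z ∈ E, ∀ (k k' : ℕ) (B G H : ℂ → ℂ), ¬ Cb f U J δ z k k' r r' ρ1 κ C ε B G H := by
  by_contra hcon
  push Not at hcon
  obtain ⟨s, hs1, hs2⟩ := exists_between hr'
  have hs0 : 0 < s := hr0.trans_lt hs1
  obtain ⟨C1, hC1, hD1⟩ := dis (ρ0 := s / r) (by positivity) (by rw [div_lt_one hr]; exact hs2)
  obtain ⟨C2, hC2, hD2⟩ := dis h0 h1
  have hex : ∀ n : ℕ, ∃ z ∈ E, ∃ (k k' : ℕ) (B G H : ℂ → ℂ), Cb f U J δ z k k' r r' ρ1 κ C (1 / ((n : ℝ) + 1)) B G H :=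
    fun n => hcon _ (by positivity)
  choose z hz k k' B G H hq using hex
  have A1 : ∀ n, 0 < ‖deriv (G n) 0‖ ∧ ∀ x ∈ ball (0 : ℂ) s, ‖G n x - G n 0‖ ≤ C1 * s * ‖deriv (G n) 0‖ :=
    fun n => frG hr hs0 hs2 hC1 hD1 (hq n).dG (hq n).iG
  have hsr : ball (0 : ℂ) s ⊆ ball 0 r := ball_subset_ball hs2.le
  have hBm : ∀ n, ∀ x ∈ ball (0 : ℂ) s, B n x ∈ closedBall (0 : ℂ) ρ1 := fun n x hx =>
    mem_closedBall_zero_iff.2 ((hq n).bB x (hsr hx))
  have z00 : (0 : ℂ) ∈ closedBall (0 : ℂ) ρ1 := mem_closedBall_self h0.le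
  have h00 : (0 : ℂ) ∈ ball (0 : ℂ) s := mem_ball_self hs0
  have A2 : ∀ n, 0 < ‖deriv (H n) 0‖ ∧ ∀ x ∈ ball (0 : ℂ) s, ‖H n (B n x) - H n 0‖ ≤ C2 * ‖deriv (H n) 0‖ ∧
      ‖deriv (H n) 0‖ * ‖B n x - B n 0‖ ≤ C2 * ‖H n (B n x) - H n (B n 0)‖ := by
    intro n
    refine ⟨(hD2 _ (hq n).dH (hq n).iH 0 z00 0 z00).1, fun x hx => ⟨?_, ?_⟩⟩
    · have e1 := (hD2 _ (hq n).dH (hq n).iH _ (hBm n x hx) 0 z00).2.2.1
      rw [sub_zero] at e1
      refine e1.trans ?_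
      have e3 : ‖B n x‖ ≤ 1 := (mem_closedBall_zero_iff.1 (hBm n x hx)).trans h1.le
      have e4 : 0 ≤ C2 * ‖deriv (H n) 0‖ := by positivity
      nlinarith
    · exact (hD2 _ (hq n).dH (hq n).iH _ (hBm n x hx) _ (hBm n 0 h00)).2.2.2
  have hC0 : 0 ≤ C := by
    have e1 := (hq 0).zG
    have e2 := (A1 0).1
    have e3 := norm_nonneg (G 0 0 - z 0)
    by_contra hn
    push Not at hn
    nlinarith
  set 𝒰 : Ultrafilter ℕ := hyperfilter ℕ with h𝒰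
  have hU : (𝒰 : Filter ℕ) ≤ atTop := Nat.hyperfilter_le_atTop
  have hlim : Tendsto (fun n : ℕ => 1 / ((n : ℝ) + 1)) (𝒰 : Filter ℕ) (𝓝 0) :=
    tendsto_one_div_add_atTop_nhds_zero_nat.mono_left hU
  set σ : ℕ → ℝ := fun n => ‖deriv (G n) 0‖ with hσ
  set σ' : ℕ → ℝ := fun n => ‖deriv (H n) 0‖ with hσ'
  have hσt : Tendsto σ (𝒰 : Filter ℕ) (𝓝 0) :=
    squeeze_zero (fun n => norm_nonneg _) (fun n => (hq n).sG) hlim
  have hσt' : Tendsto σ' (𝒰 : Filter ℕ) (𝓝 0) :=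
    squeeze_zero (fun n => norm_nonneg _) (fun n => (hq n).sH) hlim
  have hσp : ∀ n, 0 < σ n := fun n => (A1 n).1
  have hσp' : ∀ n, 0 < σ' n := fun n => (A2 n).1
  have hσc : ∀ n, ((σ n : ℝ) : ℂ) ≠ 0 := fun n => by exact_mod_cast (hσp n).ne'
  have hσc' : ∀ n, ((σ' n : ℝ) : ℂ) ≠ 0 := fun n => by exact_mod_cast (hσp' n).ne'
  set G1 : ℕ → ℂ → ℂ := fun n x => (G n x - z n) / (σ n : ℂ) with hG1
  set G2 : ℕ → ℂ → ℂ := fun n x => (H n (B n x) - z n) / (σ' n : ℂ) with hG2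
  set M : ℝ := C1 * s + C2 + C with hM
  have hMp : 0 < M := by rw [hM]; positivity
  have hball1 : ∀ n, ∀ x ∈ ball (0 : ℂ) s, B n x ∈ ball (0 : ℂ) 1 := fun n x hx =>
    closedBall_subset_ball h1 (hBm n x hx)
  have B1 : ∀ n, DifferentiableOn ℂ (G1 n) (ball 0 s) := fun n =>
    (((hq n).dG.mono hsr).sub_const _).div_const _
  have B2' : ∀ n, DifferentiableOn ℂ (fun x => H n (B n x)) (ball 0 s) := fun n =>
    (hq n).dH.comp ((hq n).dB.mono hsr) (hball1 n)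
  have B2 : ∀ n, DifferentiableOn ℂ (G2 n) (ball 0 s) := fun n => ((B2' n).sub_const _).div_const _
  have C1' : ∀ n, ∀ x ∈ ball (0 : ℂ) s, ‖G1 n x‖ ≤ M := by
    intro n x hx
    show ‖(G n x - z n) / (σ n : ℂ)‖ ≤ M
    rw [norm_div, Complex.norm_real, Real.norm_of_nonneg (hσp n).le, div_le_iff₀ (hσp n)]
    have e1 := (A1 n).2 x hx
    have e2 := (hq n).zG
    have e3 : ‖G n x - z n‖ ≤ ‖G n x - G n 0‖ + ‖G n 0 - z n‖ := by
      have := norm_add_le (G n x - G n 0) (G n 0 - z n)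
      rwa [sub_add_sub_cancel] at this
    have e4 : 0 ≤ C2 * σ n := mul_nonneg (by linarith) (hσp n).le
    calc ‖G n x - z n‖ ≤ C1 * s * σ n + C * σ n := e3.trans (add_le_add e1 e2)
      _ ≤ M * σ n := by rw [hM]; linarith
  have C2' : ∀ n, ∀ x ∈ ball (0 : ℂ) s, ‖G2 n x‖ ≤ M := by
    intro n x hx
    show ‖(H n (B n x) - z n) / (σ' n : ℂ)‖ ≤ M
    rw [norm_div, Complex.norm_real, Real.norm_of_nonneg (hσp' n).le, div_le_iff₀ (hσp' n)]
    have e1 := ((A2 n).2 x hx).1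
    have e2 := (hq n).zH
    have e3 : ‖H n (B n x) - z n‖ ≤ ‖H n (B n x) - H n 0‖ + ‖H n 0 - z n‖ := by
      have := norm_add_le (H n (B n x) - H n 0) (H n 0 - z n)
      rwa [sub_add_sub_cancel] at this
    have e4 : 0 ≤ C1 * s * σ' n := mul_nonneg (by positivity) (hσp' n).le
    calc ‖H n (B n x) - z n‖ ≤ C2 * σ' n + C * σ' n := e3.trans (add_le_add e1 e2)
      _ ≤ M * σ' n := by rw [hM]; linarith
  obtain ⟨g1, g1d, -, g1l⟩ := ulim 𝒰 (isOpen_ball (x := (0 : ℂ)) (ε := s)) (G := G1) (M := M)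
    (Eventually.of_forall fun n => ⟨B1 n, C1' n⟩)
  obtain ⟨g2, g2d, -, g2l⟩ := ulim 𝒰 (isOpen_ball (x := (0 : ℂ)) (ε := s)) (G := G2) (M := M)
    (Eventually.of_forall fun n => ⟨B2 n, C2' n⟩)
  have E1 : Tendsto (fun n => deriv (G1 n) 0) (𝒰 : Filter ℕ) (𝓝 (deriv g1 0)) :=
    (ulim_deriv 𝒰 isOpen_ball (Eventually.of_forall B1) g1l).tendsto_at h00
  have E2 : Tendsto (fun n => deriv (G2 n) 0) (𝒰 : Filter ℕ) (𝓝 (deriv g2 0)) :=
    (ulim_deriv 𝒰 isOpen_ball (Eventually.of_forall B2) g2l).tendsto_at h00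
  have F1 : ∀ n, ‖deriv (G1 n) 0‖ = 1 := by
    intro n
    have e1 : deriv (G1 n) 0 = deriv (G n) 0 / (σ n : ℂ) := by
      show deriv (fun x => (G n x - z n) / (σ n : ℂ)) 0 = _
      rw [deriv_div_const, deriv_sub_const]
    rw [e1, norm_div, Complex.norm_real, Real.norm_of_nonneg (hσp n).le]
    exact div_self (hσp n).ne'
  have F2 : ∀ n, deriv (G2 n) 0 = 0 := by
    intro n
    have hH : HasDerivAt (H n) (deriv (H n) (B n 0)) (B n 0) :=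
      ((hq n).dH.differentiableAt (isOpen_ball.mem_nhds (hball1 n 0 h00))).hasDerivAt
    have hB : HasDerivAt (B n) 0 0 := by
      have := ((hq n).dB.differentiableAt (isOpen_ball.mem_nhds (hsr h00))).hasDerivAt
      rwa [(hq n).zB] at this
    have e1 := hH.comp (0 : ℂ) hB
    rw [mul_zero] at e1
    have e2 : deriv (fun x => H n (B n x)) 0 = 0 := e1.deriv
    show deriv (fun x => (H n (B n x) - z n) / (σ' n : ℂ)) 0 = 0
    rw [deriv_div_const, deriv_sub_const, e2, zero_div]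
  have G1z : deriv g1 0 ≠ 0 := by
    have e1 : Tendsto (fun n => ‖deriv (G1 n) 0‖) (𝒰 : Filter ℕ) (𝓝 ‖deriv g1 0‖) := E1.norm
    have e2 : ‖deriv g1 0‖ = 1 := by
      refine tendsto_nhds_unique e1 ?_
      simp only [F1]
      exact tendsto_const_nhds
    intro e3
    rw [e3, norm_zero] at e2
    exact zero_ne_one e2
  have G2z : deriv g2 0 = 0 := by
    refine tendsto_nhds_unique E2 ?_
    simp only [F2]
    exact tendsto_const_nhds
  have hcp : ∀ n, Cp f U J δ (z n) (k n) (k' n) (σ n) (σ' n) 0 s M (G1 n) (G2 n) := by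
    intro n
    have e1 : ∀ u, z n + (σ n : ℂ) * G1 n u = G n u := by
      intro u
      show z n + (σ n : ℂ) * ((G n u - z n) / (σ n : ℂ)) = G n u
      rw [mul_div_cancel₀ _ (hσc n)]
      ring
    have e2 : ∀ u, z n + (σ' n : ℂ) * G2 n u = H n (B n u) := by
      intro u
      show z n + (σ' n : ℂ) * ((H n (B n u) - z n) / (σ' n : ℂ)) = H n (B n u)
      rw [mul_div_cancel₀ _ (hσc' n)]
      ring
    refine ⟨B1 n, B2 n, fun u hu => ⟨?_, C1' n u hu⟩, fun u hu => ⟨?_, C2' n u hu⟩, fun u hu => ?_, fun u hu => ?_⟩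
    · rw [e1]; exact (hq n).mG u (hsr hu)
    · rw [e2]; exact ((hq n).mH u (hsr hu)).1
    · rw [e1, e2]; exact (hq n).eq u (hsr hu)
    · rw [e2]; exact ((hq n).mH u (hsr hu)).2
  have key := gc h hX hz (Eventually.of_forall hσp) (Eventually.of_forall hσp') hσt hσt' hs0 hMp
    (Eventually.of_forall hcp) g1l g2l
  have key0 := gc0 hs0 g1d g2d G1z G2z key
  -- the contradiction
  choose x hx1 hx2 using fun n => (hq n).kB
  have hxs : ∀ n, x n ∈ closedBall (0 : ℂ) r' := fun n => mem_closedBall_zero_iff.2 (hx1 n)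
  have hxm : ∀ n, x n ∈ ball (0 : ℂ) s := fun n => mem_ball_zero_iff.2 ((hx1 n).trans_lt hs1)
  have hK : closedBall (0 : ℂ) r' ⊆ ball 0 s := closedBall_subset_ball hs1
  have hunif : ∀ᶠ n in (𝒰 : Filter ℕ), ∀ u ∈ closedBall (0 : ℂ) r', dist (g2 u) (G2 n u) < κ / C2 / 4 := by
    have e1 := (tendstoLocallyUniformlyOn_iff_forall_isCompact isOpen_ball).1 g2l _ hK (isCompact_closedBall _ _)
    rw [Metric.tendstoUniformlyOn_iff] at e1
    exact e1 _ (by positivity)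
  obtain ⟨n, hn⟩ := hunif.exists
  have e1 := hn _ (hxs n)
  have e2 := hn 0 (mem_closedBall_self hr0)
  have e3 := key0 _ (hxm n)
  have e4 : ‖G2 n (x n) - G2 n 0‖ < κ / C2 / 2 := by
    rw [e3] at e1
    have e5 : ‖G2 n (x n) - G2 n 0‖ ≤ dist (g2 0) (G2 n (x n)) + dist (g2 0) (G2 n 0) := by
      rw [← dist_eq_norm]
      have := dist_triangle_left (G2 n (x n)) (G2 n 0) (g2 0)
      exact this
    linarith
  have e5 : G2 n (x n) - G2 n 0 = (H n (B n (x n)) - H n (B n 0)) / (σ' n : ℂ) := by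
    show (H n (B n (x n)) - z n) / (σ' n : ℂ) - (H n (B n 0) - z n) / (σ' n : ℂ) = _
    ring
  have e6 := ((A2 n).2 _ (hxm n)).2
  rw [e5, norm_div, Complex.norm_real, Real.norm_of_nonneg (hσp' n).le, div_lt_iff₀ (hσp' n)] at e4
  have e7 : C2 * ‖H n (B n (x n)) - H n (B n 0)‖ < C2 * (κ / C2 / 2 * σ' n) :=
    mul_lt_mul_of_pos_left e4 (by linarith)
  have e8 : C2 * (κ / C2 / 2 * σ' n) = κ * σ' n / 2 := by
    field_simp
  have e9 : σ' n * κ ≤ σ' n * ‖B n (x n) - B n 0‖ := mul_le_mul_of_nonneg_left (hx2 n) (hσp' n).le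
  have e10 : 0 < κ * σ' n := mul_pos hκ (hσp' n)
  have e11 : σ' n * ‖B n (x n) - B n 0‖ ≤ C2 * ‖H n (B n (x n)) - H n (B n 0)‖ := e6
  linarith

end Pool.Agent.H66.SP
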