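import Pool.Agent.H66.SP.Bas
import Pool.Agent.H18.LA.Ncv
import Pool.Agent.H18.LA.Dis
import Pool.Agent.H56.WP.Stp
import Pool.Agent.H66.SP.WP_Stp
import Pool.Agent.H56.UD.DN
import Pool.Agent.H66.SP.UD_DD
import Pool.Agent.H66.SP.WP_Gl
import Pool.Agent.H66.SP.WP_Cr

/-!
# LA_Ncv: port of H18.LA.Ncv to the setting PG, FG (H66/SP/Defs)
-/

set_option autoImplicit false

open Filter Topology Metric Set MeasureTheory

namespace Pool.Agent.H66.SP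

open Pool.Agent.H18.LA

open Pool.Agent.H56.UD Pool.Agent.H55.PB Pool.Agent.H56.WP

variable {f : ℂ → ℂ} {U J P Cr E : Set ℂ} {δ b0 : ℝ} {η : ℂ → ℂ → ℂ} {ρ : ℝ} {X hh μ : ℂ → ℂ}

theorem full (h : PG f U J P Cr δ η ρ) : ∃ ε0 : ℝ, 0 < ε0 ∧ ∀ (K : ℕ) (θ : ℝ) (y : ℂ) (Φ : ℂ → ℂ),
    Wd f U J P δ K θ y ε0 Φ → ¬ J ⊆ Φ '' ball 0 1 := by
  obtain ⟨D, hD, hJd⟩ := h.Jd
  refine ⟨D / 4, by linarith, ?_⟩
  intro K θ y Φ hW hJ
  obtain ⟨a, ha, b, hb, hab⟩ := hJd K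
  have h1 : ∀ w ∈ J, f^[K] w ∈ ball y (D / 4) := by
    intro w hw
    obtain ⟨v, hv, hvx⟩ := hJ hw
    rw [← hvx]
    exact (hW.val v hv).2
  have h3 := h1 a ha
  have h4 := h1 b hb
  rw [mem_ball, dist_eq_norm] at h3 h4
  have h5 : ‖f^[K] a - f^[K] b‖ ≤ ‖f^[K] a - y‖ + ‖f^[K] b - y‖ := by
    calc ‖f^[K] a - f^[K] b‖ = ‖(f^[K] a - y) - (f^[K] b - y)‖ := by congr 1; ring
      _ ≤ _ := norm_sub_le _ _
  linarith

theorem noatt (h : PG f U J P Cr δ η ρ) : ∃ ε0 : ℝ, 0 < ε0 ∧ ∀ (K N : ℕ) (θ : ℝ) (y : ℂ) (Φ : ℂ → ℂ) (V : Set ℂ),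
    Wd f U J P δ K θ y ε0 Φ → IsOpen V → (V ∩ J).Nonempty → V ⊆ Φ '' ball 0 1 → 1 ≤ N → ¬ f^[N] '' V ⊆ V := by
  obtain ⟨ε0, hε0, hf⟩ := full h
  refine ⟨ε0, hε0, ?_⟩
  intro K N θ y Φ V hW hV hVJ hVΦ hN hm
  have hm1 : MapsTo (f^[N]) V V := fun x hx => hm ⟨x, hx, rfl⟩
  obtain ⟨N0, hN0⟩ := h.leo V hV hVJ
  have hmN : ∀ n : ℕ, MapsTo (f^[N * n]) V V := by
    intro n
    rw [Function.iterate_mul]
    exact hm1.iterate n
  refine hf K θ y Φ hW fun w hw => ?_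
  obtain ⟨x, hx, rfl⟩ := hN0 _ (Nat.le_mul_of_pos_left N0 hN) hw
  exact hVΦ (hmN N0 hx.1)

/-- inverses of univalent functions on discs -/
private theorem inv_disc {φ : ℂ → ℂ} (hd : DifferentiableOn ℂ φ (ball 0 1)) (hi : InjOn φ (ball 0 1)) {a : ℂ} {r : ℝ}
    (hr : 0 < r) (hs : ball a r ⊆ ball 0 1) : ∃ (s : ℝ) (ψ : ℂ → ℂ), 0 < s ∧ DifferentiableOn ℂ ψ (ball (φ a) s) ∧
      (∀ u ∈ ball (φ a) s, ψ u ∈ ball a r ∧ φ (ψ u) = u) ∧ ψ (φ a) = a := by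
  have ha : a ∈ ball (0 : ℂ) 1 := hs (mem_ball_self hr)
  have hopen : ∀ s ⊆ ball (0 : ℂ) 1, IsOpen s → IsOpen (φ '' s) := by
    rcases (hd.analyticOnNhd isOpen_ball).is_constant_or_isOpen (convex_ball (0 : ℂ) 1).isPreconnected with ⟨w, hw⟩ | h1
    · exfalso
      have h0 : (0 : ℂ) ∈ ball (0 : ℂ) 1 := mem_ball_self one_pos
      have h2 : (1 / 2 : ℂ) ∈ ball (0 : ℂ) 1 := by
        rw [mem_ball_zero_iff]; norm_num
      have h3 := hi h0 h2 (by rw [hw 0 h0, hw _ h2])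
      norm_num at h3
    · exact h1
  obtain ⟨V, hV⟩ : ∃ V, V = ball a r := ⟨_, rfl⟩
  have hVo : IsOpen V := by rw [hV]; exact isOpen_ball
  have hVs : V ⊆ ball 0 1 := by rw [hV]; exact hs
  have haV : a ∈ V := by rw [hV]; exact mem_ball_self hr
  obtain ⟨k, hk⟩ : ∃ k, k = Function.invFunOn φ V := ⟨_, rfl⟩
  have hkmem : ∀ w ∈ φ '' V, k w ∈ V := fun w hw => by
    rw [hk]
    exact Function.invFunOn_mem hw
  have hkeq : ∀ w ∈ φ '' V, φ (k w) = w := fun w hw => by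
    rw [hk]
    exact Function.invFunOn_eq hw
  have hkg : ∀ y ∈ V, k (φ y) = y := by
    intro y hy
    have hw : φ y ∈ φ '' V := mem_image_of_mem φ hy
    exact hi (hVs (hkmem _ hw)) (hVs hy) (hkeq _ hw)
  have hkc : ContinuousOn k (φ '' V) := by
    rintro w ⟨y, hy, rfl⟩
    apply ContinuousAt.continuousWithinAt
    rw [ContinuousAt, hkg y hy]
    intro N hN
    obtain ⟨N', hN'N, hN'o, hyN'⟩ := _root_.mem_nhds_iff.1 hN
    have h1 : IsOpen (φ '' (N' ∩ V)) := hopen _ (inter_subset_right.trans hVs) (hN'o.inter hVo)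
    have h2 : φ y ∈ φ '' (N' ∩ V) := mem_image_of_mem φ ⟨hyN', hy⟩
    rw [Filter.mem_map]
    filter_upwards [h1.mem_nhds h2] with v hv
    obtain ⟨x, hx, rfl⟩ := hv
    show k (φ x) ∈ N
    rw [hkg x hx.2]
    exact hN'N hx.1
  have hVi : IsOpen (φ '' V) := hopen V hVs hVo
  have haV2 : φ a ∈ φ '' V := mem_image_of_mem φ haV
  obtain ⟨s, hs0, hs1⟩ := Metric.isOpen_iff.1 hVi _ haV2
  refine ⟨s, k, hs0, ?_, fun u hu => ⟨?_, hkeq u (hs1 hu)⟩, hkg a haV⟩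
  · intro w hw
    exact (Pool.Agent.H32.BT.diff_of_inverse (hVi.mem_nhds (hs1 hw)) hkc hVo
      (hkmem w (hs1 hw)) (hd.mono hVs) (fun v hv _ => hkeq v hv)).differentiableWithinAt
  · rw [← hV]
    exact hkmem u (hs1 hu)

/-- uniform expansion of balls centred at `J` -/
private theorem leo_u (h : PG f U J P Cr δ η ρ) {r : ℝ} (hr : 0 < r) : ∃ N : ℕ, ∀ n ≥ N, ∀ y ∈ J, J ⊆ f^[n] '' (ball y r ∩ dm f U J δ n) := by
  have h1 : ∀ y ∈ J, ∃ N : ℕ, ∀ n ≥ N, J ⊆ f^[n] '' (ball y (r / 2) ∩ dm f U J δ n) := fun y hy =>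
    h.leo _ isOpen_ball ⟨y, mem_ball_self (by linarith), hy⟩
  choose! N hN using h1
  obtain ⟨t, ht, hc⟩ := h.Jc.elim_nhds_subcover (fun y => ball y (r / 2)) fun y _ => ball_mem_nhds y (by linarith)
  refine ⟨t.sup N, fun n hn y hy w hw => ?_⟩
  obtain ⟨x, hxt, hx⟩ := mem_iUnion₂.1 (hc hy)
  obtain ⟨p, hp, hpw⟩ := hN x (ht x hxt) n ((Finset.le_sup hxt).trans hn) hw
  refine ⟨p, ⟨?_, hp.2⟩, hpw⟩
  have h2 := mem_ball.1 hp.1
  have h3 := mem_ball'.1 hx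
  rw [mem_ball]
  calc dist p y ≤ dist p x + dist x y := dist_triangle _ _ _
    _ < r := by linarith

theorem ncv (h : PG f U J P Cr δ η ρ) (hX : FG f U J E δ X hh μ b0) {θ ρ0 : ℝ} (h0 : 0 < ρ0) (h1 : ρ0 < 1) :
    ∃ ε0 : ℝ, 0 < ε0 ∧ ∀ z ∈ E, ∀ (K : ℕ) (y a c : ℂ) (ε : ℝ) (Φ : ℂ → ℂ), ε ≤ ε0 → Wd f U J P δ K θ y ε Φ → ‖a‖ ≤ ρ0 →
      Φ a = c → c ∈ J → ∃ n0 : ℕ, ∀ n ≥ n0, ¬ Vis f U J P δ K θ y ε Φ ρ0 z n := by
  obtain ⟨ε0, hε0, hfull⟩ := full h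
  obtain ⟨ρ1, hρ1⟩ : ∃ ρ1, ρ1 = (1 + ρ0) / 2 := ⟨_, rfl⟩
  have h2 : 0 < ρ1 := by rw [hρ1]; linarith
  have h3 : ρ1 < 1 := by rw [hρ1]; linarith
  have h4 : ρ0 < ρ1 := by rw [hρ1]; linarith
  obtain ⟨C, hC, hdis⟩ := dis h2 h3
  refine ⟨ε0, hε0, ?_⟩
  intro z hz K y a c ε Φ hε hW ha hac hcJ
  have hW0 : Wd f U J P δ K θ y ε0 Φ :=
    ⟨hW.diff, hW.inj, fun v hv => ⟨(hW.val v hv).1, ball_subset_ball hε (hW.val v hv).2⟩, hW.col⟩
  -- the inverse of the window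
  have hsub : ball a (ρ1 - ρ0) ⊆ closedBall (0 : ℂ) ρ1 := by
    intro w hw
    rw [mem_ball, dist_eq_norm] at hw
    rw [mem_closedBall_zero_iff]
    calc ‖w‖ = ‖(w - a) + a‖ := by rw [sub_add_cancel]
      _ ≤ ‖w - a‖ + ‖a‖ := norm_add_le _ _
      _ ≤ ρ1 := by linarith
  have hcb : closedBall (0 : ℂ) ρ1 ⊆ ball 0 1 := closedBall_subset_ball h3
  have hr : 0 < ρ1 - ρ0 := by linarith
  obtain ⟨s0, ψ, hs0, hψd, hψ, hψa⟩ := inv_disc hW.diff hW.inj hr (hsub.trans hcb)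
  rw [hac] at hψd hψ hψa
  obtain ⟨s, hs⟩ : ∃ s, s = min s0 δ := ⟨_, rfl⟩
  have hsp : 0 < s := by rw [hs]; exact lt_min hs0 h.hδ
  have hss : ball c s ⊆ ball c s0 := ball_subset_ball (by rw [hs]; exact min_le_left _ _)
  have hsδ : ball c s ⊆ thickening δ J := fun w hw => by
    rw [mem_thickening_iff]
    exact ⟨c, hcJ, (mem_ball.1 hw).trans_le (by rw [hs]; exact min_le_right _ _)⟩
  have ha1 : a ∈ closedBall (0 : ℂ) ρ1 := mem_closedBall_zero_iff.2 (ha.trans h4.le)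
  have ha0 : a ∈ ball (0 : ℂ) 1 := hcb ha1
  have h01 : (0 : ℂ) ∈ closedBall (0 : ℂ) ρ1 := mem_closedBall_self h2.le
  have hcs : c ∈ ball c s := mem_ball_self hsp
  -- the derivative of the inverse
  have hder : deriv Φ a * deriv ψ c = 1 := by
    have e1 : (fun u => Φ (ψ u)) =ᶠ[𝓝 c] fun u => u := by
      filter_upwards [isOpen_ball.mem_nhds (mem_ball_self hs0)] with u hu
      exact (hψ u hu).2
    have e2 : HasDerivAt ψ (deriv ψ c) c := (hψd.differentiableAt (isOpen_ball.mem_nhds (mem_ball_self hs0))).hasDerivAt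
    have e3 : HasDerivAt Φ (deriv Φ a) (ψ c) := by
      rw [hψa]
      exact (hW.diff.differentiableAt (isOpen_ball.mem_nhds ha0)).hasDerivAt
    have e4 := (e3.comp c e2).deriv
    rw [show (Φ ∘ ψ) = fun u => Φ (ψ u) from rfl, e1.deriv_eq, deriv_id''] at e4
    exact e4.symm
  obtain ⟨M, hM⟩ : ∃ M, M = 2 * C + C * ‖deriv Φ a‖ := ⟨_, rfl⟩
  have hM1 : 2 * C ≤ M := by
    rw [hM]
    have : 0 ≤ C * ‖deriv Φ a‖ := by positivity
    linarith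
  have hM2 : C * ‖deriv Φ a‖ ≤ M := by rw [hM]; linarith
  obtain ⟨ε1, hε1, hnc⟩ := nc h hX (M := M) hsp
  obtain ⟨N, hN⟩ := leo_u h (r := (1 - ρ0) * (ε1 / C) / 16) (by
    have : 0 < 1 - ρ0 := by linarith
    have : 0 < C := by linarith
    positivity)
  refine ⟨N, fun n hn hvis => ?_⟩
  obtain ⟨u0, g, hu0, hg, hgv, hgz⟩ := hvis
  have hu1 : u0 ∈ closedBall (0 : ℂ) ρ1 := mem_closedBall_zero_iff.2 (hu0.trans h4.le)
  have hD := hdis g hg.diff hg.inj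
  have hσ : 0 < ‖deriv g 0‖ := (hD 0 h01 0 h01).1
  have hgn : ∀ v ∈ ball (0 : ℂ) 1, Φ v ∈ thickening δ J → g v ∈ dm f U J δ n := by
    intro v hv hv2
    refine ⟨dm_U (hgv v hv).1, ?_⟩
    rw [(hgv v hv).2]
    exact hv2
  have e1 : ε1 ≤ ‖deriv g 0‖ := by
    refine hnc z hz n c ‖deriv g 0‖ (fun u => g (ψ u)) hcJ hsδ hσ ?_ ?_ ?_
    · refine hg.diff.comp (hψd.mono hss) fun u hu => ?_
      exact hcb (hsub (hψ u (hss hu)).1)
    · intro u hu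
      have e2 := hψ u (hss hu)
      have e3 : ψ u ∈ ball (0 : ℂ) 1 := hcb (hsub e2.1)
      refine ⟨hgn _ e3 (by rw [e2.2]; exact hsδ hu), by rw [(hgv _ e3).2, e2.2], ?_⟩
      have e4 := (hD (ψ u) (hsub e2.1) u0 hu1).2.2.1
      rw [hgz] at e4
      refine e4.trans ?_
      have e5 : ‖ψ u - u0‖ ≤ 2 := by
        have e6 := mem_ball_zero_iff.1 e3
        calc ‖ψ u - u0‖ ≤ ‖ψ u‖ + ‖u0‖ := norm_sub_le _ _
          _ ≤ 2 := by linarith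
      calc C * ‖deriv g 0‖ * ‖ψ u - u0‖ ≤ C * ‖deriv g 0‖ * 2 := mul_le_mul_of_nonneg_left e5 (by positivity)
        _ = 2 * C * ‖deriv g 0‖ := by ring
        _ ≤ M * ‖deriv g 0‖ := mul_le_mul_of_nonneg_right hM1 (norm_nonneg _)
    · have e2 : HasDerivAt ψ (deriv ψ c) c := (hψd.differentiableAt (isOpen_ball.mem_nhds (mem_ball_self hs0))).hasDerivAt
      have e3 : HasDerivAt g (deriv g a) (ψ c) := by
        rw [hψa]
        exact (hg.diff.differentiableAt (isOpen_ball.mem_nhds ha0)).hasDerivAt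
      have e4 : deriv (fun u => g (ψ u)) c = deriv g a * deriv ψ c := (e3.comp c e2).deriv
      rw [e4, norm_mul]
      have e5 := (hD 0 h01 a ha1).2.1
      have e6 : ‖deriv Φ a‖ * ‖deriv ψ c‖ = 1 := by rw [← norm_mul, hder, norm_one]
      calc ‖deriv g 0‖ ≤ C * ‖deriv g a‖ := e5
        _ = C * ‖deriv g a‖ * (‖deriv Φ a‖ * ‖deriv ψ c‖) := by rw [e6, mul_one]
        _ = C * ‖deriv Φ a‖ * (‖deriv g a‖ * ‖deriv ψ c‖) := by ring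
        _ ≤ M * (‖deriv g a‖ * ‖deriv ψ c‖) := mul_le_mul_of_nonneg_right hM2 (by positivity)
  -- the image of the visit is large
  have e7 : ball u0 (1 - ρ0) ⊆ ball (0 : ℂ) 1 := by
    intro w hw
    rw [mem_ball, dist_eq_norm] at hw
    rw [mem_ball_zero_iff]
    calc ‖w‖ = ‖(w - u0) + u0‖ := by rw [sub_add_cancel]
      _ ≤ ‖w - u0‖ + ‖u0‖ := norm_add_le _ _
      _ < 1 := by linarith
  have hr1 : 0 < 1 - ρ0 := by linarith
  have e8 := Pool.Agent.H80.AJ.univ_cover hr1 (hg.diff.mono e7) (hg.inj.mono e7)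
  have e9 : ε1 / C ≤ ‖deriv g u0‖ := by
    rw [div_le_iff₀ (by linarith)]
    have := (hD 0 h01 u0 hu1).2.1
    rw [mul_comm]
    linarith
  have e10 : ball (g u0) ((1 - ρ0) * (ε1 / C) / 16) ⊆ g '' ball 0 1 := by
    refine (ball_subset_ball ?_).trans (e8.trans (image_mono e7))
    have := mul_le_mul_of_nonneg_left e9 hr1.le
    linarith
  have e11 : g u0 ∈ J := by
    rw [hgz]
    exact hX.EJ hz
  refine hfull K θ y Φ hW0 fun w hw => ?_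
  obtain ⟨p, hp, hpw⟩ := hN n hn (g u0) e11 hw
  obtain ⟨v, hv, hvp⟩ := e10 hp.1
  refine ⟨v, hv, ?_⟩
  rw [← (hgv v hv).2, hvp, hpw]

end Pool.Agent.H66.SP
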