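import Pool.Agent.H66.SP.Bas
import Pool.Agent.H44.TY.Clc
import Pool.Agent.H44.TY.Stq
import Pool.Agent.H66.SP.TY_Stq
import Pool.Agent.H44.TY.Sst
import Pool.Agent.H66.SP.WP_Gl
import Pool.Agent.H66.SP.WP_Cr
import Pool.Agent.H66.SP.WP_Stp

/-!
# TY_Clc: port of H44.TY.Clc to the setting PG, FG (H66/SP/Defs)
-/

set_option autoImplicit false

open Filter Topology Metric Set MeasureTheory

namespace Pool.Agent.H66.SP

open Pool.Agent.H44.TY

open Pool.Agent.H56.UD Pool.Agent.H55.PB Pool.Agent.H56.WP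

variable {f : ℂ → ℂ} {U J P Cr : Set ℂ} {δ : ℝ} {η : ℂ → ℂ → ℂ} {ρ : ℝ}

/-- uniqueness of lifts of collars -/
theorem st_uniq (h : PG f U J P Cr δ η ρ) {K k : ℕ} {θ : ℝ} {y : ℂ} {ε : ℝ} {Φ q q' : ℂ → ℂ} (hθ : 0 < θ)
    (hW : Wd f U J P δ K θ y ε Φ) (hq : ContinuousOn q (Sp (Real.log θ) 0)) (hq' : ContinuousOn q' (Sp (Real.log θ) 0))
    (hv : ∀ t ∈ Sp (Real.log θ) 0, q t ∈ dm f U J δ (k + K) ∧ f^[k] (q t) = Φ (Complex.exp t))
    (hv' : ∀ t ∈ Sp (Real.log θ) 0, q' t ∈ dm f U J δ (k + K) ∧ f^[k] (q' t) = Φ (Complex.exp t)) {t0 : ℂ}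
    (h0 : t0 ∈ Sp (Real.log θ) 0) (he : q t0 = q' t0) : EqOn q q' (Sp (Real.log θ) 0) := by
  refine lift_unique h (k := k + K) (Sp_convex _ _).isPreconnected hq hq' (fun u hu => (hv u hu).1)
    (fun u hu => (hv' u hu).1) (fun u hu => ?_) (fun u hu => ?_) h0 he
  · rw [add_comm k K, Function.iterate_add_apply, Function.iterate_add_apply, (hv u hu).2, (hv' u hu).2]
  · refine der_off h (hv u hu).1 ?_
    rw [add_comm k K, Function.iterate_add_apply, (hv u hu).2]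
    obtain ⟨h1, h2⟩ := (Sp_exp1 hθ).1 hu
    exact hW.col _ h1 h2

theorem clc (h : PG f U J P Cr δ η ρ) {θ ρ0 : ℝ} (hθ : 0 < θ) (hθ1 : θ < 1) (h0 : θ < ρ0) (h1 : ρ0 < 1) :
    ∃ ε0 : ℝ, 0 < ε0 ∧ ε0 ≤ δ ∧ ∀ (k K : ℕ) (y : ℂ) (ε : ℝ) (Φ q : ℂ → ℂ) (uJ : ℂ), y ∈ J → ε ≤ ε0 →
      Wd f U J P δ K θ y ε Φ → ‖uJ‖ ≤ ρ0 → f^[K] (Φ uJ) ∈ J → DifferentiableOn ℂ q (Sp (Real.log θ) 0) →
      (∀ t ∈ Sp (Real.log θ) 0, q t ∈ dm f U J δ (k + K) ∧ f^[k] (q t) = Φ (Complex.exp t)) →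
      (∃ g : ℂ → ℂ, Wd f U J P δ (K + k) θ y ε g ∧ (∀ v ∈ ball (0 : ℂ) 1, g v ∈ dm f U J δ (k + K) ∧ f^[k] (g v) = Φ v) ∧
        ∀ t ∈ Sp (Real.log θ) 0, q t = g (Complex.exp t)) ∨
      ∃ i l : ℕ, i + 1 + l = k ∧ ∃ c ∈ Cr, ∃ (a s : ℂ) (g v Φ' : ℂ → ℂ), (s = 1 ∨ s = -1) ∧
        Cv f U J P δ η ρ (K + l) θ y ε g ρ0 c a v Φ' ∧ ∀ t ∈ Sp (Real.log θ) 0, f^[i] (q t) = Φ' (s * sa a t) := by
  have h00 : 0 < ρ0 := hθ.trans h0
  obtain ⟨ε1, hε1, hε1δ, hst⟩ := stq h hθ hθ1 h00 h1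
  obtain ⟨ε2, hε2, hst2⟩ := h.stp θ ρ0 hθ hθ1 h00 h1
  refine ⟨min ε1 ε2, lt_min hε1 hε2, (min_le_left _ _).trans hε1δ, ?_⟩
  intro k
  induction k with
  | zero =>
    intro K y ε Φ q uJ hy hε hW huJ hJ hq hv
    left
    refine ⟨Φ, by simpa using hW, fun v hv' => ⟨by simpa using (hW.val v hv').1, rfl⟩, fun t ht => (hv t ht).2⟩
  | succ k ih =>
    intro K y ε Φ q uJ hy hε hW huJ hJ hq hv
    have hsucc : ∀ t ∈ Sp (Real.log θ) 0, q t ∈ U ∧ f (q t) ∈ dm f U J δ (k + K) := fun t ht => by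
      have h2 := (hv t ht).1
      rw [show k + 1 + K = (k + K) + 1 by ring] at h2
      exact (dm_succ _ _).1 h2
    have hq1 : DifferentiableOn ℂ (fun t => f (q t)) (Sp (Real.log θ) 0) := h.fd.comp hq fun t ht => (hsucc t ht).1
    rcases ih K y ε Φ (fun t => f (q t)) uJ hy hε hW huJ hJ hq1 (fun t ht => ⟨(hsucc t ht).2, by
      have := (hv t ht).2
      rwa [Function.iterate_succ_apply] at this⟩) with ⟨g, hg, hgv, hgq⟩ | ⟨i, l, hil, c, hc, a, s, g, v, Φ', hs, hCv, hval⟩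
    · -- the univalent window of time `k`
      have huJ1 : ‖uJ‖ < 1 := huJ.trans_lt h1
      have hgJ : f^[K + k] (g uJ) ∈ J := by
        rw [Function.iterate_add_apply, (hgv uJ (mem_ball_zero_iff.2 huJ1)).2]
        exact hJ
      set r0 : ℝ := (θ + ρ0) / 2 with hr0
      have hr1 : θ < r0 := by rw [hr0]; linarith
      have hr2 : r0 < ρ0 := by rw [hr0]; linarith
      have hr00 : 0 < r0 := hθ.trans hr1
      set t0 : ℂ := ((Real.log r0 : ℝ) : ℂ) with ht0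
      have hexp : Complex.exp t0 = (r0 : ℂ) := by
        rw [ht0, ← Complex.ofReal_exp, Real.exp_log hr00]
      have hnr : ‖(r0 : ℂ)‖ = r0 := by rw [Complex.norm_real, Real.norm_of_nonneg hr00.le]
      have ht0S : t0 ∈ Sp (Real.log θ) 0 := by
        rw [Sp_exp1 hθ, hexp, hnr]
        exact ⟨hr1, by linarith⟩
      have hmul : ∀ t ∈ Sp (Real.log θ) 0, Complex.exp t ∈ ball (0 : ℂ) 1 := fun t ht =>
        mem_ball_zero_iff.2 ((Sp_exp1 hθ).1 ht).2
      have halt : (∃ g' : ℂ → ℂ, Wd f U J P δ (K + k + 1) θ y ε g' ∧ (∀ v ∈ ball (0 : ℂ) 1, g' v ∈ U ∧ f (g' v) = g v) ∧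
          g' (r0 : ℂ) = q t0) ∨ ∃ c ∈ Cr, ∃ (a : ℂ) (v Φ' : ℂ → ℂ), Cv f U J P δ η ρ (K + k) θ y ε g ρ0 c a v Φ' ∧
        ∃ x0 : ℂ, ‖x0‖ < 1 ∧ bet a x0 = (r0 : ℂ) ∧ Φ' x0 = q t0 := by
        by_cases hP : ∀ v ∈ ball (0 : ℂ) 1, g v ∉ P
        · left
          exact hst2 (K + k) y ε g (r0 : ℂ) (q t0) uJ hy (hε.trans (min_le_right _ _)) hg hP (hsucc t0 ht0S).1
            (by rw [hnr]; exact hr2.le) (by rw [← hexp]; exact hgq t0 ht0S) huJ hgJ
        · push Not at hP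
          obtain ⟨p, hp, hpP⟩ := hP
          have hpθ : ‖p‖ ≤ θ := by
            by_contra hn
            push Not at hn
            exact hg.col p hn (mem_ball_zero_iff.1 hp) (P_it h _ hpP)
          exact hst (K + k) y ε g (r0 : ℂ) (q t0) p hy (hε.trans (min_le_left _ _)) hg (hsucc t0 ht0S).1
            (by rw [hnr]; exact hr2.le) (by rw [← hexp]; exact hgq t0 ht0S) (hpθ.trans h0.le) (h.PJ hpP)
      rcases halt with ⟨g', hg', hgv', hg0⟩ | ⟨c, hc, a, v, Φ', hCv, x0, hx0, hbx, hΦx⟩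
      · left
        refine ⟨g', by simpa [add_assoc] using hg', fun w hw => ⟨?_, ?_⟩, ?_⟩
        · have := (hg'.val w hw).1
          rwa [show K + k + 1 = k + 1 + K by ring] at this
        · rw [Function.iterate_succ_apply, (hgv' w hw).2, (hgv w hw).2]
        · have := st_uniq h (k := k + 1) (K := K) hθ hW hq.continuousOn
            (q' := fun t => g' (Complex.exp t)) (hg'.diff.continuousOn.comp Complex.continuous_exp.continuousOn hmul) hv
            (fun t ht => ⟨by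
              have := (hg'.val _ (hmul t ht)).1
              rwa [show K + k + 1 = k + 1 + K by ring] at this, by
              rw [Function.iterate_succ_apply, (hgv' _ (hmul t ht)).2, (hgv _ (hmul t ht)).2]⟩) ht0S
            (by show q t0 = g' (Complex.exp t0); rw [hexp, hg0])
          exact this
      · right
        have ha := hCv.ca
        have ha1 : ‖a‖ < 1 := ha.trans_lt hθ1
        have hsq : sa a t0 ^ 2 = x0 ^ 2 := by
          rw [sa_sq' hθ ha ht0S, sq_of_bet ha1 hx0 (by rw [hnr]; linarith) hbx, hexp]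
        obtain ⟨s, hs, hsx⟩ : ∃ s : ℂ, (s = 1 ∨ s = -1) ∧ x0 = s * sa a t0 := by
          rcases sq_eq_sq_iff_eq_or_eq_neg.1 hsq with e | e
          · exact ⟨1, Or.inl rfl, by rw [one_mul, e]⟩
          · exact ⟨-1, Or.inr rfl, by rw [e]; ring⟩
        have hsn : ‖s‖ = 1 := by rcases hs with rfl | rfl <;> simp
        have hbs : ∀ x : ℂ, bet a (s * x) = bet a x := by
          intro x
          rcases hs with rfl | rfl
          · rw [one_mul]
          · rw [neg_one_mul, bet_neg]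
        have hsb : ∀ t ∈ Sp (Real.log θ) 0, s * sa a t ∈ ball (0 : ℂ) 1 := fun t ht => by
          rw [mem_ball_zero_iff, norm_mul, hsn, one_mul]
          exact sa_lt' hθ hθ1 ha ht
        refine ⟨0, k, by omega, c, hc, a, s, g, v, Φ', hs, hCv, ?_⟩
        have hval : ∀ t ∈ Sp (Real.log θ) 0, f (Φ' (s * sa a t)) = g (Complex.exp t) := fun t ht => by
          rw [(hCv.val _ (hsb t ht)).2, hbs, bet_sa' hθ hθ1 ha ht]
        have := st_uniq h (k := k + 1) (K := K) hθ hW hq.continuousOn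
          (q' := fun t => Φ' (s * sa a t)) (hCv.wd.diff.continuousOn.comp
            (continuousOn_const.mul (sa_diff' hθ ha).continuousOn) hsb) hv
          (fun t ht => ⟨by
            have := (hCv.wd.val _ (hsb t ht)).1
            rwa [show K + k + 1 = k + 1 + K by ring] at this, by
            rw [Function.iterate_succ_apply, hval t ht, (hgv _ (hmul t ht)).2]⟩) ht0S
          (by show q t0 = Φ' (s * sa a t0); rw [← hsx, hΦx])
        exact this
    · right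
      refine ⟨i + 1, l, by omega, c, hc, a, s, g, v, Φ', hs, hCv, fun t ht => ?_⟩
      rw [Function.iterate_succ_apply]
      exact hval t ht

end Pool.Agent.H66.SP
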