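import Pool.Agent.H66.SP.Bas
import Pool.Agent.H44.LB.If
import Pool.Agent.H44.LB.Main
import Pool.Agent.H66.SP.LB_Main
import Pool.Agent.H44.TY.Main
import Pool.Agent.H66.SP.TY_Main
import Pool.Agent.H66.SP.UD_DD
import Pool.Agent.H66.SP.WP_Gl
import Pool.Agent.H66.SP.WP_Cr
import Pool.Agent.H66.SP.WP_Stp
import Pool.Agent.H66.SP.LA_Gc
import Pool.Agent.H66.SP.LA_Cmp
import Pool.Agent.H66.SP.LA_Sm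
import Pool.Agent.H66.SP.LA_Ncv
import Pool.Agent.H66.SP.LA_Stc
import Pool.Agent.H66.SP.LA_Cmb
import Pool.Agent.H66.SP.LB_Tow
import Pool.Agent.H66.SP.LB_Crs
import Pool.Agent.H66.SP.LB_RelA
import Pool.Agent.H66.SP.LB_Rel
import Pool.Agent.H66.SP.TY_Stq
import Pool.Agent.H66.SP.TY_Clc

/-!
# LB_If: port of H44.LB.If to the setting PG, FG (H66/SP/Defs)
-/

set_option autoImplicit false

open Filter Topology Metric Set MeasureTheory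

namespace Pool.Agent.H66.SP

open Pool.Agent.H44.LB

open Pool.Agent.H56.UD Pool.Agent.H55.PB Pool.Agent.H56.WP Pool.Agent.H66.GEO Pool.Agent.H44.LA Pool.Agent.H44.TY

variable {f : ℂ → ℂ} {U J P Cr E : Set ℂ} {δ b0 : ℝ} {η : ℂ → ℂ → ℂ} {ρ : ℝ} {X hh μ : ℂ → ℂ}

/-- LEMMA A, general: no univalent pull back, at bounded distance of `z`, of a small window with `c` in its core -/
theorem lemS (h : PG f U J P Cr δ η ρ) (hX : FG f U J E δ X hh μ b0) {z c : ℂ} (hz : z ∈ E) (hc : c ∈ Cr) (hrc : Rc f c z)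
    {θ M : ℝ} (hθ : 0 < θ) (hθ1 : θ < 1) :
    ∃ ε0 : ℝ, 0 < ε0 ∧ ∀ (K m : ℕ) (y a : ℂ) (ε : ℝ) (Φ g : ℂ → ℂ), y ∈ J → ε ≤ ε0 → Wd f U J P δ K θ y ε Φ →
      ‖a‖ ≤ θ → Φ a = c → DifferentiableOn ℂ g (ball 0 1) →
      (∀ v ∈ ball (0 : ℂ) 1, g v ∈ dm f U J δ (m + K) ∧ f^[m] (g v) = Φ v) → ‖deriv g 0‖ ≤ ε0 →
      ¬ ‖g 0 - z‖ ≤ M * ‖deriv g 0‖ :=
  lem_s h hX hz hc hrc hθ hθ1

/-- TYPES, general -/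
theorem typS (h : PG f U J P Cr δ η ρ) (hX : FG f U J E δ X hh μ b0) {z : ℂ} (hz : z ∈ E)
    {θ M ρa ρb : ℝ} (hθ : 0 < θ) (hθ1 : θ < 1) (ha : θ < ρa) (hb : ρb < 1) :
    ∃ ε0 : ℝ, 0 < ε0 ∧ ∀ (k : ℕ) (y : ℂ) (ε : ℝ) (Φ q : ℂ → ℂ) (ζ ζ1 : ℂ), y ∈ J → ε ≤ ε0 → Wd f U J P δ 0 θ y ε Φ →
      (∀ c' ∈ Cr, ∀ j : ℕ, f^[j] c' ∈ ball y ε → Rc f c' z) →
      DifferentiableOn ℂ q (St (Real.log θ) 0) →
      (∀ t ∈ St (Real.log θ) 0, q t ∈ dm f U J δ k ∧ f^[k] (q t) = Φ (Complex.exp t)) →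
      ζ ∈ St (Real.log θ) 0 → ρa ≤ ‖Complex.exp ζ‖ → ‖Complex.exp ζ‖ ≤ ρb → ‖q ζ - z‖ ≤ M * ‖deriv q ζ‖ →
      ‖deriv q ζ‖ ≤ ε0 → ζ1 ∈ St (Real.log θ) 0 → q (ζ1 + 4 * Real.pi * Complex.I) = q ζ1 →
      ∃ g : ℂ → ℂ, Un f U J δ k Φ g ∧ ∀ t ∈ St (Real.log θ) 0, q t = g (Complex.exp t) :=
  typ_gen h (fun _ _ hθ hθ1 _ hb => lemS h hX hz hb.1 hb.2 hθ hθ1) hθ hθ1 ha hb

end Pool.Agent.H66.SP
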