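import Pool.Agent.H66.SP.Bas
import Pool.Agent.H41.XF.Fl
import Pool.Agent.H41.XF.Hl
import Pool.Agent.H66.SP.UD_DD

/-!
# XF_Fl: port of H41.XF.Fl to the setting PG, FG (H66/SP/Defs)
-/

set_option autoImplicit false

open Filter Topology Metric Set MeasureTheory

namespace Pool.Agent.H66.SP

open Pool.Agent.H41.XF

open Pool.Agent.H56.UD

variable {f : ℂ → ℂ} {U J P Cr E : Set ℂ} {δ b0 : ℝ} {η : ℂ → ℂ → ℂ} {ρ : ℝ} {X hh μ : ℂ → ℂ}

theorem xi_it (h : PG f U J P Cr δ η ρ) (hX : FG f U J E δ X hh μ b0) (k : ℕ) : XI X (dm f U J δ k) (f^[k]) :=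
  ⟨dm_open h k, dm_diff h k, X_it h hX k⟩

theorem xi_f (h : PG f U J P Cr δ η ρ) (hX : FG f U J E δ X hh μ b0) : XI X U f :=
  ⟨h.Uo, h.fd, hh, hX.hd, hX.eq⟩

private theorem ch_der {O : Set ℂ} (hO : IsOpen O) {Φ : ℂ → ℂ} (hΦ : DifferentiableOn ℂ Φ O) {x R x' R' u : ℂ}
    (hu : x + R * u ∈ O) : HasDerivAt (ch Φ x R x' R') (deriv Φ (x + R * u) * R / R') u := by
  have d1 : HasDerivAt (fun u : ℂ => x + R * u) R u := by
    simpa using ((hasDerivAt_id u).const_mul R).const_add x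
  have d2 := (hΦ.differentiableAt (hO.mem_nhds hu)).hasDerivAt
  have d3 : HasDerivAt (Φ ∘ fun u : ℂ => x + R * u) (deriv Φ (x + R * u) * R) u := HasDerivAt.comp u d2 d1
  exact (d3.sub_const x').div_const R'

private theorem ch_open {O : Set ℂ} (hO : IsOpen O) (x R : ℂ) : IsOpen {u : ℂ | x + R * u ∈ O} :=
  hO.preimage (by fun_prop : Continuous fun u : ℂ => x + R * u)

variable {𝒰 : Ultrafilter ℕ} {S S' : Set ℂ} {A A' F : ℂ → ℂ} {Φt : ℕ → ℂ → ℂ} {x R x' R' ν : ℕ → ℂ}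

/-- the limit of the line field at typical points -/
theorem mu_lim (hX : FG f U J E δ X hh μ b0) (𝒰 : Ultrafilter ℕ) {z : ℕ → ℂ} (hz : ∀ n, z n ∈ E) :
    ∃ b : ℂ, b ≠ 0 ∧ Tendsto (fun n => μ (z n)) (𝒰 : Filter ℕ) (𝓝 b) := by
  obtain ⟨b, -, hb⟩ : ∃ b ∈ closedBall (0 : ℂ) 1, Tendsto (fun n => μ (z n)) (𝒰 : Filter ℕ) (𝓝 b) := by
    have h0 : closedBall (0 : ℂ) 1 ∈ 𝒰.map fun n => μ (z n) := by
      rw [Ultrafilter.mem_map]
      refine Filter.univ_mem' fun n => ?_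
      show μ (z n) ∈ closedBall (0 : ℂ) 1
      rw [mem_closedBall_zero_iff]
      exact (hX.lb _ (hz n)).2
    exact (isCompact_closedBall (0 : ℂ) 1).ultrafilter_le_nhds' (𝒰.map fun n => μ (z n)) h0
  refine ⟨b, ?_, hb⟩
  have h1 : b0 ≤ ‖b‖ := ge_of_tendsto hb.norm (Eventually.of_forall fun n => (hX.lb _ (hz n)).1)
  have h2 := hX.hb
  intro h3
  rw [h3, norm_zero] at h1
  linarith

/-- the field at typical points -/
theorem fl_typ (hX : FG f U J E δ X hh μ b0) {z σ : ℕ → ℂ} (hz : ∀ n, z n ∈ E) (hσ : ∀ n, σ n ≠ 0)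
    (ht : Tendsto σ (𝒰 : Filter ℕ) (𝓝 0)) {b : ℂ} (hb : Tendsto (fun n => μ (z n)) (𝒰 : Filter ℕ) (𝓝 b)) :
    HL 𝒰 (Yn X z σ fun n => σ n / (starRingEnd ℂ) (σ n)) univ (fun s => b * (starRingEnd ℂ) s) := by
  intro K _ hKc ε hε
  obtain ⟨L, hL, hKL⟩ : ∃ L : ℝ, 0 < L ∧ K ⊆ ball 0 L := by
    obtain ⟨L, hL⟩ := hKc.isBounded.subset_ball (0 : ℂ)
    exact ⟨max L 1, by positivity, hL.trans (ball_subset_ball (le_max_left _ _))⟩
  obtain ⟨ρ', hρ', hT⟩ := hX.T (ε / 2 / L) (by positivity)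
  have hsm : ∀ᶠ n in (𝒰 : Filter ℕ), ‖σ n‖ * L < ρ' := by
    have h1 : Tendsto (fun n => ‖σ n‖ * L) (𝒰 : Filter ℕ) (𝓝 0) := by
      have h2 := ht.norm.mul_const L
      rwa [norm_zero, zero_mul] at h2
    exact h1.eventually_lt_const hρ'
  have hbs : ∀ᶠ n in (𝒰 : Filter ℕ), ‖μ (z n) - b‖ < ε / 2 / L := by
    have h1 := (hb.sub_const b).norm
    rw [sub_self, norm_zero] at h1
    exact h1.eventually_lt_const (by positivity)
  filter_upwards [hsm, hbs] with n hn hn2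
  have hσn : 0 < ‖σ n‖ := norm_pos_iff.2 (hσ n)
  have hcs : (starRingEnd ℂ) (σ n) ≠ 0 := (map_ne_zero _).2 (hσ n)
  obtain ⟨H, hH1, hH2⟩ := hT (z n) (hz n) (‖σ n‖ * L) (by positivity) hn
  have hin : ∀ s ∈ ball (0 : ℂ) L, z n + σ n * s ∈ ball (z n) (‖σ n‖ * L) := by
    intro s hs
    rw [mem_ball, dist_eq_norm, add_sub_cancel_left, norm_mul]
    exact mul_lt_mul_of_pos_left (mem_ball_zero_iff.1 hs) hσn
  refine ⟨ball 0 L, fun s => H (z n + σ n * s) / (starRingEnd ℂ) (σ n), isOpen_ball, hKL, ?_, fun s hs => ?_⟩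
  · exact (hH1.comp (by fun_prop : DifferentiableOn ℂ (fun s : ℂ => z n + σ n * s) _) hin).div_const _
  · have hs' := hKL hs
    have e1 := hH2 _ (hin s hs')
    rw [add_sub_cancel_left, map_mul] at e1
    have e2 : ‖s‖ ≤ L := (mem_ball_zero_iff.1 hs').le
    have key : Yn X z σ (fun n => σ n / (starRingEnd ℂ) (σ n)) n s - H (z n + σ n * s) / (starRingEnd ℂ) (σ n) -
        b * (starRingEnd ℂ) s = (X (z n + σ n * s) - μ (z n) * ((starRingEnd ℂ) (σ n) * (starRingEnd ℂ) s) -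
          H (z n + σ n * s)) / (starRingEnd ℂ) (σ n) + (μ (z n) - b) * (starRingEnd ℂ) s := by
      rw [Yn]
      have := hσ n
      field_simp
      ring
    rw [key]
    calc _ ≤ ‖(X (z n + σ n * s) - μ (z n) * ((starRingEnd ℂ) (σ n) * (starRingEnd ℂ) s) -
          H (z n + σ n * s)) / (starRingEnd ℂ) (σ n)‖ + ‖(μ (z n) - b) * (starRingEnd ℂ) s‖ := norm_add_le _ _
      _ = ‖X (z n + σ n * s) - μ (z n) * ((starRingEnd ℂ) (σ n) * (starRingEnd ℂ) s) -
          H (z n + σ n * s)‖ / ‖σ n‖ + ‖μ (z n) - b‖ * ‖s‖ := by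
          rw [norm_div, norm_mul, Complex.norm_conj, Complex.norm_conj]
      _ ≤ ε / 2 / L * (‖σ n‖ * L) / ‖σ n‖ + ε / 2 / L * L :=
          add_le_add (div_le_div_of_nonneg_right e1 hσn.le) (mul_le_mul hn2.le e2 (norm_nonneg _) (by positivity))
      _ = ε := by
          field_simp
          norm_num

/-- the field in frames -/
theorem fl_fr (h : PG f U J P Cr δ η ρ) (hX : FG f U J E δ X hh μ b0) {z σ : ℕ → ℂ} {k : ℕ → ℕ} (hz : ∀ n, z n ∈ E)
    (hR : ∀ n, R n ≠ 0) (hσ : ∀ n, σ n ≠ 0) (ht : Tendsto σ (𝒰 : Filter ℕ) (𝓝 0)) {b : ℂ}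
    (hb : Tendsto (fun n => μ (z n)) (𝒰 : Filter ℕ) (𝓝 b)) (hS : IsOpen S) {G : ℕ → ℂ → ℂ} {g : ℂ → ℂ}
    (hG : ∀ K ⊆ S, IsCompact K → ∀ᶠ n in (𝒰 : Filter ℕ), ∃ O : Set ℂ, IsOpen O ∧ K ⊆ O ∧ DifferentiableOn ℂ (G n) O ∧
      ∀ u ∈ O, G n u ∈ Dn f U J δ z k σ n ∧ Fn f z k x R σ n (G n u) = u)
    (hc : TendstoLocallyUniformlyOn G g (𝒰 : Filter ℕ) S) (hg : ∀ u ∈ S, deriv g u ≠ 0) :
    HL 𝒰 (Yn X x R fun n => σ n / (starRingEnd ℂ) (σ n)) S (fun u => b * ((starRingEnd ℂ) (g u) / deriv g u)) := by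
  have hI : ∀ K ⊆ S, IsCompact K → ∀ᶠ n in (𝒰 : Filter ℕ), ∃ O, XI X O (fun y => z n + σ n * G n ((y - x n) / R n)) ∧
      ∀ u ∈ K, x n + R n * u ∈ O := by
    intro K hK hKc
    filter_upwards [hG K hK hKc] with n hn
    obtain ⟨O, h1, h2, h3, h4⟩ := hn
    have hR' := hR n
    refine ⟨{y : ℂ | (y - x n) / R n ∈ O}, ?_, fun u hu => ?_⟩
    · refine xi_inv (xi_it h hX (k n)) (h1.preimage (by fun_prop : Continuous fun y : ℂ => (y - x n) / R n)) ?_ fun y hy => ?_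
      · refine (DifferentiableOn.const_mul ?_ _).const_add _
        exact h3.comp (by fun_prop : DifferentiableOn ℂ (fun y : ℂ => (y - x n) / R n) _) fun y hy => hy
      · obtain ⟨h5, h6⟩ := h4 _ hy
        refine ⟨h5, ?_⟩
        have h7 : (f^[k n] (z n + σ n * G n ((y - x n) / R n)) - x n) / R n = (y - x n) / R n := h6
        rw [div_left_inj' hR'] at h7
        linear_combination h7
    · show (x n + R n * u - x n) / R n ∈ O
      rw [add_sub_cancel_left, mul_div_cancel_left₀ _ hR']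
      exact h2 hu
  have hce : ∀ n, ch (fun y => z n + σ n * G n ((y - x n) / R n)) (x n) (R n) (z n) (σ n) = G n := by
    intro n
    funext u
    have := hσ n
    have := hR n
    rw [ch]
    simp only [add_sub_cancel_left]
    rw [mul_div_cancel_left₀ _ (hR n), mul_div_cancel_left₀ _ (hσ n)]
  have hc' : TendstoLocallyUniformlyOn (fun n => ch (fun y => z n + σ n * G n ((y - x n) / R n)) (x n) (R n) (z n) (σ n)) g
      (𝒰 : Filter ℕ) S := by
    simp only [hce]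
    exact hc
  have h1 := fl_pull hS isOpen_univ hR hσ hI hc' (mapsTo_univ g S) hg
    (by fun_prop : ContinuousOn (fun s : ℂ => b * (starRingEnd ℂ) s) univ) (fl_typ hX hz hσ ht hb)
  refine hl_congr h1 fun u _ => ?_
  ring

/-- the antiholomorphic derivative of a combination -/
private theorem gal_bar {g g' p p' : ℂ → ℂ} {u : ℂ} (hg : DifferentiableAt ℂ g u) (hg' : DifferentiableAt ℂ g' u)
    (hp : DifferentiableAt ℂ p u) (hp' : DifferentiableAt ℂ p' u)
    (hA : DifferentiableAt ℂ (fun v => (starRingEnd ℂ) (g v) * p v - (starRingEnd ℂ) (g' v) * p' v) u) :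
    (starRingEnd ℂ) (deriv g u) * p u = (starRingEnd ℂ) (deriv g' u) * p' u := by
  have hdir : ∀ F : ℂ → ℂ, DifferentiableAt ℂ F u → ∀ v : ℂ,
      HasDerivAt (fun t : ℝ => F (u + t * v)) (deriv F u * v) 0 := by
    intro F hF v
    have h1 : HasDerivAt (fun ζ : ℂ => u + ζ * v) v ((0 : ℝ) : ℂ) := by
      have := ((hasDerivAt_id ((0 : ℝ) : ℂ)).mul_const v).const_add u
      simpa using this
    have h2 : HasDerivAt F (deriv F u) ((fun ζ : ℂ => u + ζ * v) ((0 : ℝ) : ℂ)) := by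
      have h3 : (fun ζ : ℂ => u + ζ * v) ((0 : ℝ) : ℂ) = u := by simp
      rw [h3]
      exact hF.hasDerivAt
    have h4 : HasDerivAt (F ∘ fun ζ : ℂ => u + ζ * v) (deriv F u * v) ((0 : ℝ) : ℂ) := HasDerivAt.comp _ h2 h1
    exact h4.comp_ofReal
  have hv : ∀ v : ℂ, deriv (fun v => (starRingEnd ℂ) (g v) * p v - (starRingEnd ℂ) (g' v) * p' v) u * v =
      (star (deriv g u * v) * p u + (starRingEnd ℂ) (g u) * (deriv p u * v)) -
        (star (deriv g' u * v) * p' u + (starRingEnd ℂ) (g' u) * (deriv p' u * v)) := by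
    intro v
    have h1 := hdir _ hA v
    have h2 := (((hdir g hg v).star).mul (hdir p hp v)).sub (((hdir g' hg' v).star).mul (hdir p' hp' v))
    have h3 := h1.unique h2
    rw [h3]
    simp
  have h1 := hv 1
  have hi := hv Complex.I
  simp only [mul_one, star_mul', Complex.star_def, Complex.conj_I] at h1 hi
  have h2 : (2 * Complex.I) * ((starRingEnd ℂ) (deriv g u) * p u - (starRingEnd ℂ) (deriv g' u) * p' u) = 0 := by
    linear_combination hi - Complex.I * h1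
  have h3 : (2 : ℂ) * Complex.I ≠ 0 := mul_ne_zero two_ne_zero Complex.I_ne_zero
  exact sub_eq_zero.1 ((mul_eq_zero.1 h2).resolve_left h3)

/-- the relation of the limits -/
private theorem gal_lim {g g' : ℂ → ℂ} {w : ℂ} {r : ℝ} (hr : 0 < r) (hg : DifferentiableOn ℂ g (ball w r))
    (hg' : DifferentiableOn ℂ g' (ball w r)) (h0 : deriv g w ≠ 0) (h0' : deriv g' w ≠ 0)
    (hc : ∀ u ∈ ball w r, (starRingEnd ℂ) (deriv g u) * deriv g' u = (starRingEnd ℂ) (deriv g' u) * deriv g u) :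
    ∃ (t : ℝ) (c : ℂ), t ≠ 0 ∧ ∀ u ∈ ball w r, g' u = t * g u + c := by
  have hd : DifferentiableOn ℂ (deriv g) (ball w r) := hg.deriv isOpen_ball
  have hd' : DifferentiableOn ℂ (deriv g') (ball w r) := hg'.deriv isOpen_ball
  have hw : w ∈ ball w r := mem_ball_self hr
  have hcont : ContinuousAt (deriv g) w := (hd.differentiableAt (isOpen_ball.mem_nhds hw)).continuousAt
  obtain ⟨s, hs, hs2⟩ := Metric.mem_nhds_iff.1 (hcont.eventually_ne h0)
  obtain ⟨s', hs', hss, hsr⟩ : ∃ s', 0 < s' ∧ s' ≤ s ∧ s' ≤ r := ⟨min s r, lt_min hs hr, min_le_left _ _, min_le_right _ _⟩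
  have hne : ∀ u ∈ ball w s', deriv g u ≠ 0 := fun u hu => hs2 (ball_subset_ball hss hu)
  have hq : DifferentiableOn ℂ (fun u => deriv g' u / deriv g u) (ball w s') :=
    (hd'.mono (ball_subset_ball hsr)).div (hd.mono (ball_subset_ball hsr)) hne
  have hreal : ∀ u ∈ ball w s', (deriv g' u / deriv g u).im = 0 := by
    intro u hu
    rw [← Complex.conj_eq_iff_im, map_div₀, div_eq_div_iff ((map_ne_zero _).2 (hne u hu)) (hne u hu)]
    rw [← hc u (ball_subset_ball hsr hu)]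
    ring
  obtain ⟨q, hq2⟩ := (hq.analyticOnNhd isOpen_ball).eq_const_of_im_eq_const (c₀ := 0) hreal isOpen_ball
    ((convex_ball w s').isConnected ⟨w, mem_ball_self hs'⟩)
  have hqw := hq2 w (mem_ball_self hs')
  have hq0 : q ≠ 0 := by
    rw [← hqw]
    exact div_ne_zero h0' h0
  have hqr : ((q.re : ℝ) : ℂ) = q := by
    rw [← Complex.conj_eq_iff_re, Complex.conj_eq_iff_im, ← hqw]
    exact hreal w (mem_ball_self hs')
  have hE : EqOn (deriv g') (fun u => q * deriv g u) (ball w r) := by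
    refine (hd'.analyticOnNhd isOpen_ball).eqOn_of_preconnected_of_eventuallyEq
      ((hd.const_mul q).analyticOnNhd isOpen_ball) (convex_ball w r).isPreconnected hw ?_
    filter_upwards [ball_mem_nhds w hs'] with u hu
    have := hq2 u hu
    rw [div_eq_iff (hne u hu)] at this
    exact this
  have hF : DifferentiableOn ℂ (fun u => g' u - q * g u) (ball w r) := hg'.sub (hg.const_mul q)
  have hF0 : (ball w r).EqOn (deriv fun u => g' u - q * g u) 0 := by
    intro u hu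
    have a1 := hg.differentiableAt (isOpen_ball.mem_nhds hu)
    have a2 := hg'.differentiableAt (isOpen_ball.mem_nhds hu)
    rw [deriv_fun_sub a2 (a1.const_mul q), deriv_const_mul _ a1, hE hu]
    exact sub_self _
  refine ⟨q.re, g' w - q * g w, ?_, fun u hu => ?_⟩
  · intro h
    apply hq0
    rw [← hqr, h]
    rfl
  · have h5 := isOpen_ball.is_const_of_deriv_eq_zero (convex_ball w r).isPreconnected hF hF0 hu hw
    rw [hqr]
    have h6 : g' u - q * g u = g' w - q * g w := h5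
    linear_combination h6

end Pool.Agent.H66.SP
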