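import Pool.Agent.H66.SP.Bas
import Pool.Agent.H65.RL.Fmlt
import Pool.Agent.H64.XL.Defs
import Pool.Agent.H56.UD.DD
import Pool.Agent.H66.SP.UD_DD

/-!
# RL_Fmlt: port of H65.RL.Fmlt to the setting PG, FG (H66/SP/Defs)
-/

set_option autoImplicit false

open Filter Topology Metric Set MeasureTheory

namespace Pool.Agent.H66.SP

open Pool.Agent.H65.RL

open Pool.Agent.H56.UD
open Pool.Agent.H64.XL (LT)

variable {f : ℂ → ℂ} {U J P Cr E : Set ℂ} {δ : ℝ} {η : ℂ → ℂ → ℂ} {ρ : ℝ}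

private theorem ev_small {𝒰 : Ultrafilter ℕ} {R : ℕ → ℂ} (h : Tendsto R (𝒰 : Filter ℕ) (𝓝 0))
    (A : ℝ) {B : ℝ} (hB : 0 < B) : ∀ᶠ n in (𝒰 : Filter ℕ), ‖R n‖ * A < B := by
  have h1 : Tendsto (fun n => ‖R n‖ * A) (𝒰 : Filter ℕ) (𝓝 0) := by
    have h2 := h.norm.mul_const A
    rwa [norm_zero, zero_mul] at h2
  exact h1.eventually_lt_const hB

theorem lt_of (h : PG f U J P Cr δ η ρ) {𝒰 : Ultrafilter ℕ} {z : ℕ → ℂ} {k : ℕ → ℕ} {x R σ : ℕ → ℂ}
    (xP : ∀ n, x n ∈ P) (R0 : ∀ n, R n ≠ 0) (σ0 : ∀ n, σ n ≠ 0) (Rt : Tendsto R (𝒰 : Filter ℕ) (𝓝 0)) :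
    LT 𝒰 (Fn f z k x R σ) (Dn f U J δ z k σ) (Pn P x R) := by
  have hmap : ∀ n, Continuous fun w : ℂ => x n + R n * w := fun n => by fun_prop
  have hmap2 : ∀ n, Continuous fun w : ℂ => z n + σ n * w := fun n => by fun_prop
  have hback : ∀ n (v : ℂ), z n + σ n * ((v - z n) / σ n) = v := fun n v => by
    rw [mul_div_cancel₀ _ (σ0 n)]
    ring
  have hFn : ∀ n (s v : ℂ), Fn f z k x R σ n s = v ↔ f^[k n] (z n + σ n * s) = x n + R n * v := by
    intro n s v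
    unfold Fn
    rw [div_eq_iff (R0 n), sub_eq_iff_eq_add]
    constructor
    · intro h1
      rw [h1]
      ring
    · intro h1
      rw [h1]
      ring
  refine ⟨?_, ?_, ?_, ?_, ?_⟩
  · exact fun n => h.Pc.preimage (hmap n)
  · intro n
    show x n + R n * 0 ∈ P
    rw [mul_zero, add_zero]
    exact xP n
  · exact fun n => (dm_open h (k n)).preimage (hmap2 n)
  · intro n
    have h1 : DifferentiableOn ℂ (fun s : ℂ => f^[k n] (z n + σ n * s)) (Dn f U J δ z k σ n) := by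
      have h2 : DifferentiableOn ℂ (fun w : ℂ => z n + σ n * w) (Dn f U J δ z k σ n) := by
        fun_prop
      exact (dm_diff h (k n)).comp h2 fun s hs => hs
    exact (h1.sub_const (x n)).div_const (R n)
  · intro M
    filter_upwards [ev_small Rt |M| h.hδ] with n hn S H q s hS hSo hH hHu hq hs hfs
    have hR' : 0 < ‖R n‖ := norm_pos_iff.2 (R0 n)
    obtain ⟨G, hG1, hG2, hG3⟩ := h.lift (k n) S (fun u => x n + R n * H u) q (z n + σ n * s) hS hSo
      ((hH.const_mul (R n)).const_add (x n)) (fun u hu => by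
        refine ⟨?_, (hHu u hu).2⟩
        rw [mem_thickening_iff]
        refine ⟨x n, h.PJ (xP n), ?_⟩
        rw [dist_eq_norm, add_sub_cancel_left, norm_mul]
        have h1 : ‖H u‖ ≤ |M| := (hHu u hu).1.le.trans (le_abs_self M)
        exact lt_of_le_of_lt (mul_le_mul_of_nonneg_left h1 hR'.le) hn) hq hs
      ((hFn n s (H q)).1 hfs)
    refine ⟨fun u => (G u - z n) / σ n, (hG1.sub_const (z n)).div_const (σ n), ?_, fun u hu => ⟨?_, ?_⟩⟩
    · show (G q - z n) / σ n = s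
      rw [hG2, add_sub_cancel_left, mul_div_cancel_left₀ _ (σ0 n)]
    · show z n + σ n * ((G u - z n) / σ n) ∈ dm f U J δ (k n)
      rw [hback]
      exact (hG3 u hu).1
    · rw [hFn, hback]
      exact (hG3 u hu).2

theorem fm_lt (h : PG f U J P Cr δ η ρ) {𝒰 : Ultrafilter ℕ} {z : ℕ → ℂ} {k : ℕ → ℕ} {x R σ : ℕ → ℂ}
    (hm : Fm 𝒰 E P z k x R σ) : LT 𝒰 (Fn f z k x R σ) (Dn f U J δ z k σ) (Pn P x R) :=
  lt_of h hm.xP hm.R0 hm.σ0 hm.Rt

end Pool.Agent.H66.SP
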