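import Pool.Agent.H66.SP.Bas
import Pool.Agent.H3.SZ2.Tt
import Pool.Agent.H3.SZ.Tow
import Pool.Agent.H66.SP.SZ_Tow
import Pool.Agent.H66.SP.UD_DD

/-!
# SZ2_Tt: port of H3.SZ2.Tt to the setting PG, FG (H66/SP/Defs)
-/

set_option autoImplicit false

open Filter Topology Metric Set

namespace Pool.Agent.H66.SP

open Pool.Agent.H3.SZ2

open Pool.Agent.H56.UD (dm dm_add' dm_zero)
open Pool.Agent.H64.XL
open Pool.Agent.H66.GEO (Bl BB)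
open Pool.Agent.H3.SZ (bb_ex bb_diff bb_open bb_pre bb_lt wt_sz)

private theorem pre_sub {S B : Set ℂ} (hS : IsPreconnected S) (hB : IsOpen B) (hd : Disjoint S (frontier B))
    (hne : (S ∩ B).Nonempty) : S ⊆ B := by
  have ho : IsOpen (closure B)ᶜ := isClosed_closure.isOpen_compl
  have hdj : Disjoint B (closure B)ᶜ := disjoint_compl_right.mono_left subset_closure
  refine hS.subset_left_of_subset_union hB ho hdj ?_ hne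
  intro x hx
  by_cases h1 : x ∈ closure B
  · refine Or.inl ?_
    by_contra h2
    refine (Set.disjoint_left.1 hd) hx ?_
    rw [hB.frontier_eq]
    exact ⟨h1, h2⟩
  · exact Or.inr h1

variable {f : ℂ → ℂ} {U J P Cr : Set ℂ} {δ : ℝ} {η : ℂ → ℂ → ℂ} {ρ : ℝ} {θ r M : ℝ}

/-- upper bound for the sizes -/
theorem tt_up (h : PG f U J P Cr δ η ρ) (hM : 1 ≤ M) (hθ1 : θ < 1) (u : ℕ) : ∃ C ε0 : ℝ, 1 ≤ C ∧ 0 < ε0 ∧
    ∀ {c : ℂ} {r ε : ℝ} {χ0 τ : ℂ → ℂ} {α : ℕ → ℂ} {K : ℕ}, TT f U P θ r χ0 α u K τ → c ∈ J → Wt f U J P δ c θ M ε χ0 → ε ≤ ε0 →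
    ‖deriv τ 0‖ ≤ C * ‖deriv χ0 0‖ := by
  obtain ⟨d, hd, hno⟩ := noattr h
  obtain ⟨σ, hσ0, hσ1, hσ⟩ := bb_ex hθ1 u hθ1
  obtain ⟨K0, hK1, hK⟩ := gr2 hσ1
  have hK0 : 0 < K0 := by linarith
  have hM0 : 0 < M := by linarith
  have hσ2 : 0 < 1 - σ := by linarith
  refine ⟨48 * K0 * M / (1 - σ), d / (64 * M), ?_, by positivity, fun {c r ε χ0 τ α K} hT hc hW hε => ?_⟩
  · rw [one_le_div hσ2]
    nlinarith [mul_le_mul hK1 hM zero_le_one hK0.le]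
  by_contra hcon
  rw [not_le] at hcon
  obtain ⟨a, b, ha, hb1, hb, hab⟩ := hT.y
  have h0 : 0 < ‖deriv χ0 0‖ := Pool.Agent.H80.AJ.deriv_ne one_pos hW.d hW.i (mem_closedBall_self (by norm_num))
  have hbσ : ‖b‖ ≤ σ := hσ α hT.al hT.cv b hb1 hb
  have hbs : ball b (1 - σ) ⊆ ball 0 1 := by
    refine ball_subset_ball' ?_
    rw [dist_zero_right]
    linarith
  have h1 := Pool.Agent.H80.AJ.univ_cover hσ2 (hT.d.mono hbs) (hT.i.mono hbs)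
  have h2 := (hK τ hT.d hT.i 0 b (by simpa using hσ0.le) hbσ).1
  have h3 : 3 * (M * ‖deriv χ0 0‖) < (1 - σ) * ‖deriv τ b‖ / 16 := by
    have h4 : 48 * K0 * M / (1 - σ) * ‖deriv χ0 0‖ < K0 * ‖deriv τ b‖ := hcon.trans_le h2
    rw [div_mul_eq_mul_div, div_lt_iff₀ hσ2] at h4
    have h5 : K0 * (48 * (M * ‖deriv χ0 0‖)) < K0 * ((1 - σ) * ‖deriv τ b‖) := by linarith
    have h6 := lt_of_mul_lt_mul_left h5 hK0.le
    linarith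
  have haM : ‖χ0 a - c‖ ≤ M * ‖deriv χ0 0‖ := hW.bd a (mem_ball_zero_iff.2 (ha.trans_lt hθ1))
  have hR : 0 < 2 * M * ‖deriv χ0 0‖ := by positivity
  refine hno (ball c (2 * M * ‖deriv χ0 0‖)) K c isOpen_ball (mem_ball_self hR) hc ?_ hT.K1 ?_
  · refine ball_subset_ball ?_
    have h4 := wt_sz (χ := fun _ => χ0) hW
    have h5 : ε * (64 * M) ≤ d := by
      rwa [le_div_iff₀ (by positivity)] at hε
    have h6 : 2 * M * ‖deriv χ0 0‖ ≤ 2 * M * (16 * ε) := mul_le_mul_of_nonneg_left h4 (by positivity)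
    have h7 : 2 * M * (16 * ε) = (ε * (64 * M)) / 2 := by ring
    linarith
  · intro w hw
    have h4 : w ∈ ball (τ b) ((1 - σ) * ‖deriv τ b‖ / 16) := by
      rw [mem_ball, dist_eq_norm] at hw ⊢
      rw [hab]
      have h5 : w - χ0 a = (w - c) - (χ0 a - c) := by ring
      have h6 := norm_sub_le (w - c) (χ0 a - c)
      rw [← h5] at h6
      linarith
    obtain ⟨v, hv, rfl⟩ := h1 h4
    have hv1 := hbs hv
    rw [hT.st v hv1]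
    have h5 : BB b1 α u v ∈ ball (0 : ℂ) 1 := mem_ball_zero_iff.2 (bb_lt hT.al (mem_ball_zero_iff.1 hv1))
    have h6 := hW.bd _ h5
    rw [mem_ball, dist_eq_norm]
    have h7 : 0 < M * ‖deriv χ0 0‖ := by positivity
    linarith

/-- bounded position of the points of `T^r` -/
theorem tt_zb (h : PG f U J P Cr δ η ρ) (hM : 1 ≤ M) (hθ0 : 0 ≤ θ) (hθr : θ < r) (hr1 : r < 1) (u : ℕ) : ∃ C ε0 : ℝ, 1 ≤ C ∧ 0 < ε0 ∧
    ∀ {c : ℂ} {ε : ℝ} {χ0 τ : ℂ → ℂ} {α : ℕ → ℂ} {K : ℕ}, TT f U P θ r χ0 α u K τ → c ∈ J → Wt f U J P δ c θ M ε χ0 → ε ≤ ε0 →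
    ‖τ 0 - c‖ ≤ C * ‖deriv χ0 0‖ ∧ ∀ v : ℂ, ‖v‖ < 1 → ‖BB b1 α u v‖ ≤ r → ‖τ v - c‖ ≤ C * ‖deriv χ0 0‖ := by
  have hθ1 : θ < 1 := hθr.trans hr1
  obtain ⟨C, ε0, hC, hε0, hup⟩ := tt_up h hM hθ1 u
  obtain ⟨σ, hσ0, hσ1, hσ⟩ := bb_ex hθ1 u hr1
  obtain ⟨K0, hK1, hK⟩ := gr2 hσ1
  have hK0 : 0 < K0 := by linarith
  have hM0 : 0 < M := by linarith
  have hC0 : 0 < C := by linarith
  refine ⟨K0 * (K0 * C) + M, ε0, by nlinarith [mul_pos hK0 (mul_pos hK0 hC0)], hε0, fun {c ε χ0 τ α K} hT hc hW hε => ?_⟩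
  obtain ⟨a, b, ha, hb1, hb, hab⟩ := hT.y
  have hbσ : ‖b‖ ≤ σ := hσ α hT.al hT.cv b hb1 (hb.trans hθr.le)
  have h0σ : ‖(0 : ℂ)‖ ≤ σ := by
    rw [norm_zero]
    exact hσ0.le
  have haM : ‖χ0 a - c‖ ≤ M * ‖deriv χ0 0‖ := hW.bd a (mem_ball_zero_iff.2 (ha.trans_lt hθ1))
  have h1 := hup hT hc hW hε
  have h2 := (hK τ hT.d hT.i b 0 hbσ h0σ).1
  have key : ∀ v : ℂ, ‖v‖ ≤ σ → ‖τ v - c‖ ≤ (K0 * (K0 * C) + M) * ‖deriv χ0 0‖ := by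
    intro v hv
    have h3 := (hK τ hT.d hT.i v b hv hbσ).2
    have h4 : τ v - c = (τ v - τ b) + (χ0 a - c) := by
      rw [hab]
      ring
    have h5 := norm_add_le (τ v - τ b) (χ0 a - c)
    rw [← h4] at h5
    have h6 : K0 * ‖deriv τ b‖ ≤ K0 * (K0 * (C * ‖deriv χ0 0‖)) :=
      mul_le_mul_of_nonneg_left (h2.trans (mul_le_mul_of_nonneg_left h1 hK0.le)) hK0.le
    have h7 : (K0 * (K0 * C) + M) * ‖deriv χ0 0‖ = K0 * (K0 * (C * ‖deriv χ0 0‖)) + M * ‖deriv χ0 0‖ := by ring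
    rw [h7]
    linarith
  exact ⟨key 0 h0σ, fun v hv hvr => key v (hσ α hT.al hT.cv v hv hvr)⟩

/-- the boundaries cross -/
theorem tt_cr (h : PG f U J P Cr δ η ρ) (hM : 1 ≤ M) (hθ0 : 0 ≤ θ) (hθr : θ < r) (hr1 : r < 1) (u : ℕ) :
    ∃ ε0 : ℝ, 0 < ε0 ∧ ∀ {c : ℂ} {ε : ℝ} {χ0 τ : ℂ → ℂ} {α : ℕ → ℂ} {K : ℕ},
      TT f U P θ r χ0 α u K τ → c ∈ J → Wt f U J P δ c θ M ε χ0 → ε ≤ ε0 →
      ∃ x y : ℂ, ‖x‖ = r ∧ ‖y‖ < 1 ∧ ‖BB b1 α u y‖ = r ∧ τ y = χ0 x := by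
  have hθ1 : θ < 1 := hθr.trans hr1
  have hr0 : 0 < r := hθ0.trans_lt hθr
  have hM0 : 0 < M := by linarith
  obtain ⟨σ, hσ0, hσ1, hσ⟩ := bb_ex hθ1 u hr1
  obtain ⟨C, ε1, hC, hε1, hzb⟩ := tt_zb h hM hθ0 hθr hr1 u
  obtain ⟨d, hd, hno⟩ := noattr h
  have hC0 : 0 < C := by linarith
  refine ⟨min ε1 (d / (64 * C)), lt_min hε1 (by positivity), fun {c ε χ0 τ α K} hT hc hW hε => ?_⟩
  obtain ⟨a, b, ha, hb1, hb, hab⟩ := hT.y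
  obtain ⟨x, hx1, hx, hxn⟩ := hT.z
  have hTs : {v : ℂ | ‖v‖ < 1 ∧ ‖BB b1 α u v‖ < r} ⊆ ball 0 1 := fun v hv => mem_ball_zero_iff.2 hv.1
  have hρ' : ∀ v : ℂ, ‖v‖ < 1 → ‖BB b1 α u v‖ ≤ r → ‖v‖ ≤ σ := fun v => hσ α hT.al hT.cv v
  have hzb' := (hzb hT hc hW (hε.trans (min_le_left _ _))).2
  refine cross2 hT.d hT.i hW.d hW.i (bb_diff hT.al) hr0 hr1 hσ1 hρ' (ha.trans_lt hθr) hb1 (hb.trans_lt hθr)
    hab.symm ?_ ?_ (bb_pre hr1.le hθr hT.al hT.cv)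
  · intro hcon
    have hcT : c ∈ τ '' {v | ‖v‖ < 1 ∧ ‖BB b1 α u v‖ < r} := hcon ⟨0, mem_ball_self hr0, hW.c0⟩
    refine hno (τ '' {v | ‖v‖ < 1 ∧ ‖BB b1 α u v‖ < r}) K c
      (Pool.Agent.H39.HO.inj_open isOpen_ball hT.d hT.i hTs (bb_open hT.al r)) hcT hc ?_ hT.K1 ?_
    · rintro _ ⟨v, hv, rfl⟩
      rw [mem_ball, dist_eq_norm]
      have h1 := hzb' v hv.1 hv.2.le
      have h3 := wt_sz (χ := fun _ => χ0) hW
      have h4 : ε ≤ d / (64 * C) := hε.trans (min_le_right _ _)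
      rw [le_div_iff₀ (by positivity)] at h4
      have h5 : C * ‖deriv χ0 0‖ ≤ C * (16 * ε) := mul_le_mul_of_nonneg_left h3 hC0.le
      have h8 : C * (16 * ε) = ε * (64 * C) / 4 := by ring
      linarith
    · rintro _ ⟨v, hv, rfl⟩
      rw [hT.st v (hTs hv)]
      exact hcon ⟨_, mem_ball_zero_iff.2 hv.2, rfl⟩
  · intro hcon
    exact hxn (hcon ⟨x, ⟨hx1, hx⟩, rfl⟩)

end Pool.Agent.H66.SP
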