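import Pool.Agent.H66.SP.Bas
import Pool.Agent.H64.XG.Tqx
import Pool.Agent.H64.XG.Defs
import Pool.Agent.H3.SZ.Tow
import Pool.Agent.H66.SP.SZ_Tow
import Pool.Agent.H3.SZ2.Tt
import Pool.Agent.H66.SP.SZ2_Tt
import Pool.Agent.H66.SP.UD_DD

/-!
# XG_Tqx: port of H64.XG.Tqx to the setting PG, FG (H66/SP/Defs)
-/

set_option autoImplicit false

open Filter Topology Metric Set MeasureTheory

namespace Pool.Agent.H66.SP

open Pool.Agent.H64.XG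

open Pool.Agent.H56.UD
open Pool.Agent.H66.GEO (Bl BB)
open Pool.Agent.H64.XL (b1 Wt)
open Pool.Agent.H66.DIM (Mn)

variable {f : ℂ → ℂ} {U J M P Cr : Set ℂ} {δ : ℝ} {η : ℂ → ℂ → ℂ} {ρ : ℝ} {c z : ℂ} {θ r Mc : ℝ} {s : ℕ} {k t : ℕ → ℕ}
  {cc α x : ℕ → ℂ} {χ γ : ℕ → ℂ → ℂ}

theorem th_diff (h : PG f U J P Cr δ η ρ) (hT : Tg f U M P Cr z θ r s k t cc α x χ γ) {u τ : ℕ} (hu : u < s)
    (h1 : t (u + 1) < τ) (h2 : τ ≤ t u) : DifferentiableOn ℂ (ϑ f t γ τ u) (ball 0 1) := by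
  have h3 := hT.kp u hu
  have key : ∀ a : ℕ, a ≤ k u - 1 → DifferentiableOn ℂ (fun v => f^[a] (γ u v)) (ball 0 1) := by
    intro a
    induction a with
    | zero => intro _; exact hT.gd u hu
    | succ a ih =>
      intro ha
      have h4 : (fun v => f^[a + 1] (γ u v)) = fun v => f (f^[a] (γ u v)) := by
        funext v
        rw [Function.iterate_succ_apply']
      rw [h4]
      exact h.fd.comp (ih (by omega)) fun v hv => (hT.gs u hu v hv).1 a (by omega)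
  exact key (τ - t (u + 1) - 1) (by omega)

/-- an orbit in `P` stays in `P` -/
theorem it_P (h : PG f U J P Cr δ η ρ) {w : ℂ} (hw : w ∈ P) : ∀ n : ℕ, f^[n] w ∈ P
  | 0 => hw
  | n + 1 => by
    rw [Function.iterate_succ_apply']
    exact h.Pf _ (it_P h hw n)

theorem tq_of (h : PG f U J P Cr δ η ρ) (_hM : Mn f P M) (hT : Tg f U M P Cr z θ r s k t cc α x χ γ) {l m : ℕ} (hl0 : 0 < l) (hl : l < m)
    (hm : m ≤ s) (hb : cc l = cc m) : ∃ w : ℂ, Tq f U P θ r (Nn t m l) (t l - t m) α (χ 0)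
      (ϑ f t γ (t m + (t 0 - t l)) (Nn t m l)) (x (Nn t m l)) w (BB b1 α l 0) ∧ BB b1 α (Nn t m l) w = BB b1 α m 0 := by
  obtain ⟨hu, h1, h2⟩ := nn_spec hT hl0 hl hm
  obtain ⟨u, hudef⟩ : ∃ u, u = Nn t m l := ⟨_, rfl⟩
  obtain ⟨τ, hτ⟩ : ∃ τ, τ = t m + (t 0 - t l) := ⟨_, rfl⟩
  rw [← hudef] at hu h1 h2 ⊢
  rw [← hτ] at h1 h2 ⊢
  have hus : u < s := by omega
  have htl : t m < t l := tg_t hT hl hm
  have htl0 : t l < t 0 := tg_t hT hl0 (by omega)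
  have htu : t u ≤ t 0 := by
    rcases Nat.eq_zero_or_pos u with h5 | h5
    · rw [h5]
    · exact (tg_t hT h5 hus.le).le
  have h0 : (0 : ℂ) ∈ ball (0 : ℂ) 1 := mem_ball_self one_pos
  have hbm : BB b1 α u (Bc α u (m - u) 0) = BB b1 α m 0 := by
    rw [bb_bc]
    congr 1
    omega
  refine ⟨Bc α u (m - u) 0, ⟨th_diff h hT hus h1 h2, th_inj hT hus h1 h2, by omega, fun v hv => ?_, fun i hi => hT.al i (by omega),
    fun i hi => hT.cv i (by omega), fun v hv hvθ hvP => ?_, ⟨(hT.tm u hus.le).1, (hT.tm u hus.le).2.1, ?_⟩, ?_, ?_, ?_, ?_⟩, hbm⟩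
  · have h3 := th_up hT hus h1 h2 hv
    have h4 := tg_up hT (u := 0) (j := u) (by omega) v hv
    rw [zero_add, bc_zero] at h4
    have h5 : t l - t m = (t 0 - t u) + (t u - τ) := by omega
    rw [h5]
    constructor
    · intro j hj
      rcases Nat.lt_or_ge j (t u - τ) with h6 | h6
      · exact h3.1 j h6
      · obtain ⟨j', rfl⟩ := Nat.exists_eq_add_of_le' h6
        rw [Function.iterate_add_apply, h3.2]
        exact h4.1 j' (by omega)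
    · rw [Function.iterate_add_apply, h3.2]
      exact h4.2
  · refine hT.of u hus.le v hv hvθ ?_
    rw [← (th_up hT hus h1 h2 hv).2]
    exact it_P h hvP _
  · have h3 : ϑ f t γ τ u (x u) = f^[τ] z := by
      unfold ϑ
      rw [hT.tg u hus, ← Function.iterate_add_apply]
      congr 1
      have : τ - t (u + 1) - 1 + (t (u + 1) + 1) = τ := by omega
      rw [this]
    rw [h3]
    exact hT.fe τ (by omega)
  · exact bc_lt (fun i hi => hT.al i (by omega)) 0 h0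
  · rw [hbm]
    exact bb_zero hT (by omega) hm
  · exact bb_zero hT hl0 (by omega)
  · rw [← th_of hT hu hm h1 h0]
    have h3 := (tg_up hT (u := 0) (j := l) (by omega) 0 h0).2
    rw [zero_add, bc_zero] at h3
    rw [← h3, (hT.c0 m hm).1, (hT.c0 l (by omega)).1, hb]
    congr 1
    have : τ - t m = t 0 - t l := by omega
    rw [this]

/-- sizes -/
theorem tq_sz (h : PG f U J P Cr δ η ρ) (hM : 1 ≤ Mc) (hθ0 : 0 < θ) (hθr : θ < r) (hr1 : r < 1) (u : ℕ) :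
    ∃ κ C ε0 : ℝ, 0 < κ ∧ 0 < ε0 ∧ ∀ {c : ℂ} {ε : ℝ} {kk : ℕ} {α : ℕ → ℂ} {χ0 Θ : ℂ → ℂ} {x w w0 : ℂ},
      Tq f U P θ r u kk α χ0 Θ x w w0 → c ∈ J → Wt f U J P δ c θ Mc ε χ0 → ε ≤ ε0 →
      κ * ‖deriv χ0 0‖ ≤ ‖deriv Θ 0‖ ∧ ‖deriv Θ 0‖ ≤ C * ‖deriv χ0 0‖ ∧ ‖Θ 0 - c‖ ≤ C * ‖deriv χ0 0‖ := by
  obtain ⟨κ, hκ, h1⟩ := Pool.Agent.H3.SZ2.tt_lo hθ0.le hθr hr1 u
  obtain ⟨C, ε0, hC, hε0, h2⟩ := Pool.Agent.H66.SP.tt_up h hM (hθr.trans hr1) u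
  obtain ⟨C', ε0', hC', hε0', h3⟩ := Pool.Agent.H66.SP.tt_zb h hM hθ0.le hθr hr1 u
  refine ⟨κ, max C C', min ε0 ε0', hκ, lt_min hε0 hε0', fun {c ε kk α χ0 Θ x w w0} hq hc hW hε => ?_⟩
  have hTT := tt_tq hq
  refine ⟨h1 hTT hW.d hW.i, (h2 hTT hc hW (hε.trans (min_le_left _ _))).trans ?_,
    ((h3 hTT hc hW (hε.trans (min_le_right _ _))).1).trans ?_⟩
  · exact mul_le_mul_of_nonneg_right (le_max_left _ _) (norm_nonneg _)
  · exact mul_le_mul_of_nonneg_right (le_max_right _ _) (norm_nonneg _)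

/-- crossing -/
theorem tq_cr (h : PG f U J P Cr δ η ρ) (hM : 1 ≤ Mc) (hθ0 : 0 < θ) (hθr : θ < r) (hr1 : r < 1) (u : ℕ) :
    ∃ ε0 : ℝ, 0 < ε0 ∧ ∀ {c : ℂ} {ε : ℝ} {kk : ℕ} {α : ℕ → ℂ} {χ0 Θ : ℂ → ℂ} {x w w0 : ℂ},
      Tq f U P θ r u kk α χ0 Θ x w w0 → c ∈ J → Wt f U J P δ c θ Mc ε χ0 → ε ≤ ε0 →
      ∃ x' y' : ℂ, ‖x'‖ = r ∧ ‖y'‖ < 1 ∧ ‖BB b1 α u y'‖ = r ∧ Θ y' = χ0 x' := by
  obtain ⟨ε0, hε0, h1⟩ := Pool.Agent.H66.SP.tt_cr h hM hθ0.le hθr hr1 u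
  exact ⟨ε0, hε0, fun {c ε kk α χ0 Θ x w w0} hq hc hW hε => h1 (tt_tq hq) hc hW hε⟩

end Pool.Agent.H66.SP
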