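import Pool.Agent.H66.SP.Defs
import Pool.Agent.H66.SP.LB_If
import Pool.Agent.H15.TY.Llm
import Pool.Agent.H66.DIM.If
import Pool.Agent.H66.GEO.Bas

/-!
# XG_TyC: port of H41.XG.TyC to the setting PG, FG (H66/SP/Defs)

The pull backs are small: hypothesis `hσt` (`σ n → 0`), `typS` for small pull backs.
-/

set_option autoImplicit false

open Filter Topology Metric Set MeasureTheory

namespace Pool.Agent.H66.SP

open Pool.Agent.H56.UD (dm Fn Dn Pn Ph Gd Sg)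
open Pool.Agent.H56.WP (Wd)
open Pool.Agent.H15.TY (llm)
open Pool.Agent.H43.UB (ph_closed ph_off Fh)
open Pool.Agent.H64.XL (LT Lr)
open Pool.Agent.H41.XF (gb uq fh_eq fh_lift_eq sg_open fh_diff)
open Pool.Agent.H66.GEO (St st_open st_conv)
open Pool.Agent.H66.DIM (Mn)
open Pool.Agent.H44.LA (Rc Un)

variable {f : ℂ → ℂ} {U J P M' Cr E : Set ℂ} {δ b0 : ℝ} {η : ℂ → ℂ → ℂ} {ρ : ℝ} {X hh μ : ℂ → ℂ} {c z : ℂ}

private theorem exp_ann {a b : ℝ} (ha : 0 < a) (hb : 0 < b) {t : ℂ} (ht : t ∈ St (Real.log a) (Real.log b)) :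
    a < ‖Complex.exp t‖ ∧ ‖Complex.exp t‖ < b := by
  rw [Complex.norm_exp]
  exact ⟨(Real.log_lt_iff_lt_exp ha).1 ht.1, (Real.lt_log_iff_exp_lt hb).1 ht.2⟩

/-- a lift has nonvanishing derivative -/
private theorem lift_der {𝒰 : Ultrafilter ℕ} {F : ℕ → ℂ → ℂ} {D P : ℕ → Set ℂ} (hT : LT 𝒰 F D P) {S : Set ℂ}
    (So : IsOpen S) {H Q : ℂ → ℂ} (hQ : DifferentiableOn ℂ Q S) (hg : ∀ u ∈ S, Gd 𝒰 F D P (H u) (Q u))
    {u : ℂ} (hu : u ∈ S) (hH : deriv H u ≠ 0) : deriv Q u ≠ 0 := by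
  intro h0
  apply hH
  have h1 : HasDerivAt Q (deriv Q u) u := (hQ.differentiableAt (So.mem_nhds hu)).hasDerivAt
  have hs : Q u ∈ Sg 𝒰 F D P := ⟨_, hg u hu⟩
  have h2 : HasDerivAt (Fh 𝒰 F D P) (deriv (Fh 𝒰 F D P) (Q u)) (Q u) :=
    ((fh_diff hT).differentiableAt ((sg_open hT).mem_nhds hs)).hasDerivAt
  have h3 := h2.comp u h1
  have h4 : (Fh 𝒰 F D P ∘ Q) =ᶠ[𝓝 u] H := by
    filter_upwards [So.mem_nhds hu] with v hv
    exact fh_eq hT (hg v hv)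
  have h5 := h3.congr_of_eventuallyEq h4.symm
  rw [h5.deriv, h0, mul_zero]

/-- the critical points which enter a small ball at `c` are in `M'` -/
private theorem ent (h : PG f U J P Cr δ η ρ) (hM : Mn f P M') (hCP : Cr ⊆ P)
    (hin : ∀ c' ∈ Cr, ∀ j : ℕ, f^[j] c' ∈ M' → c' ∈ M') (hcM : c ∈ M') :
    ∃ e : ℝ, 0 < e ∧ ∀ c' ∈ Cr, ∀ j : ℕ, f^[j] c' ∈ ball c e → c' ∈ M' := by
  have h1 : c ∈ (P \ M')ᶜ := fun h2 => h2.2 hcM
  obtain ⟨e, he, he2⟩ := Metric.isOpen_iff.1 hM.off.isOpen_compl c h1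
  have hPf : ∀ (j : ℕ) (y : ℂ), y ∈ P → f^[j] y ∈ P := by
    intro j
    induction j with
    | zero => exact fun y hy => hy
    | succ j ih =>
      intro y hy
      rw [Function.iterate_succ_apply]
      exact ih _ (h.Pf y hy)
  refine ⟨e, he, fun c' hc' j hj => hin c' hc' j ?_⟩
  by_contra h3
  exact he2 hj ⟨hPf j c' (hCP hc'), h3⟩

theorem ty_core (h : PG f U J P Cr δ η ρ) (hX : FG f U J E δ X hh μ b0) (hM : Mn f P M') (hCP : Cr ⊆ P)
    (hin : ∀ c' ∈ Cr, ∀ j : ℕ, f^[j] c' ∈ M' → c' ∈ M') (hz : z ∈ E) (hrc : ∀ b ∈ Cr, b ∈ M' → Rc f b z) (hcM : c ∈ M')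
    {𝒰 : Ultrafilter ℕ} {m : ℕ → ℕ} {R σ : ℕ → ℂ} (hR : ∀ n, R n ≠ 0) (hRt : Tendsto R (𝒰 : Filter ℕ) (𝓝 0))
    (hσt : Tendsto σ (𝒰 : Filter ℕ) (𝓝 0))
    (hT : LT 𝒰 (Fn f (fun _ => z) m (fun _ => c) R σ) (Dn f U J δ (fun _ => z) m σ) (Pn P (fun _ => c) R))
    {φ G : ℂ → ℂ} {d : ℝ} (hd0 : 0 < d) (hd1 : d < 1) (dφ : DifferentiableOn ℂ φ (ball 0 1)) (iφ : InjOn φ (ball 0 1))
    (bφ : Bornology.IsBounded (φ '' ball 0 1)) {x0 : ℂ} (hx0 : ‖x0‖ < 1)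
    (hL : Lr 𝒰 (Fn f (fun _ => z) m (fun _ => c) R σ) (Dn f U J δ (fun _ => z) m σ) (Pn P (fun _ => c) R)
      (St (Real.log (1 - d)) 0) (fun t => φ (Complex.exp t)) G)
    (hper : ∀ t ∈ St (Real.log (1 - d)) 0, G (t + 4 * Real.pi * Complex.I) = G t) :
    ∃ (ρ' θ A a : ℝ) (e : ℂ), ‖x0‖ < ρ' ∧ ρ' < 1 ∧ 0 < θ ∧ θ < 1 ∧ ‖e‖ < 1 ∧ 0 < a ∧ ∀ ε1 : ℝ, 0 < ε1 →
      ∀ᶠ n in (𝒰 : Filter ℕ), ∃ g : ℂ → ℂ, Wd f U J P δ 0 θ c ε1 (fun v => c + R n * φ (ρ' * v)) ∧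
        Un f U J δ (m n) (fun v => c + R n * φ (ρ' * v)) g ∧ ‖g e - z‖ ≤ A * ‖σ n‖ ∧ a * ‖σ n‖ ≤ ‖deriv g e‖ ∧
          ‖deriv g e‖ ≤ A * ‖σ n‖ := by
  obtain ⟨B, hB⟩ := bφ.exists_norm_le
  have hBx : ∀ x : ℂ, ‖x‖ < 1 → ‖φ x‖ ≤ B := fun x hx => hB _ ⟨x, mem_ball_zero_iff.2 hx, rfl⟩
  have hB0 : 0 ≤ B := (norm_nonneg _).trans (hBx 0 (by simp))
  -- the radii
  obtain ⟨ρ', h1, hρ1⟩ := exists_between (max_lt (by linarith : 1 - d < 1) hx0)
  have hρd : 1 - d < ρ' := (le_max_left _ _).trans_lt h1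
  have hρx : ‖x0‖ < ρ' := (le_max_right _ _).trans_lt h1
  obtain ⟨θ0, hθd, hθρ⟩ := exists_between hρd
  have hd1' : 0 < 1 - d := by linarith
  have hθ00 : 0 < θ0 := hd1'.trans hθd
  have hρ0 : 0 < ρ' := hθ00.trans hθρ
  have hρc : (ρ' : ℂ) ≠ 0 := Complex.ofReal_ne_zero.2 hρ0.ne'
  set θ : ℝ := θ0 / ρ' with hθdef
  have hθ : 0 < θ := div_pos hθ00 hρ0
  have hθ1 : θ < 1 := (div_lt_one hρ0).2 hθρ
  -- the strip
  have hlog : Real.log θ = Real.log θ0 - Real.log ρ' := Real.log_div hθ00.ne' hρ0.ne'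
  set S : Set ℂ := St (Real.log θ) 0 with hSdef
  have hSo : IsOpen S := st_open _ _
  have hSc : Convex ℝ S := st_conv _ _
  have hshift : ∀ t ∈ S, t + (Real.log ρ' : ℂ) ∈ St (Real.log θ0) (Real.log ρ') := by
    intro t ht
    have e : (t + (Real.log ρ' : ℂ)).re = t.re + Real.log ρ' := by simp
    refine ⟨?_, ?_⟩
    · rw [e]; have := ht.1; rw [hlog] at this; linarith
    · rw [e]; have := ht.2; linarith
  have hsub : ∀ t ∈ St (Real.log θ0) (Real.log ρ'), t ∈ St (Real.log (1 - d)) 0 := by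
    intro t ht
    exact ⟨(Real.log_lt_log hd1' hθd).trans ht.1, ht.2.trans (Real.log_neg hρ0 hρ1)⟩
  have hexps : ∀ t : ℂ, Complex.exp (t + (Real.log ρ' : ℂ)) = ρ' * Complex.exp t := by
    intro t
    rw [Complex.exp_add, ← Complex.ofReal_exp, Real.exp_log hρ0]
    ring
  have hann : ∀ t ∈ S, θ0 < ‖(ρ' : ℂ) * Complex.exp t‖ ∧ ‖(ρ' : ℂ) * Complex.exp t‖ < ρ' := by
    intro t ht
    rw [← hexps]
    exact exp_ann hθ00 hρ0 (hshift t ht)
  set H : ℂ → ℂ := fun t => φ (ρ' * Complex.exp t) with hHdef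
  have hHs : ∀ t, H t = φ (Complex.exp (t + (Real.log ρ' : ℂ))) := by
    intro t
    rw [hexps]
  have hmem1 : ∀ t ∈ S, (ρ' : ℂ) * Complex.exp t ∈ ball (0 : ℂ) 1 := by
    intro t ht
    rw [mem_ball_zero_iff]
    exact (hann t ht).2.trans hρ1
  have hHd : DifferentiableOn ℂ H S :=
    dφ.comp (by fun_prop : DifferentiableOn ℂ (fun t : ℂ => (ρ' : ℂ) * Complex.exp t) S) hmem1
  have hHder : ∀ u ∈ S, deriv H u ≠ 0 := by
    intro u hu
    have e1 : HasDerivAt (fun t : ℂ => (ρ' : ℂ) * Complex.exp t) ((ρ' : ℂ) * Complex.exp u) u :=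
      (Complex.hasDerivAt_exp u).const_mul _
    have e2 : HasDerivAt φ (deriv φ (ρ' * Complex.exp u)) (ρ' * Complex.exp u) :=
      (dφ.differentiableAt (isOpen_ball.mem_nhds (hmem1 u hu))).hasDerivAt
    have e3 := e2.comp u e1
    have e4 : deriv H u = deriv φ (ρ' * Complex.exp u) * (ρ' * Complex.exp u) := e3.deriv
    rw [e4]
    refine mul_ne_zero ?_ (mul_ne_zero hρc (Complex.exp_ne_zero u))
    exact Pool.Agent.H43.UB.uh_der isOpen_ball dφ iφ (hmem1 u hu)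
  obtain ⟨hL1, hL2, hL3, hL4, hL5, hL6⟩ := hL
  -- the collar is off the limit set
  have hoffx : ∀ x : ℂ, 1 - d < ‖x‖ → ‖x‖ < 1 → φ x ∉ Ph 𝒰 (Pn P (fun _ => c) R) := by
    intro x hx hx1
    have hxne : x ≠ 0 := norm_pos_iff.1 (hd1'.trans hx)
    have hlx : Complex.log x ∈ St (Real.log (1 - d)) 0 := by
      have e : (Complex.log x).re = Real.log ‖x‖ := Complex.log_re x
      refine ⟨?_, ?_⟩
      · rw [e]; exact Real.log_lt_log hd1' hx
      · rw [e]; exact Real.log_neg (norm_pos_iff.2 hxne) hx1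
    have := (hL6 _ hlx).1
    simp only [Complex.exp_log hxne] at this
    exact this
  set K : Set ℂ := φ '' {x : ℂ | θ0 ≤ ‖x‖ ∧ ‖x‖ ≤ ρ'} with hKdef
  have hKc : IsCompact K := by
    have hc1 : IsCompact {x : ℂ | θ0 ≤ ‖x‖ ∧ ‖x‖ ≤ ρ'} := by
      refine (isCompact_closedBall (0 : ℂ) ρ').of_isClosed_subset ?_ ?_
      · exact (isClosed_le continuous_const continuous_norm).inter (isClosed_le continuous_norm continuous_const)
      · intro x hx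
        rw [mem_closedBall_zero_iff]
        exact hx.2
    refine hc1.image_of_continuousOn (dφ.continuousOn.mono ?_)
    intro x hx
    rw [mem_ball_zero_iff]
    exact hx.2.trans_lt hρ1
  have hKoff : Disjoint K (Ph 𝒰 (Pn P (fun _ => c) R)) := by
    rw [Set.disjoint_left]
    rintro _ ⟨x, hx, rfl⟩
    exact hoffx x (hθd.trans_le hx.1) (hx.2.trans_lt hρ1)
  have hKn := ph_off hKc hKoff
  have hHK : ∀ u ∈ S, H u ∈ K := fun u hu => ⟨_, ⟨(hann u hu).1.le, (hann u hu).2.le⟩, rfl⟩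
  -- base point
  set t0 : ℂ := ((Real.log θ / 2 : ℝ) : ℂ) with ht0def
  have hlθ : Real.log θ < 0 := Real.log_neg hθ hθ1
  have ht0 : t0 ∈ S := by
    refine ⟨?_, ?_⟩
    · rw [ht0def, Complex.ofReal_re]; linarith
    · rw [ht0def, Complex.ofReal_re]; linarith
  have ht04 : t0 + 4 * Real.pi * Complex.I ∈ S := by
    have e : (t0 + 4 * Real.pi * Complex.I).re = t0.re := by simp
    exact ⟨by rw [e]; exact ht0.1, by rw [e]; exact ht0.2⟩
  have hGd : ∀ u ∈ S, Gd 𝒰 (Fn f (fun _ => z) m (fun _ => c) R σ) (Dn f U J δ (fun _ => z) m σ) (Pn P (fun _ => c) R)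
      (H u) (G (u + (Real.log ρ' : ℂ))) := by
    intro u hu
    rw [hHs]
    exact hL6 _ (hsub _ (hshift u hu))
  -- the lifts
  obtain ⟨Q, Q0, hQ, hQ0d, hQu, hQ0, hQg⟩ := llm hT hSc hSo (Hn := fun _ => H) (H := H) (M := B + 1)
    (by
      filter_upwards [hKn] with n hn
      refine ⟨hHd, fun u hu => ⟨hHder u hu, ?_, ?_⟩⟩
      · have := hBx _ (mem_ball_zero_iff.1 (hmem1 u hu))
        exact lt_of_le_of_lt this (by linarith)
      · exact fun hp => Set.disjoint_left.1 hn (hHK u hu) hp)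
    (by
      intro V hV x hx
      exact ⟨S, self_mem_nhdsWithin, Eventually.of_forall fun n y _ => refl_mem_uniformity hV⟩)
    (fun u hu => (hGd u hu).1) ht0 (hGd t0 ht0)
  -- `Q0` is `G` shifted
  have hGsd : DifferentiableOn ℂ (fun u : ℂ => G (u + (Real.log ρ' : ℂ))) S :=
    hL5.comp (by fun_prop : DifferentiableOn ℂ (fun u : ℂ => u + (Real.log ρ' : ℂ)) S) fun u hu => hsub _ (hshift u hu)
  have hEq : EqOn Q0 (fun u : ℂ => G (u + (Real.log ρ' : ℂ))) S :=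
    fh_lift_eq hT hSo hSc.isPreconnected hQ0d hGsd
      (fun u hu => ⟨⟨_, hQg u hu⟩, fh_eq hT (hQg u hu)⟩)
      (fun u hu => ⟨⟨_, hGd u hu⟩, fh_eq hT (hGd u hu)⟩) hHder ht0 hQ0
  have hcl : Q0 (t0 + 4 * Real.pi * Complex.I) = Q0 t0 := by
    rw [hEq ht04, hEq ht0]
    have e : t0 + 4 * Real.pi * Complex.I + (Real.log ρ' : ℂ) = (t0 + (Real.log ρ' : ℂ)) + 4 * Real.pi * Complex.I := by
      ring
    simp only [e]
    exact hper _ (hsub _ (hshift t0 ht0))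
  have hQt : Tendsto (fun n => Q n t0) (𝒰 : Filter ℕ) (𝓝 (Q0 t0)) := hQu.tendsto_at ht0
  have hQt4 : Tendsto (fun n => Q n (t0 + 4 * Real.pi * Complex.I)) (𝒰 : Filter ℕ) (𝓝 (Q0 t0)) := by
    rw [← hcl]
    exact hQu.tendsto_at ht04
  have hH4 : H (t0 + 4 * Real.pi * Complex.I) = H t0 := by
    simp only [hHdef]
    congr 2
    rw [Complex.exp_add]
    have : Complex.exp (4 * Real.pi * Complex.I) = 1 := by
      rw [show (4 * Real.pi * Complex.I : ℂ) = ((2 : ℤ) : ℂ) * (2 * Real.pi * Complex.I) by push_cast; ring]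
      exact Complex.exp_int_mul_two_pi_mul_I 2
    rw [this, mul_one]
  have hclose : ∀ᶠ n in (𝒰 : Filter ℕ), Q n (t0 + 4 * Real.pi * Complex.I) = Q n t0 := by
    refine uq hT (w := H t0) (s := Q0 t0) (hQg t0 ht0) hQt4 hQt ?_
    filter_upwards [hQ] with n hn
    rw [(hn.2 _ ht04).2, (hn.2 _ ht0).2, hH4]
  -- the derivative
  have hD0 : deriv Q0 t0 ≠ 0 := lift_der hT hSo hQ0d hQg ht0 (hHder t0 ht0)
  have hDu : Tendsto (fun n => deriv (Q n) t0) (𝒰 : Filter ℕ) (𝓝 (deriv Q0 t0)) :=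
    (hQu.deriv (hQ.mono fun n hn => hn.1) hSo).tendsto_at ht0
  set M : ℝ := (‖Q0 t0‖ + 1) / (‖deriv Q0 t0‖ / 2) with hMdef
  have hDn : 0 < ‖deriv Q0 t0‖ := norm_pos_iff.2 hD0
  have hM0 : 0 ≤ M := by positivity
  have hratio : ∀ᶠ n in (𝒰 : Filter ℕ), ‖Q n t0‖ ≤ M * ‖deriv (Q n) t0‖ := by
    have e1 : ∀ᶠ n in (𝒰 : Filter ℕ), ‖Q n t0‖ < ‖Q0 t0‖ + 1 :=
      hQt.norm.eventually (gt_mem_nhds (by linarith))
    have e2 : ∀ᶠ n in (𝒰 : Filter ℕ), ‖deriv Q0 t0‖ / 2 < ‖deriv (Q n) t0‖ :=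
      hDu.norm.eventually (lt_mem_nhds (by linarith))
    filter_upwards [e1, e2] with n h1 h2
    calc ‖Q n t0‖ ≤ ‖Q0 t0‖ + 1 := h1.le
      _ = M * (‖deriv Q0 t0‖ / 2) := by rw [hMdef]; field_simp
      _ ≤ M * ‖deriv (Q n) t0‖ := mul_le_mul_of_nonneg_left h2.le hM0
  -- TYPES
  have hexp0 : ‖Complex.exp t0‖ = Real.exp (Real.log θ / 2) := by
    rw [Complex.norm_exp, ht0def, Complex.ofReal_re]
  have hθa : θ < Real.exp (Real.log θ / 2) := by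
    rw [← Real.log_lt_iff_lt_exp hθ]
    linarith
  have hθb : Real.exp (Real.log θ / 2) < 1 := by
    rw [Real.exp_lt_one_iff]
    linarith
  have he0 : 0 < Real.exp (Real.log θ / 2) := Real.exp_pos _
  obtain ⟨e1, he1, hent⟩ := ent h hM hCP hin hcM
  obtain ⟨ε0, hε0, htyp⟩ := Pool.Agent.H66.SP.typS h hX hz (θ := θ) (M := M)
    (ρa := Real.exp (Real.log θ / 2)) (ρb := Real.exp (Real.log θ / 2)) hθ hθ1 hθa hθb
  -- the bounds
  have hup : ∀ᶠ n in (𝒰 : Filter ℕ), ‖Q n t0‖ ≤ ‖Q0 t0‖ + 1 ∧ ‖deriv Q0 t0‖ / 2 ≤ ‖deriv (Q n) t0‖ ∧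
      ‖deriv (Q n) t0‖ ≤ ‖deriv Q0 t0‖ + 1 := by
    have e1 : ∀ᶠ n in (𝒰 : Filter ℕ), ‖Q n t0‖ < ‖Q0 t0‖ + 1 :=
      hQt.norm.eventually (gt_mem_nhds (by linarith))
    have e2 : ∀ᶠ n in (𝒰 : Filter ℕ), ‖deriv Q0 t0‖ / 2 < ‖deriv (Q n) t0‖ :=
      hDu.norm.eventually (lt_mem_nhds (by linarith))
    have e3 : ∀ᶠ n in (𝒰 : Filter ℕ), ‖deriv (Q n) t0‖ < ‖deriv Q0 t0‖ + 1 :=
      hDu.norm.eventually (gt_mem_nhds (by linarith))
    filter_upwards [e1, e2, e3] with n h1 h2 h3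
    exact ⟨h1.le, h2.le, h3.le⟩
  refine ⟨ρ', θ, max (‖Q0 t0‖ + 1) ((‖deriv Q0 t0‖ + 1) / Real.exp (Real.log θ / 2)),
    ‖deriv Q0 t0‖ / 2 / Real.exp (Real.log θ / 2), Complex.exp t0, hρx, hρ1, hθ, hθ1, by rw [hexp0]; exact hθb,
    by positivity, ?_⟩
  intro ε1 hε1
  -- small scale
  have hεm : 0 < min ε1 (min ε0 e1) := lt_min hε1 (lt_min hε0 he1)
  have hsmall : ∀ᶠ n in (𝒰 : Filter ℕ), ‖R n‖ * B < min δ (min ε1 (min ε0 e1)) := by
    have e1 : Tendsto (fun n => ‖R n‖ * B) (𝒰 : Filter ℕ) (𝓝 0) := by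
      have := hRt.norm.mul_const B
      simpa using this
    exact e1.eventually (gt_mem_nhds (lt_min h.hδ hεm))
  have hσs : ∀ᶠ n in (𝒰 : Filter ℕ), ‖σ n‖ * (‖deriv Q0 t0‖ + 1) < ε0 := by
    have e1 : Tendsto (fun n => ‖σ n‖ * (‖deriv Q0 t0‖ + 1)) (𝒰 : Filter ℕ) (𝓝 0) := by
      have := hσt.norm.mul_const (‖deriv Q0 t0‖ + 1)
      simpa using this
    exact e1.eventually (gt_mem_nhds hε0)
  filter_upwards [hKn, hQ, hclose, hratio, hsmall, hup, hσs] with n hn1 hn2 hn3 hn4 hn5 hn6 hn7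
  have hcJ : c ∈ J := h.PJ (hM.sub hcM)
  set Φ : ℂ → ℂ := fun v => c + R n * φ (ρ' * v) with hΦdef
  have hρv : ∀ v ∈ ball (0 : ℂ) 1, ‖(ρ' : ℂ) * v‖ < ρ' := by
    intro v hv
    rw [mem_ball_zero_iff] at hv
    rw [norm_mul, Complex.norm_real, Real.norm_eq_abs, abs_of_pos hρ0]
    nlinarith
  have hρv1 : ∀ v ∈ ball (0 : ℂ) 1, (ρ' : ℂ) * v ∈ ball (0 : ℂ) 1 := by
    intro v hv
    rw [mem_ball_zero_iff]
    exact (hρv v hv).trans hρ1
  have hΦn : ∀ v ∈ ball (0 : ℂ) 1, ‖Φ v - c‖ < min δ (min ε1 (min ε0 e1)) := by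
    intro v hv
    have e : Φ v - c = R n * φ (ρ' * v) := by simp [hΦdef]
    rw [e, norm_mul]
    refine lt_of_le_of_lt (mul_le_mul_of_nonneg_left (hBx _ (mem_ball_zero_iff.1 (hρv1 v hv))) (norm_nonneg _)) hn5
  have hWd : ∀ ε' : ℝ, min ε1 (min ε0 e1) ≤ ε' → Wd f U J P δ 0 θ c ε' Φ := by
    intro ε' hε'
    refine ⟨?_, ?_, ?_, ?_⟩
    · refine DifferentiableOn.const_add _ (DifferentiableOn.const_mul ?_ _)
      exact dφ.comp (by fun_prop : DifferentiableOn ℂ (fun v : ℂ => (ρ' : ℂ) * v) (ball 0 1)) hρv1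
    · intro v hv w hw hvw
      have e1 : R n * φ (ρ' * v) = R n * φ (ρ' * w) := by
        simpa [hΦdef] using hvw
      have e2 := mul_left_cancel₀ (hR n) e1
      exact mul_left_cancel₀ hρc (iφ (hρv1 v hv) (hρv1 w hw) e2)
    · intro v hv
      have e1 := hΦn v hv
      refine ⟨⟨fun j hj => absurd hj (Nat.not_lt_zero j), ?_⟩, ?_⟩
      · rw [mem_thickening_iff]
        exact ⟨c, hcJ, by
          rw [Function.iterate_zero, id, dist_eq_norm]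
          exact e1.trans_le (min_le_left _ _)⟩
      · rw [Function.iterate_zero, id, mem_ball_iff_norm]
        exact (e1.trans_le (min_le_right _ _)).trans_le hε'
    · intro v hv hv1 hP
      rw [Function.iterate_zero, id] at hP
      have hvK : φ (ρ' * v) ∈ K := by
        refine ⟨_, ⟨?_, ?_⟩, rfl⟩
        · rw [norm_mul, Complex.norm_real, Real.norm_eq_abs, abs_of_pos hρ0]
          have := (div_lt_iff₀ hρ0).1 hv
          linarith
        · exact (hρv v (mem_ball_zero_iff.2 hv1)).le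
      exact Set.disjoint_left.1 hn1 hvK hP
  -- the finite lift
  set q : ℂ → ℂ := fun t => z + σ n * Q n t with hqdef
  have hqd : DifferentiableOn ℂ q (St (Real.log θ) 0) := (hn2.1.const_mul _).const_add _
  have hqv : ∀ t ∈ St (Real.log θ) 0, q t ∈ dm f U J δ (m n) ∧ f^[m n] (q t) = Φ (Complex.exp t) := by
    intro t ht
    obtain ⟨e1, e2⟩ := hn2.2 t ht
    refine ⟨e1, ?_⟩
    have e3 : (f^[m n] (z + σ n * Q n t) - c) / R n = φ (ρ' * Complex.exp t) := e2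
    rw [div_eq_iff (hR n)] at e3
    change f^[m n] (z + σ n * Q n t) = c + R n * φ (ρ' * Complex.exp t)
    linear_combination e3
  have hqder : deriv q t0 = σ n * deriv (Q n) t0 := by
    have e1 : HasDerivAt (Q n) (deriv (Q n) t0) t0 := (hn2.1.differentiableAt (hSo.mem_nhds ht0)).hasDerivAt
    exact ((e1.const_mul (σ n)).const_add z).deriv
  obtain ⟨g, hg1, hg2⟩ := htyp (m n) c (min ε1 (min ε0 e1)) Φ q t0 t0 hcJ ((min_le_right _ _).trans (min_le_left _ _))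
    (hWd _ le_rfl) (fun c' hc' j hj => hrc c' hc' (hent c' hc' j
      (ball_subset_ball ((min_le_right _ _).trans (min_le_right _ _)) hj))) hqd hqv ht0 hexp0.ge hexp0.le (by
      have e1 : q t0 - z = σ n * Q n t0 := by simp [hqdef]
      rw [e1, hqder, norm_mul, norm_mul]
      have := mul_le_mul_of_nonneg_left hn4 (norm_nonneg (σ n))
      linarith) (by
      rw [hqder, norm_mul]
      exact (mul_le_mul_of_nonneg_left hn6.2.2 (norm_nonneg _)).trans hn7.le) ht0 (by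
      simp only [hqdef, hn3])
  have hge : g (Complex.exp t0) = z + σ n * Q n t0 := (hg2 t0 ht0).symm
  have heb : Complex.exp t0 ∈ ball (0 : ℂ) 1 := by
    rw [mem_ball_zero_iff, hexp0]
    exact hθb
  have hgd : deriv g (Complex.exp t0) * Complex.exp t0 = σ n * deriv (Q n) t0 := by
    rw [← hqder]
    have e1 := ((hg1.1.differentiableAt (isOpen_ball.mem_nhds heb)).hasDerivAt.comp t0 (Complex.hasDerivAt_exp t0))
    have e2 : (g ∘ Complex.exp) =ᶠ[𝓝 t0] q := by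
      filter_upwards [hSo.mem_nhds ht0] with t ht
      exact (hg2 t ht).symm
    exact ((e1.congr_of_eventuallyEq e2.symm).deriv).symm
  have hgn : ‖deriv g (Complex.exp t0)‖ = ‖σ n‖ * ‖deriv (Q n) t0‖ / Real.exp (Real.log θ / 2) := by
    rw [eq_div_iff he0.ne', ← hexp0, ← norm_mul, hgd, norm_mul]
  refine ⟨g, hWd ε1 (min_le_left _ _), hg1, ?_, ?_, ?_⟩
  · have e1 : g (Complex.exp t0) - z = σ n * Q n t0 := by rw [hge]; ring
    rw [e1, norm_mul, mul_comm]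
    exact mul_le_mul_of_nonneg_right (hn6.1.trans (le_max_left _ _)) (norm_nonneg _)
  · rw [hgn, mul_comm, div_eq_mul_inv, div_eq_mul_inv (‖σ n‖ * _), ← mul_assoc]
    refine mul_le_mul_of_nonneg_right ?_ (inv_nonneg.2 he0.le)
    exact mul_le_mul_of_nonneg_left hn6.2.1 (norm_nonneg _)
  · rw [hgn]
    have e1 : (‖deriv Q0 t0‖ + 1) / Real.exp (Real.log θ / 2) * ‖σ n‖ ≤
        max (‖Q0 t0‖ + 1) ((‖deriv Q0 t0‖ + 1) / Real.exp (Real.log θ / 2)) * ‖σ n‖ :=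
      mul_le_mul_of_nonneg_right (le_max_right _ _) (norm_nonneg _)
    refine le_trans ?_ e1
    rw [div_mul_eq_mul_div, mul_comm (‖deriv Q0 t0‖ + 1)]
    exact div_le_div_of_nonneg_right (mul_le_mul_of_nonneg_left hn6.2.2 (norm_nonneg _)) he0.le

end Pool.Agent.H66.SP
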