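import Pool.Agent.H66.SP.Bas
import Pool.Agent.H64.XG.Tzx
import Pool.Agent.H66.DIM.If
import Pool.Agent.H44.LA.Defs
import Pool.Agent.H66.SP.UD_DD
import Pool.Agent.H66.SP.WP_Gl
import Pool.Agent.H66.SP.WP_Cr
import Pool.Agent.H66.SP.WP_Stp

/-!
# XG_Tzx: port of H64.XG.Tzx to the setting PG, FG (H66/SP/Defs)
-/

set_option autoImplicit false

open Filter Topology Metric Set MeasureTheory

namespace Pool.Agent.H66.SP

open Pool.Agent.H64.XG

open Pool.Agent.H56.UD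
open Pool.Agent.H66.DIM (Mn Tz)
open Pool.Agent.H44.LA (Rc)

variable {f : ℂ → ℂ} {U J P M Cr : Set ℂ} {δ : ℝ} {η : ℂ → ℂ → ℂ} {ρ : ℝ} {c z : ℂ}

theorem it_cont (h : PG f U J P Cr δ η ρ) {y : ℂ} (hy : y ∈ J) : ∀ j : ℕ, ContinuousAt f^[j] y
  | 0 => by
    rw [Function.iterate_zero]
    exact continuousAt_id
  | j + 1 => by
    rw [Function.iterate_succ']
    have h1 := J_it h j hy
    have h2 : ContinuousAt f (f^[j] y) := (h.fd.differentiableAt (h.Uo.mem_nhds (h.JU h1))).continuousAt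
    exact h2.comp (it_cont h hy j)

theorem tz_rc (h : PG f U J P Cr δ η ρ) (hM : Mn f P M) (hz : z ∈ J) (hT : Tz f Cr M z) {b : ℂ} (hb : b ∈ M) : Rc f b z := by
  intro ε hε N
  by_contra hcon
  push Not at hcon
  -- an accumulation point
  obtain ⟨y, hyJ, φ, hφ, hy⟩ := h.Jc.tendsto_subseq (x := fun n => f^[n] z) (fun n => J_it h n hz)
  have hyM : y ∈ M := by
    rw [← hM.cl.closure_eq, Metric.mem_closure_iff]
    intro e he
    obtain ⟨N1, hN1⟩ := hT.lim (e / 2) (half_pos he)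
    obtain ⟨n, hn1, hn2⟩ := ((hφ.tendsto_atTop.eventually_ge_atTop N1).and
      (hy.eventually (ball_mem_nhds y (half_pos he)))).exists
    obtain ⟨q, hq, hq2⟩ := hN1 (φ n) hn1
    refine ⟨q, hq, ?_⟩
    have h3 : dist (f^[φ n] z) y < e / 2 := hn2
    rw [← dist_eq_norm] at hq2
    calc dist y q ≤ dist y (f^[φ n] z) + dist (f^[φ n] z) q := dist_triangle _ _ _
      _ < e := by
        rw [dist_comm y]
        linarith
  obtain ⟨w, ⟨j, rfl⟩, hw⟩ := Metric.mem_closure_iff.1 (hM.min y hyM hb) ε hε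
  have h1 : ∀ᶠ v in 𝓝 y, f^[j] v ∈ ball b ε := by
    refine (it_cont h hyJ j).eventually (isOpen_ball.mem_nhds ?_)
    rw [mem_ball, dist_comm]
    exact hw
  obtain ⟨n, hn1, hn2⟩ := ((hy.eventually h1).and (hφ.tendsto_atTop.eventually_ge_atTop N)).exists
  refine hcon (j + φ n) (by omega) ?_
  rw [Function.iterate_add_apply]
  exact hn1

theorem rec_cp (h : PG f U J P Cr δ η ρ) (hrec : ∀ c ∈ Cr, ∀ ε : ℝ, 0 < ε → ∃ n ≥ 1, ‖f^[n] c - c‖ < ε) : Cr ⊆ P := by
  intro c hc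
  rw [← h.Pc.closure_eq, Metric.mem_closure_iff]
  intro e he
  obtain ⟨n, hn, hn2⟩ := hrec c hc e he
  refine ⟨f^[n] c, ?_, by rw [dist_comm, dist_eq_norm]; exact hn2⟩
  have h1 : ∀ k : ℕ, f^[k + 1] c ∈ P := by
    intro k
    induction k with
    | zero => exact h.CP c hc
    | succ k ih =>
      rw [Function.iterate_succ_apply']
      exact h.Pf _ ih
  obtain ⟨k, rfl⟩ : ∃ k, n = k + 1 := ⟨n - 1, by omega⟩
  exact h1 k

end Pool.Agent.H66.SP
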