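import Pool.Agent.H66.SP.Bas
import Pool.Agent.H23.XW.Main
import Pool.Agent.H23.XW.Lim
import Pool.Agent.H3.SZ.Tow
import Pool.Agent.H66.SP.SZ_Tow
import Pool.Agent.H66.SP.UD_DD

/-!
# XW_Main: port of H23.XW.Main to the setting PG, FG (H66/SP/Defs)
-/

set_option autoImplicit false

open Filter Topology Metric Set

namespace Pool.Agent.H66.SP

open Pool.Agent.H23.XW

open Pool.Agent.H66.GEO (Bl BB)
open Pool.Agent.H56.UD (Ph dm Pn)
open Pool.Agent.H64.XL (b1 Wt Tw)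
open Pool.Agent.H3.SZ (wt_sz tw_lo der_pos gr)

variable {f : ℂ → ℂ} {U J P Cr : Set ℂ} {δ : ℝ} {η : ℂ → ℂ → ℂ} {ρ : ℝ} {𝒰 : Ultrafilter ℕ} {c z : ℂ} {θ r M : ℝ} {ε : ℕ → ℝ}
  {S : ℕ → ℕ} {k t : ℕ → ℕ → ℕ} {α x : ℕ → ℕ → ℂ} {χ : ℕ → ℕ → ℂ → ℂ}

/-- the square root of `f - f c` at `c` -/
theorem tay (h : PG f U J P Cr δ η ρ) (hc : c ∈ Cr) :
    ∃ g : ℂ → ℂ, ContinuousAt g c ∧ g c ≠ 0 ∧ ∀ w, f w = f c + (w - c) ^ 2 * g w := by
  have hcU : U ∈ 𝓝 c := h.Uo.mem_nhds (h.JU (h.CJ hc))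
  obtain ⟨f1, hf1⟩ : ∃ f1 : ℂ → ℂ, f1 = dslope f c := ⟨_, rfl⟩
  obtain ⟨g, hg⟩ : ∃ g : ℂ → ℂ, g = dslope f1 c := ⟨_, rfl⟩
  have hd1 : DifferentiableAt ℂ f1 c := by
    rw [hf1]
    exact ((Complex.differentiableOn_dslope hcU).2 h.fd).differentiableAt hcU
  have h1 : ∀ w, f w - f c = (w - c) * f1 w := by
    intro w
    rw [hf1]
    have := sub_smul_dslope f c w
    rw [smul_eq_mul] at this
    exact this.symm
  have h2 : ∀ w, f1 w - f1 c = (w - c) * g w := by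
    intro w
    rw [hg]
    have := sub_smul_dslope f1 c w
    rw [smul_eq_mul] at this
    exact this.symm
  have hgc : ContinuousAt g c := by
    rw [hg, continuousAt_dslope_same]
    exact hd1
  obtain ⟨hη, hηi, hη0, hηf⟩ := h.nf c hc
  have h0 : (0 : ℂ) ∈ ball (0 : ℂ) ρ := mem_ball_self h.hρ
  have hdη : DifferentiableAt ℂ (η c) 0 := hη.differentiableAt (isOpen_ball.mem_nhds h0)
  have hd0 : deriv (η c) 0 ≠ 0 := ih_der isOpen_ball hη hηi h0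
  have hsl : Tendsto (fun v : ℂ => v⁻¹ * (η c v - c)) (𝓝[≠] 0) (𝓝 (deriv (η c) 0)) := by
    have := hasDerivAt_iff_tendsto_slope_zero.1 hdη.hasDerivAt
    simpa [hη0] using this
  have hcont : Tendsto (η c) (𝓝[≠] 0) (𝓝 c) := by
    have : Tendsto (η c) (𝓝 0) (𝓝 (η c 0)) := hdη.continuousAt
    rw [hη0] at this
    exact this.mono_left nhdsWithin_le_nhds
  have hev : ∀ᶠ v in 𝓝[≠] (0 : ℂ), v ∈ ball (0 : ℂ) ρ ∧ v ≠ 0 := by
    filter_upwards [mem_nhdsWithin_of_mem_nhds (isOpen_ball.mem_nhds h0), self_mem_nhdsWithin] with v hv1 hv2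
    exact ⟨hv1, hv2⟩
  have hf1c : f1 c = 0 := by
    have h3 : Tendsto (fun v : ℂ => v⁻¹ * (η c v - c) * f1 (η c v)) (𝓝[≠] 0) (𝓝 (deriv (η c) 0 * f1 c)) :=
      hsl.mul (hd1.continuousAt.tendsto.comp hcont)
    have h4 : Tendsto (fun v : ℂ => v⁻¹ * (η c v - c) * f1 (η c v)) (𝓝[≠] 0) (𝓝 0) := by
      have h5 : Tendsto (fun v : ℂ => v) (𝓝[≠] (0 : ℂ)) (𝓝 0) := tendsto_id.mono_left nhdsWithin_le_nhds
      refine h5.congr' ?_
      filter_upwards [hev] with v hv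
      have h6 := h1 (η c v)
      rw [(hηf v hv.1).2] at h6
      have h7 : v ^ 2 = (η c v - c) * f1 (η c v) := by linear_combination h6
      rw [mul_assoc, ← h7]
      field_simp [hv.2]
    have h8 := tendsto_nhds_unique h3 h4
    exact (mul_eq_zero.1 h8).resolve_left hd0
  have h3 : ∀ w, f w = f c + (w - c) ^ 2 * g w := by
    intro w
    have h4 := h1 w
    have h5 := h2 w
    rw [hf1c, sub_zero] at h5
    rw [h5] at h4
    linear_combination h4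
  refine ⟨g, hgc, ?_, h3⟩
  intro hg0
  have h4 : Tendsto (fun v : ℂ => (v⁻¹ * (η c v - c)) ^ 2 * g (η c v)) (𝓝[≠] 0) (𝓝 (deriv (η c) 0 ^ 2 * g c)) :=
    (hsl.pow 2).mul (hgc.tendsto.comp hcont)
  have h5 : Tendsto (fun v : ℂ => (v⁻¹ * (η c v - c)) ^ 2 * g (η c v)) (𝓝[≠] 0) (𝓝 1) := by
    refine tendsto_const_nhds.congr' ?_
    filter_upwards [hev] with v hv
    have h6 := h3 (η c v)
    rw [(hηf v hv.1).2] at h6
    have h7 : v ^ 2 = (η c v - c) ^ 2 * g (η c v) := by linear_combination h6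
    rw [mul_pow, mul_assoc, ← h7]
    field_simp [hv.2]
  have h6 := tendsto_nhds_unique h4 h5
  rw [hg0, mul_zero] at h6
  exact zero_ne_one h6

private theorem xn_eq {n s : ℕ} (hR : deriv (χ n 0) 0 ≠ 0) (v : ℂ) : c + deriv (χ n 0) 0 * Xn c χ n s v = χ n s v := by
  unfold Xn
  field_simp
  ring

theorem ts_mk (h : PG f U J P Cr δ η ρ) (hc : c ∈ Cr) (hM : 1 ≤ M) (hθ : 0 < θ) (hθr : θ < r) (hr1 : r < 1)
    (εt : Tendsto ε (𝒰 : Filter ℕ) (𝓝 0)) (w : ∀ᶠ n in (𝒰 : Filter ℕ), Wt f U J P δ c θ M (ε n) (χ n 0))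
    (tw : ∀ᶠ n in (𝒰 : Filter ℕ), Tw f U J P δ c z θ r (S n) (k n) (t n) (α n) (x n) (χ n))
    (St : ∀ s : ℕ, ∀ᶠ n in (𝒰 : Filter ℕ), s ≤ S n) : TS 𝒰 f U J P δ c z θ r M ε S k t α x χ := by
  have hcJ : c ∈ J := h.CJ hc
  refine ⟨hθ, hθr, hr1, εt, w, tw, St, ?_, ?_, ?_⟩
  · intro s
    obtain ⟨κ, hκ, h1⟩ := tw_lo (hθr.trans hr1) (hθ.trans hθr) hr1 s
    refine ⟨κ, hκ, ?_⟩
    filter_upwards [tw, St s] with n hn1 hn2
    exact h1 hn1 hn2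
  · intro s
    obtain ⟨ε0, hε0, h1⟩ := tw_up h hM
    refine ⟨32 * M, ?_⟩
    filter_upwards [tw, w, St s, εt.eventually_le_const hε0] with n hn1 hn2 hn3 hn4
    exact h1 hn1 hcJ hn2 hn4 s hn3
  · intro s
    obtain ⟨ε0, hε0, h1⟩ := tw_cr (i := s + 1) h hM hθ.le hθr hr1 (by omega)
    filter_upwards [tw, w, St (s + 1), εt.eventually_le_const hε0] with n hn1 hn2 hn3 hn4
    exact h1 hn1 hcJ hn2 hn4 hn3

theorem ts_ws (h : PG f U J P Cr δ η ρ) (hc : c ∈ Cr) (hT : TS 𝒰 f U J P δ c z θ r M ε S k t α x χ) :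
    WS 𝒰 θ r (Pn P (fun _ => c) (fun n => deriv (χ n 0) 0)) (Xn c χ) (Tn f c k χ) α := by
  have hR := ts_R hT
  have hR0 := ts_R0 hT
  have hder : ∀ s, ∀ᶠ n in (𝒰 : Filter ℕ), ‖deriv (Xn c χ n s) 0‖ = ‖deriv (χ n s) 0‖ / ‖deriv (χ n 0) 0‖ := by
    intro s
    filter_upwards with n
    have h1 : Xn c χ n s = fun v => (χ n s v - c) / deriv (χ n 0) 0 := rfl
    rw [h1, deriv_div_const, deriv_sub_const, norm_div]
  have hR0' : ∀ᶠ n in (𝒰 : Filter ℕ), 0 < ‖deriv (χ n 0) 0‖ := hR0.mono fun n hn => norm_pos_iff.2 hn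
  have hd : ∀ s, ∀ᶠ n in (𝒰 : Filter ℕ), DifferentiableOn ℂ (Xn c χ n s) (ball 0 1) := by
    intro s
    filter_upwards [hT.tw, hT.St s] with n hn1 hn2
    exact ((hn1.d s hn2).sub_const c).div_const _
  have hi : ∀ s, ∀ᶠ n in (𝒰 : Filter ℕ), InjOn (Xn c χ n s) (ball 0 1) := by
    intro s
    filter_upwards [hT.tw, hT.St s, hR0] with n hn1 hn2 hn3 v hv v' hv' hvv
    refine hn1.i s hn2 hv hv' ?_
    rw [← xn_eq (c := c) (s := s) hn3 v, ← xn_eq (c := c) (s := s) hn3 v', hvv]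
  have hz : ∀ s, ∀ᶠ n in (𝒰 : Filter ℕ), Xn c χ n s 0 = 0 := by
    intro s
    filter_upwards [hT.tw, hT.St s] with n hn1 hn2
    simp [Xn, hn1.c0 s hn2]
  have hup : ∀ s, ∃ C : ℝ, ∀ᶠ n in (𝒰 : Filter ℕ), ‖deriv (Xn c χ n s) 0‖ ≤ C := by
    intro s
    obtain ⟨C, hC⟩ := hT.up s
    refine ⟨C, ?_⟩
    filter_upwards [hC, hder s, hR0'] with n hn1 hn2 hn3
    rw [hn2, div_le_iff₀ hn3]
    exact hn1
  refine ⟨hT.θ0, hT.θr, hT.r1, ?_, hd, hi, hz, ?_, hup, ?_, ?_, ?_, ?_, ?_, ?_, ?_⟩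
  · -- Pc
    filter_upwards with n
    exact h.Pc.preimage (by fun_prop : Continuous fun w : ℂ => c + deriv (χ n 0) 0 * w)
  · -- lo
    intro s
    obtain ⟨C, hC, hC1⟩ := hT.lo s
    refine ⟨C, hC, ?_⟩
    filter_upwards [hC1, hder s, hR0'] with n hn1 hn2 hn3
    rw [hn2, le_div_iff₀ hn3]
    exact hn1
  · -- bd
    refine ⟨M, ?_⟩
    filter_upwards [hT.w, hR0'] with n hn1 hn2 v hv
    have h1 := hn1.bd v hv
    have h2 : ‖Xn c χ n 0 v‖ = ‖χ n 0 v - c‖ / ‖deriv (χ n 0) 0‖ := by rw [Xn, norm_div]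
    rw [h2, div_le_iff₀ hn2]
    exact h1
  · -- sy
    intro s v hv
    have hv1 : ‖v‖ < 1 := by simpa using hv
    have hv' : -v ∈ ball (0 : ℂ) 1 := by simpa using hv
    obtain ⟨K, hK1, hK⟩ := gr hv1
    obtain ⟨C, hC⟩ := hup s
    have hbd : ∀ y : ℂ, ‖y‖ ≤ ‖v‖ → ∀ᶠ n in (𝒰 : Filter ℕ), ‖Xn c χ n s y‖ ≤ K * C := by
      intro y hy
      filter_upwards [hd s, hi s, hz s, hC] with n hn1 hn2 hn3 hn4
      have h1 := hK _ hn1 hn2 y hy
      rw [hn3, sub_zero] at h1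
      refine h1.trans ?_
      gcongr
    obtain ⟨A, -, hA⟩ := lim_bd 𝒰 (hbd v le_rfl)
    obtain ⟨B, -, hB⟩ := lim_bd 𝒰 (hbd (-v) (by rw [norm_neg]))
    obtain ⟨g, hg, hg0, hgf⟩ := tay h hc
    have hsc : ∀ (w : ℂ) (a : ℕ → ℂ), Tendsto a (𝒰 : Filter ℕ) (𝓝 w) →
        Tendsto (fun n => c + deriv (χ n 0) 0 * a n) (𝒰 : Filter ℕ) (𝓝 c) := by
      intro w a ha
      have h1 := (hR.mul ha).const_add c
      rwa [zero_mul, add_zero] at h1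
    have h1 : Tendsto (fun n => Xn c χ n s v ^ 2 * g (c + deriv (χ n 0) 0 * Xn c χ n s v)) (𝒰 : Filter ℕ) (𝓝 (A ^ 2 * g c)) :=
      (hA.pow 2).mul (hg.tendsto.comp (hsc _ _ hA))
    have h2 : Tendsto (fun n => Xn c χ n s (-v) ^ 2 * g (c + deriv (χ n 0) 0 * Xn c χ n s (-v))) (𝒰 : Filter ℕ) (𝓝 (B ^ 2 * g c)) :=
      (hB.pow 2).mul (hg.tendsto.comp (hsc _ _ hB))
    have h3 : A ^ 2 * g c = B ^ 2 * g c := by
      refine tendsto_nhds_unique (h1.congr' ?_) h2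
      filter_upwards [hT.tw, hT.St s, hR0] with n hn1 hn2 hn3
      have h4 := hn1.sy s hn2 v hv
      rw [hgf (χ n s (-v)), hgf (χ n s v)] at h4
      have h5 := xn_eq (c := c) (s := s) hn3 v
      have h6 := xn_eq (c := c) (s := s) hn3 (-v)
      have h7 : (χ n s (-v) - c) ^ 2 * g (χ n s (-v)) = (χ n s v - c) ^ 2 * g (χ n s v) := by linear_combination h4
      rw [← h5, ← h6] at h7
      have h8 : deriv (χ n 0) 0 ^ 2 * (Xn c χ n s v ^ 2 * g (c + deriv (χ n 0) 0 * Xn c χ n s v)) =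
          deriv (χ n 0) 0 ^ 2 * (Xn c χ n s (-v) ^ 2 * g (c + deriv (χ n 0) 0 * Xn c χ n s (-v))) := by
        linear_combination (-1 : ℂ) * h7
      exact mul_left_cancel₀ (pow_ne_zero 2 hn3) h8
    have h4 : B ^ 2 - A ^ 2 = 0 := by
      have := mul_right_cancel₀ hg0 h3
      rw [this, sub_self]
    rw [← h4]
    exact (hB.pow 2).sub (hA.pow 2)
  · -- al
    intro s
    filter_upwards [hT.tw, hT.St (s + 1)] with n hn1 hn2
    exact hn1.al s (by omega)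
  · -- cv
    intro s
    filter_upwards [hT.tw, hT.St (s + 1)] with n hn1 hn2
    exact hn1.cv s (by omega)
  · -- rel
    intro s
    filter_upwards [hT.tw, hT.St (s + 1), hR0] with n hn1 hn2 hn3 v hv
    have h1 := (hn1.st s (by omega) v hv).2
    unfold Tn
    rw [xn_eq hn3, h1]
    rfl
  · -- off
    intro s
    filter_upwards [hT.tw, hT.St s, hR0] with n hn1 hn2 hn3 v hv hvth hvP
    refine hn1.of s hn2 v hv hvth ?_
    have h1 : c + deriv (χ n 0) 0 * Xn c χ n s v ∈ P := hvP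
    rwa [xn_eq hn3] at h1
  · -- cr
    intro s
    filter_upwards [hT.cr s] with n hn
    obtain ⟨a, b, h1, h2, h3, h4⟩ := hn
    exact ⟨a, b, h1, h2, h3, by simp only [Xn, h4]⟩

theorem ts_lim (h : PG f U J P Cr δ η ρ) (hc : c ∈ Cr) (hT : TS 𝒰 f U J P δ c z θ r M ε S k t α x χ) :
    ∃ (φ F : ℕ → ℂ → ℂ) (α' : ℕ → ℂ),
      WL 𝒰 θ r (Pn P (fun _ => c) (fun n => deriv (χ n 0) 0)) (Xn c χ) (Tn f c k χ) α φ F α' :=
  ws_lim (ts_ws h hc hT)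

/-- the iterates over compact subsets of `X_(s+1)` -/
theorem ts_pb (h : PG f U J P Cr δ η ρ) (hc : c ∈ Cr) (hT : TS 𝒰 f U J P δ c z θ r M ε S k t α x χ) {φ F : ℕ → ℂ → ℂ} {α' : ℕ → ℂ}
    (hW : WL 𝒰 θ r (Pn P (fun _ => c) (fun n => deriv (χ n 0) 0)) (Xn c χ) (Tn f c k χ) α φ F α') (s : ℕ) {K : Set ℂ}
    (hK : IsCompact K) (hKs : K ⊆ φ (s + 1) '' ball 0 1) : ∀ᶠ n in (𝒰 : Filter ℕ), ∀ w ∈ K,
      c + deriv (χ n 0) 0 * w ∈ dm f U J δ (k n s) ∧ f^[k n s] (c + deriv (χ n 0) 0 * w) = c + deriv (χ n 0) 0 * Tn f c k χ n s w := by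
  have hR := ts_R hT
  have hR0 := ts_R0 hT
  have hFb : ∃ C : ℝ, 0 < C ∧ ∀ w ∈ K, ‖F s w‖ ≤ C := by
    have h1 : ContinuousOn (F s) K := ((hW.dF s).continuousOn).mono hKs
    obtain ⟨C, hC⟩ := hK.exists_bound_of_continuousOn h1
    exact ⟨max C 1, by positivity, fun w hw => (hC w hw).trans (le_max_left _ _)⟩
  obtain ⟨C, hC, hFC⟩ := hFb
  have hsm : ∀ᶠ n in (𝒰 : Filter ℕ), ‖deriv (χ n 0) 0‖ < δ / (C + 1) := by
    have h1 := hR.norm
    rw [norm_zero] at h1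
    exact h1.eventually (gt_mem_nhds (div_pos h.hδ (by linarith)))
  filter_upwards [hT.tw, hT.St (s + 1), hR0, hW.cK (s + 1) K hK hKs, hW.cF s K hK hKs 1 one_pos, hsm] with n hn1 hn2 hn3 hn4 hn5 hn6 w hw
  have hTe : f^[k n s] (c + deriv (χ n 0) 0 * w) = c + deriv (χ n 0) 0 * Tn f c k χ n s w := by
    unfold Tn
    field_simp
    ring
  refine ⟨⟨?_, ?_⟩, hTe⟩
  · intro j hj
    obtain ⟨v, hv, hvw⟩ := hn4 hw
    rw [← hvw, xn_eq hn3]
    exact (hn1.st s (by omega) v hv).1 j hj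
  · rw [hTe]
    have h1 : ‖Tn f c k χ n s w‖ < C + 1 := by
      have h2 := hn5 w hw
      have h3 := norm_add_le (Tn f c k χ n s w - F s w) (F s w)
      rw [sub_add_cancel] at h3
      have := hFC w hw
      linarith
    refine mem_thickening_iff.2 ⟨c, h.CJ hc, ?_⟩
    rw [dist_eq_norm, add_sub_cancel_left, norm_mul]
    calc ‖deriv (χ n 0) 0‖ * ‖Tn f c k χ n s w‖ ≤ ‖deriv (χ n 0) 0‖ * (C + 1) := by gcongr
      _ < δ / (C + 1) * (C + 1) := by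
          have : 0 < C + 1 := by linarith
          gcongr
      _ = δ := by
          have : C + 1 ≠ 0 := by linarith
          field_simp

/-- `F 0 0 ≠ 0` -/
theorem ts_F0 (h : PG f U J P Cr δ η ρ) (hc : c ∈ Cr) (hT : TS 𝒰 f U J P δ c z θ r M ε S k t α x χ) {φ F : ℕ → ℂ → ℂ} {α' : ℕ → ℂ}
    (hW : WL 𝒰 θ r (Pn P (fun _ => c) (fun n => deriv (χ n 0) 0)) (Xn c χ) (Tn f c k χ) α φ F α') : F 0 0 ≠ 0 := by
  intro h0
  obtain ⟨e, he, hsub, hev⟩ := ws_F0 hW h0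
  obtain ⟨d, hd, hno⟩ := noattr h
  have hR := ts_R hT
  have hR0 := ts_R0 hT
  have hsm : ∀ᶠ n in (𝒰 : Filter ℕ), ‖deriv (χ n 0) 0‖ < d / e := by
    have h1 := hR.norm
    rw [norm_zero] at h1
    exact h1.eventually (gt_mem_nhds (div_pos hd he))
  obtain ⟨n, hn1, hn2, hn3, hn4, hn5, hn6⟩ := (hev.and ((hT.tw).and ((hT.St 1).and (hR0.and (hsm.and
    (Eventually.of_forall fun _ : ℕ => trivial)))))).exists
  have hRp : 0 < ‖deriv (χ n 0) 0‖ := norm_pos_iff.2 hn4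
  refine hno (ball c (e * ‖deriv (χ n 0) 0‖)) (k n 0) c isOpen_ball (mem_ball_self (by positivity)) (h.CJ hc) ?_ (hn2.kp 0 (by omega)) ?_
  · refine ball_subset_ball ?_
    have h1 : ‖deriv (χ n 0) 0‖ * e ≤ d / e * e := mul_le_mul_of_nonneg_right hn5.le he.le
    rw [div_mul_cancel₀ _ he.ne'] at h1
    linarith
  · intro w hw
    have h1 : (w - c) / deriv (χ n 0) 0 ∈ ball (0 : ℂ) e := by
      rw [mem_ball, dist_zero_right, norm_div, div_lt_iff₀ hRp]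
      simpa [dist_eq_norm] using hw
    have h2 := hn1 _ h1
    have h3 : c + deriv (χ n 0) 0 * ((w - c) / deriv (χ n 0) 0) = w := by
      field_simp
      ring
    unfold Tn at h2
    rw [h3, mem_ball, dist_zero_right, norm_div, div_lt_iff₀ hRp] at h2
    rw [mem_ball, dist_eq_norm]
    exact h2

end Pool.Agent.H66.SP
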