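import Pool.Agent.H66.SP.Bas
import Pool.Agent.H64.XG.Xt
import Pool.Agent.H64.XG.Lim
import Pool.Agent.H66.SP.XG_Lim
import Pool.Agent.H64.XG.Xn
import Pool.Agent.H41.XF.Lr
import Pool.Agent.H66.SP.XF_Lr
import Pool.Agent.H66.SP.UD_DD
import Pool.Agent.H66.SP.XF_Fl
import Pool.Agent.H66.SP.SZ_Tow
import Pool.Agent.H66.SP.SZ2_Tt
import Pool.Agent.H66.SP.XW_Main
import Pool.Agent.H66.SP.XW2_F0
import Pool.Agent.H66.SP.XG_Tqx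

/-!
# XG_Xt: port of H64.XG.Xt to the setting PG, FG (H66/SP/Defs)
-/

set_option autoImplicit false

open Filter Topology Metric Set MeasureTheory

namespace Pool.Agent.H66.SP

open Pool.Agent.H64.XG

open Pool.Agent.H56.UD
open Pool.Agent.H66.GEO (Bl BB)
open Pool.Agent.H64.XL (b1 Wt LT Lr)
open Pool.Agent.H66.DIM (Mn)

variable {𝒰 : Ultrafilter ℕ} {f : ℂ → ℂ} {U J M P Cr E : Set ℂ} {δ b0 : ℝ} {η : ℂ → ℂ → ℂ} {ρ : ℝ} {X hh μ : ℂ → ℂ}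
  {c z : ℂ} {θ r Mc : ℝ}
  {ε : ℕ → ℝ} {S : ℕ → ℕ} {k t : ℕ → ℕ → ℕ} {cc α x : ℕ → ℕ → ℂ} {χ γ : ℕ → ℕ → ℂ → ℂ} {bb : ℕ → ℂ} {uu : ℕ → ℕ → ℕ}
  {κc Cc : ℕ → ℝ} {φ0 : ℂ → ℂ} {Θ F : ℕ → ℕ → ℂ → ℂ} {α' : ℕ → ℂ} {m : ℕ → ℕ} {R σ : ℕ → ℂ} {zz : ℕ → ℂ}

/-- the field `pb` -/
theorem xt_pb (h : PG f U J P Cr δ η ρ) (hX : FG f U J E δ X hh μ b0)
    (hL : TL 𝒰 f U J P δ c θ r κc Cc t α χ γ bb uu φ0 Θ F α')
    (hR : R = Rn χ) (hR0 : ∀ n, R n ≠ 0)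
    (hT : LT 𝒰 (Fn f zz m (fun _ => c) R σ) (Dn f U J δ zz m σ) (Pn P (fun _ => c) R))
    (hz : ∀ n, zz n ∈ E) (hσ : ∀ n, σ n ≠ 0) (ht : Tendsto σ (𝒰 : Filter ℕ) (𝓝 0)) {m' l' : ℕ} (hl0 : 0 < l') (hl : l' < m')
    (hb : bb l' = bb m') {T : Set ℂ} {H G' G : ℂ → ℂ}
    (h1 : Lr 𝒰 (Fn f zz m (fun _ => c) R σ) (Dn f U J δ zz m σ) (Pn P (fun _ => c) R) T H G')
    (h2 : ∀ u ∈ T, H u ∈ Θ m' l' '' ball 0 1)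
    (h3 : Lr 𝒰 (Fn f zz m (fun _ => c) R σ) (Dn f U J δ zz m σ) (Pn P (fun _ => c) R) T (fun u => F m' l' (H u)) G) :
    ∃ (a : ℝ) (b : ℂ), a ≠ 0 ∧ ∀ u ∈ T, G u = a * G' u + b := by
  subst hR
  rcases T.eq_empty_or_nonempty with rfl | ⟨u0, hu0⟩
  · exact ⟨1, 0, one_ne_zero, fun u hu => absurd hu (notMem_empty u)⟩
  have ho : IsOpen (Θ m' l' '' ball 0 1) := Pool.Agent.H43.UB.uh_open isOpen_ball (hL.dθ m' l' hl0 hl hb) (hL.iθ m' l' hl0 hl hb) isOpen_ball subset_rfl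
  obtain ⟨r1, hr1, hb1⟩ := Metric.nhds_basis_closedBall.mem_iff.1 (ho.mem_nhds (h2 u0 hu0))
  refine Pool.Agent.H66.SP.lr_pb (κ := fun n => t n l' - t n m') (Tn := fun n => Ft f c t χ m' l' n) (T := F m' l') h hX hT hz
    hR0 hσ ht h1 h3 hu0 hr1 ?_ ?_ (Eventually.of_forall fun u => rfl)
  · filter_upwards [hL.dm m' l' hl0 hl hb _ (isCompact_closedBall (H u0) r1) hb1] with n hn w hw
    refine ⟨hn w (ball_subset_closedBall hw), ?_⟩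
    show _ = c + Rn χ n * ((f^[t n l' - t n m'] (c + Rn χ n * w) - c) / Rn χ n)
    rw [mul_div_cancel₀ _ (hR0 n), add_sub_cancel]
  · exact (hL.cF m' l' hl0 hl hb).mono (ball_subset_closedBall.trans hb1)

theorem xn_of (h : PG f U J P Cr δ η ρ) (hX : FG f U J E δ X hh μ b0)
    (hS : TGs 𝒰 f U J M P Cr δ c z θ r Mc ε S k t cc α x χ γ bb uu)
    (hL : TL 𝒰 f U J P δ c θ r κc Cc t α χ γ bb uu φ0 Θ F α')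
    (hR : R = Rn χ) (hR0 : ∀ n, R n ≠ 0)
    (hT : LT 𝒰 (Fn f zz m (fun _ => c) R σ) (Dn f U J δ zz m σ) (Pn P (fun _ => c) R))
    (hz : ∀ n, zz n ∈ E) (hσ : ∀ n, σ n ≠ 0) (ht : Tendsto σ (𝒰 : Filter ℕ) (𝓝 0))
    (hex : ∃ (T : Set ℂ) (H G : ℂ → ℂ) (u x : ℂ),
      Lr 𝒰 (Fn f zz m (fun _ => c) R σ) (Dn f U J δ zz m σ) (Pn P (fun _ => c) R) T H G ∧ u ∈ T ∧ ‖x‖ < 1 ∧ θ < ‖x‖ ∧
      H u = φ0 x) {mm ll : ℕ → ℕ} (hml : ∀ j, 0 < ll j ∧ ll j < mm j ∧ bb (ll j) = bb (mm j) ∧ j ≤ uu (mm j) (ll j)) :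
    XN (Ph 𝒰 (Pn P (fun _ => c) R)) (Lr 𝒰 (Fn f zz m (fun _ => c) R σ) (Dn f U J δ zz m σ) (Pn P (fun _ => c) R)) θ r φ0
      (fun j => uu (mm j) (ll j)) (fun j => Θ (mm j) (ll j)) (fun j => F (mm j) (ll j)) b1 α' where
  th0 := hS.θ0
  thr := hS.θr
  r1 := hS.r1
  ut := tendsto_atTop_mono (fun j => (hml j).2.2.2) tendsto_id
  dφ := hL.dφ
  iφ := hL.iφ
  oφ := hL.oφ
  bφ := hL.bφ
  dθ := fun j => hL.dθ _ _ (hml j).1 (hml j).2.1 (hml j).2.2.1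
  iθ := fun j => hL.iθ _ _ (hml j).1 (hml j).2.1 (hml j).2.2.1
  hω := fun s => by
    show ‖(1 : ℂ)‖ = 1
    exact norm_one
  hα := hL.hα
  cv := fun s => by
    show ‖BB b1 α' s (1 * α' s)‖ ≤ θ
    rw [one_mul]
    exact hL.cv s
  rel := fun j => hL.rel _ _ (hml j).1 (hml j).2.1 (hml j).2.2.1
  of0 := fun x hx hx1 => by
    rw [hR]
    exact hL.fφ x hx hx1
  off := fun j x hx hx1 => by
    rw [hR]
    exact hL.fθ _ _ (hml j).1 (hml j).2.1 (hml j).2.2.1 x hx hx1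
  pb := fun j {T H G' G} h1 h2 h3 => xt_pb h hX hL hR hR0 hT hz hσ ht (hml j).1 (hml j).2.1 (hml j).2.2.1 h1 h2 h3
  cr := fun j => hL.cr _ _ (hml j).1 (hml j).2.1 (hml j).2.2.1
  ex := hex

end Pool.Agent.H66.SP
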