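import Pool.Agent.H66.SP.XG_Seq
import Pool.Agent.H66.SP.XG_Xt
import Pool.Agent.H66.SP.XG_Nub
import Pool.Agent.H66.SP.XG_Typ
import Pool.Agent.H66.SP.XG_Tzx
import Pool.Agent.H66.SP.XL_Ex
import Pool.Agent.H66.SP.MP_Mq
import Pool.Agent.H66.SP.RL_Fmlt
import Pool.Agent.H66.SP.LB_If
import Pool.Agent.H66.SP.LAs
import Pool.Agent.H65.RL.Ops
import Pool.Agent.H65.RL.Ext
import Pool.Agent.H91.GS.MAIN

/-!
# XG_Main: port of H64.XG.Main to the setting PG, FG (H66/SP/Defs)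
-/

set_option autoImplicit false

open Filter Topology Metric Set MeasureTheory

namespace Pool.Agent.H66.SP

open Pool.Agent.H64.XG

open Pool.Agent.H56.UD
open Pool.Agent.H66.GEO (Bl BB)
open Pool.Agent.H64.XL (b1 Wt LT Lr Nvs Rs Ss rs_ne ss_ne rs_t ss_t)
open Pool.Agent.H66.DIM (Mn Tz)
open Pool.Agent.H65.MP (Rq)
open Pool.Agent.H91.GS (Mk)
open Pool.Agent.H44.LA (Rc)

variable {f : ℂ → ℂ} {U J P M Cr E : Set ℂ} {δ b0 : ℝ} {η : ℂ → ℂ → ℂ} {ρ : ℝ} {X hh μ : ℂ → ℂ} {c z : ℂ} {θ θ' r Mc : ℝ}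
  {ε : ℕ → ℝ} {m : ℕ → ℕ} {y : ℕ → ℂ} {χ g : ℕ → ℂ → ℂ} {𝒰 : Ultrafilter ℕ} {R σ : ℕ → ℂ}

/-- LEMMA A for all critical points of `M` -/
theorem las_of (h : PG f U J P Cr δ η ρ) (hX : FG f U J E δ X hh μ b0) (hz : z ∈ E)
    (hrc : ∀ b ∈ Cr, b ∈ M → Rc f b z) : LAs f U J P M Cr δ z := by
  intro θ C h0 h1 b hb hbM
  exact Pool.Agent.H66.SP.lem_s h hX (M := C) hz hb (hrc b hb hbM) h0 h1

/-- the lift system of the frames -/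
theorem ls_of (h : PG f U J P Cr δ η ρ) (hX : FG f U J E δ X hh μ b0) (hM : Mn f P M) (hCP : Cr ⊆ P)
    (hin : ∀ c' ∈ Cr, ∀ j : ℕ, f^[j] c' ∈ M → c' ∈ M) (hz : z ∈ E) (hrc : ∀ b ∈ Cr, b ∈ M → Rc f b z) (hc : c ∈ Cr)
    (hcM : c ∈ M) (hR : ∀ n, R n ≠ 0) (hRt : Tendsto R (𝒰 : Filter ℕ) (𝓝 0)) (hσ : ∀ n, σ n ≠ 0)
    (hσt : Tendsto σ (𝒰 : Filter ℕ) (𝓝 0)) :
    Pool.Agent.H66.GEO.LS (Ph 𝒰 (Pn P (fun _ => c) R))
      (Lr 𝒰 (Fn f (fun _ => z) m (fun _ => c) R σ) (Dn f U J δ (fun _ => z) m σ) (Pn P (fun _ => c) R)) := by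
  have hcP : c ∈ P := hM.sub hcM
  have hT : LT 𝒰 (Fn f (fun _ => z) m (fun _ => c) R σ) (Dn f U J δ (fun _ => z) m σ) (Pn P (fun _ => c) R) :=
    Pool.Agent.H66.SP.lt_of h (fun _ => hcP) hR hσ hRt
  have hQ0 := Pool.Agent.H65.RL.rl_Q0 hT
  exact
    { Qc := Pool.Agent.H65.RL.rl_Qc
      Q0 := hQ0
      op := Pool.Agent.H65.RL.rl_op
      dH := Pool.Agent.H65.RL.rl_dH
      dG := Pool.Agent.H65.RL.rl_dG hT
      sub := Pool.Agent.H65.RL.rl_sub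
      ext := fun h1 S' H' u u' => Pool.Agent.H65.RL.rl_ext hT h1 S' H' u u'
      gal := fun h1 h2 => Pool.Agent.H66.SP.lr_gal h hX hT (fun _ => hz) hR hσ hσt h1 h2
      dis := Pool.Agent.H65.RL.rl_dis hT
      typ := fun φ G d h1 h2 h3 h4 h5 h6 h7 =>
        mk_of h hX hM hCP hin hz hrc hc hcM hR hRt hσ hσt hT hQ0 (Or.inl rfl) φ G d h1 h2 h3 h4 h5 h6 h7
      sym := fun h1 h2 => Pool.Agent.H66.SP.lr_sym h hX hc hT (fun _ => rfl) (fun _ => hz) hR hRt hσ hσt h1 h2 }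

theorem x_false (h : PG f U J P Cr δ η ρ) (hX : FG f U J E δ X hh μ b0) (hM : Mn f P M) (hCP : Cr ⊆ P)
    (hin : ∀ c' ∈ Cr, ∀ j : ℕ, f^[j] c' ∈ M → c' ∈ M) (hz : z ∈ E) (hTz : Tz f Cr M z) (hc : c ∈ Cr) (hcM : c ∈ M)
    (hN : Nvs f U J P δ c z θ θ' Mc ε m y χ g) (hy : ∀ n, ‖y n‖ = θ') : False := by
  have hzJ : z ∈ J := hX.EJ hz
  have hcP : c ∈ P := hM.sub hcM
  have hrc : ∀ b ∈ M, Rc f b z := fun b hb => tz_rc h hM hzJ hTz hb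
  have hA : LAs f U J P M Cr δ z := las_of h hX hz fun b _ hb => hrc b hb
  obtain ⟨𝒰, hU⟩ : ∃ 𝒰 : Ultrafilter ℕ, (𝒰 : Filter ℕ) ≤ atTop := ⟨Ultrafilter.of atTop, Ultrafilter.of_le atTop⟩
  obtain ⟨r, hr, hr1⟩ := exists_between (hN.θθ.trans hN.θ1)
  obtain ⟨S, k, t, cc, α, x, Y, γ, bb, uu, hY, hbC, hT⟩ := tgs_ex h hM hA hzJ hc hcM (tz_av hM hTz) (hrc c hcM) hN hr hr1 𝒰 hU
  obtain ⟨κc, Cc, φ0, Θ, F, α', hL⟩ := tl_ex h hM hT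
  -- a critical point which occurs infinitely often
  obtain ⟨b, hb⟩ : ∃ b : ℂ, {s | bb s = b}.Infinite := by
    by_contra hcon
    push Not at hcon
    have h1 : (⋃ b ∈ Cr, {s | bb s = b}).Finite := h.Cf.biUnion fun b _ => hcon b
    refine Set.infinite_univ (h1.subset fun s _ => ?_)
    simp only [mem_iUnion]
    exact ⟨bb s, hbC s, rfl⟩
  have hch : ∀ j : ℕ, ∃ p : ℕ × ℕ, 0 < p.1 ∧ p.1 < p.2 ∧ bb p.1 = bb p.2 ∧ j ≤ uu p.2 p.1 := fun j => by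
    obtain ⟨l, m, h1, h2, h3, h4, h5⟩ := nub h hM hT hb j
    exact ⟨(l, m), h1, h2, h3.trans h4.symm, h5⟩
  choose p hp using hch
  -- the frames
  have hRY : Rs χ = Rn Y := by
    funext n
    show deriv (χ n) 0 = deriv (Y n 0) 0
    rw [hY n]
  have hR := rs_ne hN
  have hRt := rs_t hU hN
  have hσ := ss_ne hN
  have hσt := ss_t hU hN
  have hLT : LT 𝒰 (Fn f (fun _ => z) m (fun _ => c) (Rs χ) (Ss χ g y)) (Dn f U J δ (fun _ => z) m (Ss χ g y))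
      (Pn P (fun _ => c) (Rs χ)) := Pool.Agent.H66.SP.lt_of h (fun _ => hcP) hR hσ hRt
  have hex := ex_lr h hU hN hy hLT hL.dφ (by
    refine hL.cφ.congr ?_
    intro n v _
    show (Y n 0 v - c) / deriv (Y n 0) 0 = (χ n v - c) / Rs χ n
    rw [hY n]
    rfl)
  have hLS := ls_of (𝒰 := 𝒰) (m := m) h hX hM hCP hin hz (fun b _ hb => hrc b hb) hc hcM hR hRt hσ hσt
  have hXN := xn_of h hX hT hL hRY hR hLT (fun _ => hz) hσ hσt hex (mm := fun j => (p j).2) (ll := fun j => (p j).1)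
    (fun j => hp j)
  have hXT := hXN.xt fun j => Pool.Agent.H66.SP.mq_of h hX hLT (fun _ => hz) hR hσ hσt hLS
    (fun w hw hw' => mk_of h hX hM hCP hin hz (fun b _ hb => hrc b hb) hc hcM hR hRt hσ hσt hLT hw (Or.inr hw'))
    hXN.th0 hXN.thr hXN.r1 hXN.dφ hXN.iφ hXN.oφ hXN.bφ hXN.of0 hXN.ex hXN.hω hXN.hα hXN.cv (hXN.dθ j) (hXN.iθ j)
    (hXN.rel j) (hXN.off j) (fun {S H G' G} h1 h2 h3 => hXN.pb j h1 h2 h3) (hXN.cr j)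
  have h0 := Pool.Agent.H91.GS.geo hLS hXT
  exact tl_end h hM hT hL (hp 0).1 (hp 0).2.1 (hp 0).2.2.1 h0

end Pool.Agent.H66.SP
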