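import Pool.Agent.H66.SP.Bas
import Pool.Agent.H56.WP.Att
import Pool.Agent.H56.UD.DA

/-!
# WP_Att: port of H56.WP.Att to the setting PG, FG (H66/SP/Defs)
-/

set_option autoImplicit false

open Filter Topology Metric Set MeasureTheory

namespace Pool.Agent.H66.SP

open Pool.Agent.H56.WP

open Pool.Agent.H56.UD

variable {f : ℂ → ℂ} {U J P Cr : Set ℂ} {δ : ℝ} {η : ℂ → ℂ → ℂ} {ρ : ℝ}

theorem noattr (h : PG f U J P Cr δ η ρ) : ∃ d0 : ℝ, 0 < d0 ∧ ∀ (X : Set ℂ) (k : ℕ) (p : ℂ), IsOpen X → (X ∩ J).Nonempty →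
    1 ≤ k → MapsTo (f^[k]) X X → X ⊆ ball p d0 → False := by
  obtain ⟨a, ha, b, hb, hab⟩ := h.Jt
  refine ⟨‖a - b‖ / 2, by have := norm_pos_iff.2 (sub_ne_zero.2 hab); linarith, ?_⟩
  intro X k p hX hXJ hk hm hp
  obtain ⟨N, hN⟩ := h.leo X hX hXJ
  have hmN : ∀ n : ℕ, MapsTo (f^[k * n]) X X := by
    intro n
    rw [Function.iterate_mul]
    exact hm.iterate n
  have h1 : J ⊆ f^[k * N] '' (X ∩ dm f U J δ (k * N)) := hN _ (Nat.le_mul_of_pos_left _ hk)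
  have h2 : ∀ w ∈ J, w ∈ ball p (‖a - b‖ / 2) := by
    intro w hw
    obtain ⟨x, hx, rfl⟩ := h1 hw
    exact hp (hmN N hx.1)
  have h3 := h2 a ha
  have h4 := h2 b hb
  rw [mem_ball, dist_eq_norm] at h3 h4
  have h5 : ‖a - b‖ ≤ ‖a - p‖ + ‖b - p‖ := by
    calc ‖a - b‖ = ‖(a - p) - (b - p)‖ := by congr 1; ring
      _ ≤ _ := norm_sub_le _ _
  linarith

end Pool.Agent.H66.SP
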