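import Pool.Agent.H66.SP.Bas
import Pool.Agent.H64.XL.TwEx
import Pool.Agent.H64.XL.Defs
import Pool.Agent.H56.WP.Stp
import Pool.Agent.H66.SP.WP_Stp
import Pool.Agent.H44.LA.Kb
import Pool.Agent.H18.LA.Main
import Pool.Agent.H66.SP.UD_DD
import Pool.Agent.H66.SP.WP_Gl
import Pool.Agent.H66.SP.WP_Cr
import Pool.Agent.H66.SP.LA_Gc
import Pool.Agent.H66.SP.LA_Cmp
import Pool.Agent.H66.SP.LA_Sm
import Pool.Agent.H66.SP.LA_Ncv
import Pool.Agent.H66.SP.LA_Stc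

/-!
# XL_TwEx: port of H64.XL.TwEx to the setting PG, FG (H66/SP/Defs)
-/

set_option autoImplicit false

open Filter Topology Metric Set MeasureTheory

namespace Pool.Agent.H66.SP

open Pool.Agent.H64.XL

open Pool.Agent.H56.UD Pool.Agent.H56.WP Pool.Agent.H55.PB
open Pool.Agent.H44.LA (kb kb_cov)
open Pool.Agent.H66.GEO (Bl BB)

variable {f : ℂ → ℂ} {U J P Cr E : Set ℂ} {δ b0 : ℝ} {η : ℂ → ℂ → ℂ} {ρ : ℝ} {X hh μ : ℂ → ℂ} {c z : ℂ} {θ r M : ℝ}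

theorem P_pre (h : PG f U J P Cr δ η ρ) {k : ℕ} {w : ℂ} (hw : f^[k] w ∉ P) : w ∉ P :=
  fun h1 => hw (P_it h k h1)

end Pool.Agent.H66.SP
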