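import Pool.Agent.H66.SP.Bas
import Pool.Agent.H64.XG.Seq
import Pool.Agent.H64.XG.TgEx
import Pool.Agent.H66.SP.XG_TgEx
import Pool.Agent.H64.XL.Seq
import Pool.Agent.H66.SP.UD_DD
import Pool.Agent.H66.SP.WP_Gl
import Pool.Agent.H66.SP.WP_Cr
import Pool.Agent.H66.SP.WP_Stp
import Pool.Agent.H66.SP.LA_Gc
import Pool.Agent.H66.SP.LA_Cmp
import Pool.Agent.H66.SP.LA_Sm
import Pool.Agent.H66.SP.LA_Ncv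
import Pool.Agent.H66.SP.LA_Stc
import Pool.Agent.H66.SP.XL_TwEx

/-!
# XG_Seq: port of H64.XG.Seq to the setting PG, FG (H66/SP/Defs)
-/

set_option autoImplicit false

open Filter Topology Metric Set MeasureTheory

namespace Pool.Agent.H66.SP

open Pool.Agent.H64.XG

open Pool.Agent.H56.UD
open Pool.Agent.H66.GEO (Bl BB)
open Pool.Agent.H64.XL (b1 Wt Nvs)
open Pool.Agent.H66.DIM (Mn Tz)

variable {f : ℂ → ℂ} {U J P M Cr : Set ℂ} {δ : ℝ} {η : ℂ → ℂ → ℂ} {ρ : ℝ} {c z : ℂ} {θ θ' r Mc : ℝ}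
  {ε : ℕ → ℝ} {m : ℕ → ℕ} {y : ℕ → ℂ} {χ g : ℕ → ℂ → ℂ}

theorem tgs_ex (h : PG f U J P Cr δ η ρ) (hM : Mn f P M) (hA : LAs f U J P M Cr δ z) (hzJ : z ∈ J) (hc : c ∈ Cr) (hcM : c ∈ M)
    (hc' : ∀ c' ∈ Cr, c' ∉ M → ∃ ε : ℝ, 0 < ε ∧ ∀ n, f^[n] z ∉ ball c' ε)
    (hrc : ∀ ε : ℝ, 0 < ε → ∀ N : ℕ, ∃ n ≥ N, f^[n] z ∈ ball c ε) (hN : Nvs f U J P δ c z θ θ' Mc ε m y χ g)
    (hθr : θ < r) (hr1 : r < 1) (𝒰 : Ultrafilter ℕ) (hU : (𝒰 : Filter ℕ) ≤ atTop) :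
    ∃ (S : ℕ → ℕ) (k t : ℕ → ℕ → ℕ) (cc α x : ℕ → ℕ → ℂ) (Y γ : ℕ → ℕ → ℂ → ℂ) (bb : ℕ → ℂ) (uu : ℕ → ℕ → ℕ),
      (∀ n, Y n 0 = χ n) ∧ (∀ s, bb s ∈ Cr) ∧ TGs 𝒰 f U J M P Cr δ c z θ r Mc ε S k t cc α x Y γ bb uu := by
  obtain ⟨S, k, t, cc, α, x, Y, γ, hS, hY, hT⟩ := seq_tg (tg_ex h hM hA hzJ hc hcM hc' hrc hN.θ0 hθr hr1) hN
  have hTU : ∀ᶠ n in (𝒰 : Filter ℕ), Tg f U M P Cr z θ r (S n) (k n) (t n) (cc n) (α n) (x n) (Y n) (γ n) := hU hT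
  have hSU : ∀ s : ℕ, ∀ᶠ n in (𝒰 : Filter ℕ), s ≤ S n := fun s => hU (hS.eventually_ge_atTop s)
  have hε : Tendsto ε (𝒰 : Filter ℕ) (𝓝 0) := hN.εt.mono_left hU
  have hW : ∀ n, Wt f U J P δ c θ Mc (ε n) (Y n 0) := fun n => by
    rw [hY n]
    exact hN.w n
  have hb : ∀ s : ℕ, ∃ b ∈ Cr, ∀ᶠ n in (𝒰 : Filter ℕ), cc n s = b := fun s => by
    refine uval 𝒰 h.Cf ?_
    filter_upwards [hTU, hSU s] with n h1 h2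
    exact (h1.c0 s h2).2.1
  have hu : ∀ m l : ℕ, ∃ u ∈ Set.Iic m, ∀ᶠ n in (𝒰 : Filter ℕ), Nn (t n) m l = u := fun m l => by
    refine uval 𝒰 (Set.finite_Iic m) (Eventually.of_forall fun n => ?_)
    exact Nat.findGreatest_le m
  choose bb hbb1 hbb2 using hb
  choose uu _ huu using hu
  exact ⟨S, k, t, cc, α, x, Y, γ, bb, uu, hY, hbb1, ⟨hN.θ0, hθr, hr1, hN.M1, hcM, hc, hε, Eventually.of_forall hW, hTU, hSU, hbb2,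
    huu⟩⟩

end Pool.Agent.H66.SP
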